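import Pool.Agent.H26.HD.Rot
set_option autoImplicit false

/-!
# Finite unions of convex sets
-/

namespace Pool.Agent.H26.HD

open MeasureTheory Set Metric Complex
open scoped ENNReal NNReal

variable {q s K : ℝ} {U A B : Set ℂ} {F f g : ℂ → ℂ} {c : ℂ}

theorem order_cases (e0 e1 e2 e3 : ℝ) (a : ℂ) :
    (if e0 ≤ e1 ∧ e0 ≤ e2 ∧ e0 ≤ e3 then a else 0) +
    (if e1 < e0 ∧ e1 ≤ e3 ∧ e1 ≤ e2 then a else 0) +
    (if e2 ≤ e3 ∧ e2 < e1 ∧ e2 < e0 then a else 0) +
    (if e3 < e2 ∧ e3 < e0 ∧ e3 < e1 then a else 0) = a := by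
  by_cases h0 : e0 ≤ e1 ∧ e0 ≤ e2 ∧ e0 ≤ e3
  · have h1 : ¬ (e1 < e0 ∧ e1 ≤ e3 ∧ e1 ≤ e2) := fun h => by linarith [h.1, h0.1]
    have h2 : ¬ (e2 ≤ e3 ∧ e2 < e1 ∧ e2 < e0) := fun h => by linarith [h.2.2, h0.2.1]
    have h3 : ¬ (e3 < e2 ∧ e3 < e0 ∧ e3 < e1) := fun h => by linarith [h.2.1, h0.2.2]
    rw [if_pos h0, if_neg h1, if_neg h2, if_neg h3]; ring
  · by_cases h1 : e1 < e0 ∧ e1 ≤ e3 ∧ e1 ≤ e2
    · have h2 : ¬ (e2 ≤ e3 ∧ e2 < e1 ∧ e2 < e0) := fun h => by linarith [h.2.1, h1.2.2]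
      have h3 : ¬ (e3 < e2 ∧ e3 < e0 ∧ e3 < e1) := fun h => by linarith [h.2.2, h1.2.1]
      rw [if_neg h0, if_pos h1, if_neg h2, if_neg h3]; ring
    · by_cases h2 : e2 ≤ e3 ∧ e2 < e1 ∧ e2 < e0
      · have h3 : ¬ (e3 < e2 ∧ e3 < e0 ∧ e3 < e1) := fun h => by linarith [h.1, h2.1]
        rw [if_neg h0, if_neg h1, if_pos h2, if_neg h3]; ring
      · have h3 : e3 < e2 ∧ e3 < e0 ∧ e3 < e1 := by
          rcases le_or_gt e0 e1 with a1 | a1 <;> rcases le_or_gt e2 e3 with a2 | a2
          · exfalso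
            rcases le_or_gt e0 e2 with a3 | a3
            · exact h0 ⟨a1, a3, by linarith⟩
            · exact h2 ⟨a2, by linarith, a3⟩
          · rcases le_or_gt e0 e3 with a3 | a3
            · exact absurd ⟨a1, by linarith, a3⟩ h0
            · exact ⟨a2, a3, by linarith⟩
          · exfalso
            rcases le_or_gt e1 e2 with a3 | a3
            · exact h1 ⟨a1, by linarith, a3⟩
            · exact h2 ⟨a2, a3, by linarith⟩
          · rcases le_or_gt e1 e3 with a3 | a3
            · exact absurd ⟨a1, a3, by linarith⟩ h1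
            · exact ⟨a2, by linarith, a3⟩
        rw [if_neg h0, if_neg h1, if_neg h2, if_pos h3]; ring

theorem piece_sum (hx : c ∈ U) :
    (piece U (1 * I) ![false, false, false]).indicator F c +
    (piece U (-1 * I) ![true, false, false]).indicator F c +
    (piece U (-I * I) ![false, true, true]).indicator F c +
    (piece U (I * I) ![true, true, true]).indicator F c = F c := by
  classical
  have key : ∀ (d : ℂ) (b : Fin 3 → Bool), (piece U d b).indicator F c =
      if (cmp (b 0) (ex U d c) (ex U (d * oth 0) c) ∧ cmp (b 1) (ex U d c) (ex U (d * oth 1) c) ∧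
        cmp (b 2) (ex U d c) (ex U (d * oth 2) c)) then F c else 0 := by
    intro d b
    rw [indicator_apply]
    congr 1
    unfold piece
    simp only [mem_ofPred_eq, hx, true_and, Fin.forall_fin_succ, Fin.succ_zero_eq_one,
      Fin.succ_one_eq_two, IsEmpty.forall_iff, and_true]
  have e0 : (1 : ℂ) * I = I := by ring
  have e1 : (-1 : ℂ) * I = -I := by ring
  have e2 : -I * I = 1 := by rw [neg_mul, I_mul_I]; ring
  have e3 : I * I = -1 := I_mul_I
  have e4 : -I * -1 = I := by ring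
  have e5 : I * -1 = -I := by ring
  have e6 : I * -I = 1 := by rw [mul_neg, I_mul_I]; ring
  have e7 : -I * -I = -1 := by rw [neg_mul_neg, I_mul_I]
  have e8 : (1 : ℂ) * -1 = -1 := by ring
  have e9 : (1 : ℂ) * -I = -I := by ring
  have e10 : (-1 : ℂ) * -1 = 1 := by ring
  have e11 : (-1 : ℂ) * -I = I := by ring
  rw [key, key, key, key]
  simp only [oth, Matrix.cons_val_zero, Matrix.cons_val_one, Matrix.cons_val, cmp_true, cmp_false,
    e0, e1, e2, e3, e4, e5, e6, e7, e8, e9, e10, e11]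
  exact order_cases (ex U I c) (ex U (-I) c) (ex U 1 c) (ex U (-1) c) (F c)

/-- integrability -/
theorem integrable_of (hq : 1 ≤ q) (hA : A ⊆ closedBall 0 (1 / 2)) (hf : Measurable f)
    (hfin : ∫⁻ z in A, ‖f z‖ₑ ^ q ≠ ∞) : IntegrableOn f A := by
  have hfinm : IsFiniteMeasure (volume.restrict A) := by
    constructor
    rw [Measure.restrict_apply_univ]
    exact lt_of_le_of_lt (measure_mono hA) measure_closedBall_lt_top
  have h1 : MemLp f (ENNReal.ofReal q) (volume.restrict A) := by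
    refine ⟨hf.aestronglyMeasurable, ?_⟩
    rw [eLpNorm_eq_lintegral_rpow_enorm_toReal (by simp; linarith) ENNReal.ofReal_ne_top,
      ENNReal.toReal_ofReal (by linarith)]
    exact ENNReal.rpow_lt_top_of_nonneg (by positivity) hfin
  exact (h1.mono_exponent (p := 1) (by rw [ENNReal.one_le_ofReal]; exact hq)).integrable le_rfl

theorem phase_bound (x : ℂ) (ξ : ℂ × ℝ) : ‖cexp (-(I * (ph x ξ : ℂ)))‖ = 1 := by
  have : -(I * (ph x ξ : ℂ)) = ((-(ph x ξ) : ℝ) : ℂ) * I := by push_cast; ring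
  rw [this, Complex.norm_exp_ofReal_mul_I]

theorem integrable_phase (h : IntegrableOn f A) (ξ : ℂ × ℝ) :
    IntegrableOn (fun x => cexp (-(I * (ph x ξ : ℂ))) * f x) A := by
  apply Integrable.bdd_mul (c := 1) h
  · apply Continuous.aestronglyMeasurable
    unfold ph
    fun_prop
  · exact Filter.Eventually.of_forall fun x => (phase_bound x ξ).le

theorem add4 (q : ℝ) (hq : 0 ≤ q) (a b c d : ℂ) : ‖a + b + c + d‖ₑ ^ q ≤
    4 ^ q * (‖a‖ₑ ^ q + ‖b‖ₑ ^ q + ‖c‖ₑ ^ q + ‖d‖ₑ ^ q) := by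
  set m := max (max ‖a‖ₑ ‖b‖ₑ) (max ‖c‖ₑ ‖d‖ₑ) with hm
  have h1 : ‖a + b + c + d‖ₑ ≤ 4 * m := by
    have ha : ‖a‖ₑ ≤ m := (le_max_left _ _).trans (le_max_left _ _)
    have hb : ‖b‖ₑ ≤ m := (le_max_right _ _).trans (le_max_left _ _)
    have hc : ‖c‖ₑ ≤ m := (le_max_left _ _).trans (le_max_right _ _)
    have hd : ‖d‖ₑ ≤ m := (le_max_right _ _).trans (le_max_right _ _)
    calc ‖a + b + c + d‖ₑ ≤ ‖a‖ₑ + ‖b‖ₑ + ‖c‖ₑ + ‖d‖ₑ := by
          refine (enorm_add_le _ _).trans ?_
          gcongr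
          refine (enorm_add_le _ _).trans ?_
          gcongr
          exact enorm_add_le _ _
      _ ≤ m + m + m + m := by gcongr
      _ = 4 * m := by ring
  calc ‖a + b + c + d‖ₑ ^ q ≤ (4 * m) ^ q := ENNReal.rpow_le_rpow h1 hq
    _ = 4 ^ q * m ^ q := ENNReal.mul_rpow_of_nonneg _ _ hq
    _ ≤ _ := by
        gcongr
        rw [hm]
        rcases max_choice (max ‖a‖ₑ ‖b‖ₑ) (max ‖c‖ₑ ‖d‖ₑ) with h | h <;> rw [h]
        · rcases max_choice ‖a‖ₑ ‖b‖ₑ with h | h <;> rw [h]
          · rw [add_assoc, add_assoc]; exact le_self_add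
          · rw [add_assoc, add_assoc, add_left_comm]; exact le_self_add
        · rcases max_choice ‖c‖ₑ ‖d‖ₑ with h | h <;> rw [h]
          · rw [add_assoc (‖a‖ₑ ^ q + ‖b‖ₑ ^ q)]
            exact le_trans le_self_add le_add_self
          · exact le_add_self

/-- the estimate for one convex set -/
theorem est_convex (q s K : ℝ) (hq : 3 < q) (hs : 0 < s) (hs2 : 2 * s < 1)
    (hqs : 4 < q * (1 + 2 * s)) (hK : 0 ≤ K) : ∃ C : ℝ≥0, ∀ U : Set ℂ, Good U →
    ∀ F : ℂ → ℂ, Regular q s K U F → ∫⁻ z in U, ‖F z‖ₑ ^ q ≠ ∞ →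
      en q U F ≤ C * ∫⁻ z in U, ‖F z‖ₑ ^ q := by
  obtain ⟨C, hC⟩ := est_dir q s K hq hs hs2 hqs hK
  have h4 : (4 : ℝ≥0∞) ^ q ≠ ∞ := ENNReal.rpow_ne_top_of_nonneg (by linarith) (by norm_num)
  refine ⟨((4 : ℝ≥0∞) ^ q).toNNReal * (4 * C), ?_⟩
  intro U hU F hF hfin
  classical
  set P : Fin 4 → Set ℂ := ![piece U (1 * I) ![false, false, false],
    piece U (-1 * I) ![true, false, false], piece U (-I * I) ![false, true, true],
    piece U (I * I) ![true, true, true]] with hP
  have h1 : Measurable (U.indicator F) := by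
    rw [← Set.piecewise_eq_indicator]
    exact hF.cont.measurable_piecewise continuousOn_const hU.meas
  have hPU : ∀ k, P k ⊆ U := by
    intro k
    fin_cases k <;> exact piece_sub _
  have hPm : ∀ k, MeasurableSet (P k) := by
    intro k
    fin_cases k
    · exact hU.piece_meas (by simp) _
    · exact hU.piece_meas (by simp) _
    · exact hU.piece_meas (by simp) _
    · exact hU.piece_meas (by simp) _
  have hm : ∀ k, Measurable ((P k).indicator F) := by
    intro k
    have e : (P k).indicator F = (P k).indicator (U.indicator F) := by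
      ext z
      by_cases hz : z ∈ P k
      · rw [indicator_of_mem hz, indicator_of_mem hz, indicator_of_mem (hPU k hz)]
      · rw [indicator_of_notMem hz, indicator_of_notMem hz]
    rw [e]
    exact h1.indicator (hPm k)
  have hE : ∀ k, en q U ((P k).indicator F) ≤ C * ∫⁻ z in U, ‖F z‖ₑ ^ q := by
    intro k
    fin_cases k
    · exact hC U hU F hF hfin _ 1 (by simp)
    · exact hC U hU F hF hfin _ (-1) (by simp)
    · exact hC U hU F hF hfin _ (-I) (by simp)
    · exact hC U hU F hF hfin _ I (by simp)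
  have hint : ∀ k, IntegrableOn ((P k).indicator F) U := by
    intro k
    have h2 : IntegrableOn (U.indicator F) U := by
      apply integrable_of (q := q) (by linarith) hU.sub h1
      rw [setLIntegral_congr_fun hU.meas (g := fun z => ‖F z‖ₑ ^ q)]
      · exact hfin
      · intro z hz
        simp only [indicator_of_mem hz]
    have e : (P k).indicator F = (P k).indicator (U.indicator F) := by
      ext z
      by_cases hz : z ∈ P k
      · rw [indicator_of_mem hz, indicator_of_mem hz, indicator_of_mem (hPU k hz)]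
      · rw [indicator_of_notMem hz, indicator_of_notMem hz]
    rw [e]
    exact h2.indicator (hPm k)
  have hsum : ∀ ξ, ext U F ξ = ext U ((P 0).indicator F) ξ + ext U ((P 1).indicator F) ξ +
      ext U ((P 2).indicator F) ξ + ext U ((P 3).indicator F) ξ := by
    intro ξ
    set G : Fin 4 → ℂ → ℂ := fun k x => cexp (-(I * (ph x ξ : ℂ))) * (P k).indicator F x with hG
    have h3 : ∀ k, Integrable (G k) (volume.restrict U) := fun k => integrable_phase (hint k) ξ
    have h01 : Integrable (fun x => G 0 x + G 1 x) (volume.restrict U) := (h3 0).add (h3 1)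
    have h02 : Integrable (fun x => G 0 x + G 1 x + G 2 x) (volume.restrict U) := h01.add (h3 2)
    have e : ∫ x in U, (G 0 x + G 1 x + G 2 x + G 3 x) =
        (∫ x in U, G 0 x) + (∫ x in U, G 1 x) + (∫ x in U, G 2 x) + ∫ x in U, G 3 x := by
      rw [integral_add h02 (h3 3), integral_add h01 (h3 2), integral_add (h3 0) (h3 1)]
    have e2 : ext U F ξ = ∫ x in U, (G 0 x + G 1 x + G 2 x + G 3 x) := by
      unfold ext
      apply setIntegral_congr_fun hU.meas
      intro x hx
      have := piece_sum (U := U) (F := F) hx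
      simp only [hG]
      rw [← mul_add, ← mul_add, ← mul_add]
      congr 1
      exact this.symm
    rw [e2, e]
    rfl
  calc en q U F ≤ ∫⁻ ξ, 4 ^ q * (‖ext U ((P 0).indicator F) ξ‖ₑ ^ q +
        ‖ext U ((P 1).indicator F) ξ‖ₑ ^ q + ‖ext U ((P 2).indicator F) ξ‖ₑ ^ q +
        ‖ext U ((P 3).indicator F) ξ‖ₑ ^ q) := by
        unfold en
        apply lintegral_mono
        intro ξ
        show ‖ext U F ξ‖ₑ ^ q ≤ _
        rw [hsum]
        exact add4 q (by linarith) _ _ _ _
    _ = 4 ^ q * (en q U ((P 0).indicator F) + en q U ((P 1).indicator F) +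
        en q U ((P 2).indicator F) + en q U ((P 3).indicator F)) := by
        have m := fun k => (ext_meas U (hm k)).enorm.pow_const q
        unfold en
        rw [lintegral_const_mul, lintegral_add_left, lintegral_add_left, lintegral_add_left]
        · exact m 0
        · exact (m 0).add (m 1)
        · exact ((m 0).add (m 1)).add (m 2)
        · exact (((m 0).add (m 1)).add (m 2)).add (m 3)
    _ ≤ 4 ^ q * (C * (∫⁻ z in U, ‖F z‖ₑ ^ q) + C * (∫⁻ z in U, ‖F z‖ₑ ^ q) +
        C * (∫⁻ z in U, ‖F z‖ₑ ^ q) + C * (∫⁻ z in U, ‖F z‖ₑ ^ q)) := by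
        gcongr <;> exact hE _
    _ = _ := by
        rw [ENNReal.coe_mul, ENNReal.coe_mul, ENNReal.coe_toNNReal h4]
        push_cast
        ring

theorem Good.inter (hA : Good A) (hB : Good B) : Good (A ∩ B) :=
  ⟨hA.op.inter hB.op, hA.conv.inter hB.conv, inter_subset_left.trans hA.sub⟩

theorem en_union (hq : 1 ≤ q) (hA : MeasurableSet A) (hB : MeasurableSet B)
    (hA2 : A ⊆ closedBall 0 (1 / 2)) (hB2 : B ⊆ closedBall 0 (1 / 2)) (hf : Measurable f)
    (hfin : ∫⁻ z in A ∪ B, ‖f z‖ₑ ^ q ≠ ∞) :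
    en q (A ∪ B) f ≤ 4 ^ q * (en q A f + en q B f + en q (A ∩ B) f) := by
  have hi : IntegrableOn f (A ∪ B) := integrable_of hq (union_subset hA2 hB2) hf hfin
  have hiA : IntegrableOn f A := hi.mono_set subset_union_left
  have hiB : IntegrableOn f B := hi.mono_set subset_union_right
  have hsum : ∀ ξ, ext (A ∪ B) f ξ = ext A f ξ + ext B f ξ + -ext (A ∩ B) f ξ + 0 := by
    intro ξ
    unfold ext
    have h1 := integrable_phase hiA ξ
    have h2 := integrable_phase hiB ξ
    have h3 : IntegrableOn (fun x => cexp (-(I * (ph x ξ : ℂ))) * f x) (A ∩ B) :=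
      h1.mono_set inter_subset_left
    have e1 : ∫ x in A ∪ B, cexp (-(I * (ph x ξ : ℂ))) * f x =
        (∫ x in A, cexp (-(I * (ph x ξ : ℂ))) * f x) +
        ∫ x in B \ A, cexp (-(I * (ph x ξ : ℂ))) * f x := by
      rw [← Set.union_sdiff_self, setIntegral_union disjoint_sdiff_right (hB.diff hA) h1
        (h2.mono_set sdiff_subset)]
    have e2 : ∫ x in B, cexp (-(I * (ph x ξ : ℂ))) * f x =
        (∫ x in A ∩ B, cexp (-(I * (ph x ξ : ℂ))) * f x) +
        ∫ x in B \ A, cexp (-(I * (ph x ξ : ℂ))) * f x := by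
      rw [inter_comm, ← setIntegral_union _ (hB.diff hA) (h2.mono_set inter_subset_left)
        (h2.mono_set sdiff_subset), inter_union_sdiff]
      exact disjoint_sdiff_inter.symm
    rw [e1, e2]
    ring
  calc en q (A ∪ B) f ≤ ∫⁻ ξ, 4 ^ q * (‖ext A f ξ‖ₑ ^ q + ‖ext B f ξ‖ₑ ^ q +
        ‖ext (A ∩ B) f ξ‖ₑ ^ q) := by
        unfold en
        apply lintegral_mono
        intro ξ
        show ‖ext (A ∪ B) f ξ‖ₑ ^ q ≤ _
        rw [hsum]
        refine (add4 q (by linarith) _ _ _ _).trans ?_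
        rw [enorm_neg, enorm_zero, ENNReal.zero_rpow_of_pos (by linarith), add_zero]
    _ = _ := by
        have m := fun A => (ext_meas A hf).enorm.pow_const q
        unfold en
        rw [lintegral_const_mul, lintegral_add_left, lintegral_add_left]
        · exact m A
        · exact (m A).add (m B)
        · exact ((m A).add (m B)).add (m _)

/-- the estimate for a union of `N` convex sets -/
theorem est_union (q s K : ℝ) (hq : 3 < q) (hs : 0 < s) (hs2 : 2 * s < 1)
    (hqs : 4 < q * (1 + 2 * s)) (hK : 0 ≤ K) (N : ℕ) : ∃ C : ℝ≥0, ∀ V : Fin N → Set ℂ,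
    (∀ i, Good (V i)) → ∀ F : ℂ → ℂ, Regular q s K (⋃ i, V i) F →
      ∫⁻ z in ⋃ i, V i, ‖F z‖ₑ ^ q ≠ ∞ →
      en q (⋃ i, V i) F ≤ C * ∫⁻ z in ⋃ i, V i, ‖F z‖ₑ ^ q := by
  classical
  obtain ⟨C, hC⟩ := est_convex q s K hq hs hs2 hqs hK
  have h4 : (4 : ℝ≥0∞) ^ q ≠ ∞ := ENNReal.rpow_ne_top_of_nonneg (by linarith) (by norm_num)
  induction N with
  | zero =>
    refine ⟨0, ?_⟩
    intro V _ F _ _
    have e : (⋃ i, V i) = ∅ := by simp
    rw [e]
    unfold en ext
    simp only [setIntegral_empty, enorm_zero]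
    rw [ENNReal.zero_rpow_of_pos (by linarith)]
    simp
  | succ N ih =>
    obtain ⟨C', hC'⟩ := ih
    refine ⟨((4 : ℝ≥0∞) ^ q).toNNReal * (C' + C + C'), ?_⟩
    intro V hV F hF hfin
    set A := ⋃ i : Fin N, V i.castSucc with hA
    set B := V (Fin.last N) with hB
    have hUn : (⋃ i, V i) = A ∪ B := by
      ext z
      simp only [mem_iUnion, hA, hB, mem_union]
      constructor
      · rintro ⟨i, hi⟩
        rcases Fin.eq_castSucc_or_eq_last i with ⟨j, rfl⟩ | rfl
        · exact Or.inl ⟨j, hi⟩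
        · exact Or.inr hi
      · rintro (⟨j, hj⟩ | h)
        · exact ⟨_, hj⟩
        · exact ⟨_, h⟩
    have hIn : A ∩ B = ⋃ i : Fin N, (V i.castSucc ∩ B) := by
      rw [hA, iUnion_inter]
    rw [hUn] at hF hfin ⊢
    have hAo : IsOpen A := isOpen_iUnion fun i => (hV _).op
    have hBo : IsOpen B := (hV _).op
    have hA2 : A ⊆ closedBall 0 (1 / 2) := iUnion_subset fun i => (hV _).sub
    have hB2 : B ⊆ closedBall 0 (1 / 2) := (hV _).sub
    have hI : ∀ S : Set ℂ, S ⊆ A ∪ B →
        ∫⁻ z in S, ‖F z‖ₑ ^ q ≤ ∫⁻ z in A ∪ B, ‖F z‖ₑ ^ q := fun S hS =>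
      lintegral_mono_set hS
    have hf : ∀ S : Set ℂ, S ⊆ A ∪ B → ∫⁻ z in S, ‖F z‖ₑ ^ q ≠ ∞ := fun S hS =>
      ne_top_of_le_ne_top hfin (hI S hS)
    -- a measurable version
    set G := (A ∪ B).indicator F with hG
    have hGm : Measurable G := by
      rw [hG, ← Set.piecewise_eq_indicator]
      exact hF.cont.measurable_piecewise continuousOn_const (hAo.union hBo).measurableSet
    have hGe : ∀ S : Set ℂ, MeasurableSet S → S ⊆ A ∪ B → en q S G = en q S F := fun S hS hS2 =>
      en_congr hS (fun x hx => indicator_of_mem (hS2 hx) F) q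
    have hGi : ∫⁻ z in A ∪ B, ‖G z‖ₑ ^ q ≠ ∞ := by
      rw [setLIntegral_congr_fun (hAo.union hBo).measurableSet (g := fun z => ‖F z‖ₑ ^ q)]
      · exact hfin
      · intro z hz
        simp only [hG, indicator_of_mem hz]
    have h1 : en q A F ≤ C' * ∫⁻ z in A, ‖F z‖ₑ ^ q :=
      hC' _ (fun i => hV _) F (hF.mono subset_union_left) (hf _ subset_union_left)
    have h2 : en q B F ≤ C * ∫⁻ z in B, ‖F z‖ₑ ^ q :=
      hC _ (hV _) F (hF.mono subset_union_right) (hf _ subset_union_right)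
    have h3 : en q (A ∩ B) F ≤ C' * ∫⁻ z in A ∩ B, ‖F z‖ₑ ^ q := by
      have hs3 : A ∩ B ⊆ A ∪ B := inter_subset_left.trans subset_union_left
      have h5 := hF.mono hs3
      have h6 := hf _ hs3
      rw [hIn] at h5 h6 ⊢
      exact hC' _ (fun i => (hV _).inter (hV _)) F h5 h6
    have h7 := en_union (by linarith) hAo.measurableSet hBo.measurableSet hA2 hB2 hGm hGi
    rw [hGe _ (hAo.union hBo).measurableSet le_rfl, hGe _ hAo.measurableSet subset_union_left,
      hGe _ hBo.measurableSet subset_union_right,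
      hGe _ (hAo.inter hBo).measurableSet (inter_subset_left.trans subset_union_left)] at h7
    refine h7.trans ?_
    have i1 := hI A subset_union_left
    have i2 := hI B subset_union_right
    have i3 := hI (A ∩ B) (inter_subset_left.trans subset_union_left)
    calc 4 ^ q * (en q A F + en q B F + en q (A ∩ B) F)
        ≤ 4 ^ q * (C' * (∫⁻ z in A ∪ B, ‖F z‖ₑ ^ q) + C * (∫⁻ z in A ∪ B, ‖F z‖ₑ ^ q) +
          C' * (∫⁻ z in A ∪ B, ‖F z‖ₑ ^ q)) := by
          gcongr
          · exact h1.trans (mul_le_mul_right i1 _)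
          · exact h2.trans (mul_le_mul_right i2 _)
          · exact h3.trans (mul_le_mul_right i3 _)
      _ = _ := by
          rw [ENNReal.coe_mul, ENNReal.coe_add, ENNReal.coe_add, ENNReal.coe_toNNReal h4]
          ring

end Pool.Agent.H26.HD
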