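import Pool.Agent.H26.HD.Poly
import Pool.Agent.H26.HD.Asm
set_option autoImplicit false

/-!
# The estimate for polynomials on combs is the full estimate
-/

namespace Pool.Agent.H26.HD

open MeasureTheory Set Metric Complex Filter Topology
open scoped ENNReal NNReal

theorem norm_ph (x : ℂ) (ξ : ℂ × ℝ) : ‖cexp (-(I * (ph x ξ : ℂ)))‖ = 1 := by
  have : -(I * (ph x ξ : ℂ)) = ((-(ph x ξ) : ℝ) : ℂ) * I := by push_cast; ring
  rw [this, Complex.norm_exp_ofReal_mul_I]

theorem ph_cont (ξ : ℂ × ℝ) : Continuous (fun x : ℂ => cexp (-(I * (ph x ξ : ℂ)))) := by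
  unfold ph
  fun_prop

theorem ext_cont {f : ℂ → ℂ} {U : Set ℂ} (hf : Integrable f (volume.restrict U)) :
    Continuous (ext U f) := by
  unfold ext
  apply continuous_of_dominated (bound := fun x => ‖f x‖)
  · intro ξ
    exact (ph_cont ξ).aestronglyMeasurable.mul hf.1
  · intro ξ
    apply Eventually.of_forall
    intro x
    rw [norm_mul, norm_ph, one_mul]
  · exact hf.norm
  · apply Eventually.of_forall
    intro x
    unfold ph
    fun_prop

theorem ext_tendsto {q : ℝ≥0∞} (hq1 : 1 ≤ q) {F : ℕ → ℂ → ℂ} {f : ℂ → ℂ}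
    (hF : ∀ n, MemLp (F n) q mB) (hf : MemLp f q mB)
    (h : Tendsto (fun n => eLpNorm (F n - f) q mB) atTop (𝓝 0)) (ξ : ℂ × ℝ) :
    Tendsto (fun n => ext (ball 0 (1 / 2)) (F n) ξ) atTop (𝓝 (ext (ball 0 (1 / 2)) f ξ)) := by
  unfold ext
  have i1 : ∀ g : ℂ → ℂ, MemLp g q mB →
      Integrable (fun x => cexp (-(I * (ph x ξ : ℂ))) * g x) mB := by
    intro g hg
    have := hg.integrable hq1
    apply this.norm.mono' ((ph_cont ξ).aestronglyMeasurable.mul hg.1)
    apply Eventually.of_forall
    intro x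
    rw [Pi.mul_apply, norm_mul, norm_ph, one_mul]
  apply tendsto_integral_of_L1' _ (i1 f hf).1 (Eventually.of_forall fun n => i1 _ (hF n))
  refine tendsto_of_tendsto_of_tendsto_of_le_of_le tendsto_const_nhds h (fun _ => bot_le) ?_
  intro n
  calc eLpNorm ((fun x => cexp (-(I * (ph x ξ : ℂ))) * F n x) -
          fun x => cexp (-(I * (ph x ξ : ℂ))) * f x) 1 mB = eLpNorm (F n - f) 1 mB := by
        apply eLpNorm_congr_norm_ae
        apply Eventually.of_forall
        intro x
        simp only [Pi.sub_apply]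
        rw [← mul_sub, norm_mul, norm_ph, one_mul]
    _ ≤ eLpNorm (F n - f) q mB * mB univ ^ (1 / (1 : ℝ≥0∞).toReal - 1 / q.toReal) :=
        eLpNorm_le_eLpNorm_mul_rpow_measure_univ hq1 ((hF n).1.sub hf.1)
    _ ≤ eLpNorm (F n - f) q mB * 1 := by
        gcongr
        apply ENNReal.rpow_le_one mB_le
        rw [ENNReal.toReal_one]
        by_cases hq : q = ∞
        · simp [hq]
        · have : 1 ≤ q.toReal := by
            rw [← ENNReal.toReal_one]
            exact ENNReal.toReal_mono hq hq1
          have : 1 / q.toReal ≤ 1 := by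
            rw [div_le_one (by linarith)]
            exact this
          linarith
    _ = _ := mul_one _

theorem ext_ind {U : Set ℂ} (hU : MeasurableSet U) (hUB : U ⊆ ball 0 (1 / 2)) (f : ℂ → ℂ) :
    ext U f = ext (ball 0 (1 / 2)) (U.indicator f) := by
  funext ξ
  unfold ext
  have : (fun x => cexp (-(I * (ph x ξ : ℂ))) * U.indicator f x) =
      U.indicator (fun x => cexp (-(I * (ph x ξ : ℂ))) * f x) := by
    funext x
    by_cases hx : x ∈ U
    · rw [indicator_of_mem hx, indicator_of_mem hx]
    · rw [indicator_of_notMem hx, indicator_of_notMem hx, mul_zero]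
  rw [this, setIntegral_indicator hU, inter_eq_self_of_subset_right hUB]

theorem norm_ind {U : Set ℂ} (hU : MeasurableSet U) (hUB : U ⊆ ball 0 (1 / 2)) (f : ℂ → ℂ)
    (q : ℝ≥0∞) : eLpNorm (U.indicator f) q mB = eLpNorm f q (volume.restrict U) := by
  unfold mB
  rw [eLpNorm_indicator_eq_eLpNorm_restrict hU, Measure.restrict_restrict hU,
    inter_eq_self_of_subset_left hUB]

theorem poly_memLp {U : Set ℂ} (hU : MeasurableSet U) (p : Polynomial ℂ)
    (q : ℝ≥0∞) : MemLp (U.indicator (fun z => p.eval z)) q mB := by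
  apply MemLp.indicator hU
  obtain ⟨C, hC⟩ := (isCompact_closedBall (0 : ℂ) (1 / 2)).exists_bound_of_continuousOn
    (f := fun z : ℂ => p.eval z) (by fun_prop)
  apply MemLp.of_bound (C := C)
  · exact (by fun_prop : Continuous (fun z : ℂ => p.eval z)).aestronglyMeasurable
  · unfold mB
    rw [ae_restrict_iff' measurableSet_ball]
    exact Eventually.of_forall fun z hz => hC z (ball_subset_closedBall hz)

/-- For polynomial densities on comb domains the extension estimate is equivalent to the
extension estimate for all densities in `L^q` of the disc. -/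
theorem comb_iff {q : ℝ≥0∞} (hq1 : 1 ≤ q) (hq : q ≠ ∞) :
    (∃ C : ℝ≥0, ∀ f : ℂ → ℂ, MemLp f q (volume.restrict (ball 0 (1 / 2))) →
      eLpNorm (ext (ball 0 (1 / 2)) f) q volume ≤
        C * eLpNorm f q (volume.restrict (ball 0 (1 / 2)))) ↔
    (∃ C : ℝ≥0, ∀ U : Set ℂ, Comb U → ∀ p : Polynomial ℂ,
      eLpNorm (ext U (fun z => p.eval z)) q volume ≤
        C * eLpNorm (fun z => p.eval z) q (volume.restrict U)) := by
  constructor
  · rintro ⟨C, hC⟩
    refine ⟨C, fun U hU p => ?_⟩
    rw [ext_ind hU.op.measurableSet hU.sub, ← norm_ind hU.op.measurableSet hU.sub]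
    exact hC _ (poly_memLp hU.op.measurableSet p q)
  · rintro ⟨C, hC⟩
    refine ⟨C, fun f hf => ?_⟩
    have hf : MemLp f q mB := hf
    have h1 : ∀ n : ℕ, ∃ U, Comb U ∧ ∃ p : Polynomial ℂ,
        eLpNorm (U.indicator (fun z => p.eval z) - f) q mB ≤
          ENNReal.ofReal (1 / ((n : ℝ) + 1)) :=
      fun n => dens hq1 hq hf (by positivity)
    choose U hU p hp using h1
    set F : ℕ → ℂ → ℂ := fun n => (U n).indicator (fun z => (p n).eval z) with hFdef
    have hF : ∀ n, MemLp (F n) q mB := fun n => poly_memLp (hU n).op.measurableSet (p n) q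
    have h0 : Tendsto (fun n : ℕ => ENNReal.ofReal (1 / ((n : ℝ) + 1))) atTop (𝓝 0) := by
      have := ENNReal.tendsto_ofReal (tendsto_one_div_add_atTop_nhds_zero_nat (𝕜 := ℝ))
      simpa using this
    have hlim : Tendsto (fun n => eLpNorm (F n - f) q mB) atTop (𝓝 0) :=
      tendsto_of_tendsto_of_tendsto_of_le_of_le tendsto_const_nhds h0 (fun _ => bot_le) hp
    have h2 : eLpNorm (ext (ball 0 (1 / 2)) f) q volume ≤
        atTop.liminf fun n => eLpNorm (ext (ball 0 (1 / 2)) (F n)) q volume := by
      apply Lp.eLpNorm_lim_le_liminf_eLpNorm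
      · intro n
        exact (ext_cont ((hF n).integrable hq1)).aestronglyMeasurable
      · exact Eventually.of_forall fun ξ => ext_tendsto hq1 hF hf hlim ξ
    have h3 : ∀ n, eLpNorm (ext (ball 0 (1 / 2)) (F n)) q volume ≤
        C * (eLpNorm f q mB + ENNReal.ofReal (1 / ((n : ℝ) + 1))) := by
      intro n
      have := hC (U n) (hU n) (p n)
      rw [ext_ind (hU n).op.measurableSet (hU n).sub,
        ← norm_ind (hU n).op.measurableSet (hU n).sub] at this
      refine this.trans ?_
      gcongr
      calc eLpNorm (F n) q mB = eLpNorm (f + (F n - f)) q mB := by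
            congr 1
            funext x
            simp
        _ ≤ eLpNorm f q mB + eLpNorm (F n - f) q mB := eLpNorm_add_le hf.1 ((hF n).1.sub hf.1) hq1
        _ ≤ _ := by
            gcongr
            exact hp n
    have h4 : Tendsto (fun n : ℕ => C * (eLpNorm f q mB + ENNReal.ofReal (1 / ((n : ℝ) + 1))))
        atTop (𝓝 (C * (eLpNorm f q mB + 0))) := by
      apply ENNReal.Tendsto.const_mul _ (Or.inr ENNReal.coe_ne_top)
      exact tendsto_const_nhds.add h0
    calc eLpNorm (ext (ball 0 (1 / 2)) f) q volume ≤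
          atTop.liminf fun n => eLpNorm (ext (ball 0 (1 / 2)) (F n)) q volume := h2
      _ ≤ atTop.liminf fun n : ℕ =>
          C * (eLpNorm f q mB + ENNReal.ofReal (1 / ((n : ℝ) + 1))) :=
          liminf_le_liminf (Eventually.of_forall h3)
      _ = C * (eLpNorm f q mB + 0) := h4.liminf_eq
      _ = _ := by rw [add_zero]; rfl

end Pool.Agent.H26.HD
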