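import Pool.Agent.H26.HD.Maj
import Pool.Graph.R_pool_sql_team_seeded_ab47071d.Results.MP_5ab805_an.DirectionalRegularity
set_option autoImplicit false

/-!
# The estimate for one piece
-/

namespace Pool.Agent.H26.HD

open MeasureTheory Set Metric Complex
open scoped ENNReal NNReal

/-- the mean of `|f|^q` over the ball, to the power `1/q` -/
noncomputable def mean (q : ℝ) (f : ℂ → ℂ) (x : ℂ) (ρ : ℝ) : ℝ≥0∞ :=
  ((ENNReal.ofReal (ρ ^ 2))⁻¹ * ∫⁻ z in ball x ρ, ‖f z‖ₑ ^ q) ^ (1 / q)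

/-- the functions on `U` which are regular at the scale of the distance to the complement of `U` -/
structure Regular (q s K : ℝ) (U : Set ℂ) (f : ℂ → ℂ) : Prop where
  cont : ContinuousOn f U
  size : ∀ (x : ℂ) (ρ : ℝ), 0 < ρ → ball x ρ ⊆ U → ‖f x‖ₑ ≤ ENNReal.ofReal K * mean q f x ρ
  hold : ∀ (x y : ℂ) (ρ : ℝ), 0 < ρ → ball x ρ ⊆ U → ‖y - x‖ ≤ ρ / 2 →
    ‖f y - f x‖ₑ ≤ ENNReal.ofReal (K * (‖y - x‖ / ρ) ^ s) * mean q f x ρ

variable {q s K : ℝ} {U : Set ℂ} {F : ℂ → ℂ}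

theorem Regular.mono {V : Set ℂ} (h : Regular q s K U F) (hV : V ⊆ U) : Regular q s K V F :=
  ⟨h.cont.mono hV, fun x ρ hρ hb => h.size x ρ hρ (hb.trans hV),
    fun x y ρ hρ hb => h.hold x y ρ hρ (hb.trans hV)⟩

theorem Good.mean_le (hU : Good U) (hq : 1 ≤ q) {b : Fin 3 → Bool} {n : ℕ} {x : ℂ}
    (hx : x ∈ piece U I b) (hn : x ∈ layer U n) :
    mean q F x ((1 / 2 : ℝ) ^ (n + 3)) ≤ 64 * mass U q F n x.re ^ (1 / q) := by
  have h1 := hU.ball_le_mass (F := F) (q := q) hx hn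
  have h2 : (ENNReal.ofReal (((1 / 2 : ℝ) ^ (n + 3)) ^ 2))⁻¹ = 64 * 4 ^ n := by
    rw [← ENNReal.ofReal_inv_of_pos (by positivity)]
    have : ((((1 : ℝ) / 2) ^ (n + 3)) ^ 2)⁻¹ = 64 * 4 ^ n := by
      rw [← pow_mul, ← inv_pow, mul_comm, pow_mul, pow_add]
      norm_num
      ring
    rw [this, ENNReal.ofReal_mul (by norm_num), ENNReal.ofReal_pow (by norm_num)]
    norm_num
  unfold mean
  rw [h2, mul_assoc]
  calc (64 * (4 ^ n * ∫⁻ z in ball x ((1 / 2 : ℝ) ^ (n + 3)), ‖F z‖ₑ ^ q)) ^ (1 / q)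
      ≤ (64 * mass U q F n x.re) ^ (1 / q) := by
        apply ENNReal.rpow_le_rpow _ (by positivity)
        exact mul_le_mul_right h1 _
    _ = 64 ^ (1 / q) * mass U q F n x.re ^ (1 / q) :=
        ENNReal.mul_rpow_of_nonneg _ _ (by positivity)
    _ ≤ 64 * mass U q F n x.re ^ (1 / q) := by
        gcongr
        calc (64 : ℝ≥0∞) ^ (1 / q) ≤ 64 ^ (1 : ℝ) := by
              apply ENNReal.rpow_le_rpow_of_exponent_le (by norm_num)
              rw [div_le_one (by linarith)]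
              exact hq
          _ = 64 := ENNReal.rpow_one _

theorem mass_ne_top (hfin : ∫⁻ z in U, ‖F z‖ₑ ^ q ≠ ∞) (n : ℕ) (x1 : ℝ) :
    mass U q F n x1 ≠ ∞ :=
  ne_top_of_le_ne_top (ENNReal.mul_ne_top (by simp) hfin) (mass_le n x1)

/-- the constant of the majorant -/
noncomputable def cst (K : ℝ) : ℝ≥0∞ := ENNReal.ofReal K * 64

theorem cst_ne_top (K : ℝ) : cst K ≠ ∞ := ENNReal.mul_ne_top ENNReal.ofReal_ne_top (by norm_num)

theorem mE_ne_top (hq : 1 ≤ q) (hfin : ∫⁻ z in U, ‖F z‖ₑ ^ q ≠ ∞) (n : ℕ) (x1 : ℝ) :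
    mE U q F (cst K) n x1 ≠ ∞ := by
  unfold mE
  apply ENNReal.mul_ne_top (cst_ne_top K)
  exact ENNReal.rpow_ne_top_of_nonneg (by positivity) (mass_ne_top hfin n x1)

theorem size_piece (hU : Good U) (hq : 1 ≤ q) (hF : Regular q s K U F)
    (hfin : ∫⁻ z in U, ‖F z‖ₑ ^ q ≠ ∞) {b : Fin 3 → Bool} {n : ℕ} {x : ℂ}
    (hx : x ∈ piece U I b) (hn : x ∈ layer U n) :
    ‖F x‖ ≤ (mE U q F (cst K) n x.re).toReal := by
  have hb : ball x ((1 / 2 : ℝ) ^ (n + 3)) ⊆ U :=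
    (hU.ball_shell hx hn).1.trans fun z hz => hz.1
  have h1 := hF.size x _ (by positivity) hb
  have h2 := hU.mean_le (F := F) hq hx hn
  have h3 : ‖F x‖ₑ ≤ mE U q F (cst K) n x.re := by
    refine h1.trans ?_
    unfold mE cst
    rw [mul_assoc]
    exact mul_le_mul_right h2 _
  rw [← toReal_enorm]
  exact ENNReal.toReal_mono (mE_ne_top hq hfin n x.re) h3

theorem hold_piece (hU : Good U) (hq : 1 ≤ q) (hK : 0 ≤ K) (hs : 0 ≤ s) (hs1 : s ≤ 1)
    (hF : Regular q s K U F)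
    (hfin : ∫⁻ z in U, ‖F z‖ₑ ^ q ≠ ∞) {b : Fin 3 → Bool} {n : ℕ} {x z : ℂ}
    (hx : x ∈ piece U I b) (hn : x ∈ layer U n) (hz : z ∈ piece U I b) (hnz : z ∈ layer U n)
    (hre : z.re = x.re) :
    ‖F z - F x‖ ≤ 32 * (mE U q F (cst K) n x.re).toReal * (2 ^ n * ‖z - x‖) ^ s := by
  set ρ : ℝ := (1 / 2 : ℝ) ^ (n + 3) with hρ
  have hρ0 : 0 < ρ := by positivity
  have e : ρ⁻¹ = 8 * 2 ^ n := by
    rw [hρ, ← inv_pow, pow_add]; norm_num; ring
  have hm0 : 0 ≤ (mE U q F (cst K) n x.re).toReal := ENNReal.toReal_nonneg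
  rcases le_or_gt ‖z - x‖ (ρ / 2) with h | h
  · have hb : ball x ρ ⊆ U := (hU.ball_shell hx hn).1.trans fun z hz => hz.1
    have h1 := hF.hold x z ρ hρ0 hb h
    have h2 := hU.mean_le (F := F) hq hx hn
    have h3 : ‖F z - F x‖ₑ ≤ ENNReal.ofReal ((‖z - x‖ / ρ) ^ s) * mE U q F (cst K) n x.re := by
      refine h1.trans ?_
      unfold mE cst
      rw [ENNReal.ofReal_mul hK]
      calc _ ≤ ENNReal.ofReal K * ENNReal.ofReal ((‖z - x‖ / ρ) ^ s) *
            (64 * mass U q F n x.re ^ (1 / q)) := mul_le_mul_right h2 _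
        _ = _ := by ring
    have h4 : ‖F z - F x‖ ≤ (‖z - x‖ / ρ) ^ s * (mE U q F (cst K) n x.re).toReal := by
      rw [← toReal_enorm]
      refine (ENNReal.toReal_mono (ENNReal.mul_ne_top ENNReal.ofReal_ne_top
        (mE_ne_top hq hfin n x.re)) h3).trans ?_
      rw [ENNReal.toReal_mul, ENNReal.toReal_ofReal (by positivity)]
    have h5 : (‖z - x‖ / ρ) ^ s ≤ 8 * (2 ^ n * ‖z - x‖) ^ s := by
      have e1 : ‖z - x‖ / ρ = 8 * (2 ^ n * ‖z - x‖) := by
        rw [div_eq_mul_inv, e]; ring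
      rw [e1, Real.mul_rpow (by norm_num) (by positivity)]
      gcongr
      calc (8 : ℝ) ^ s ≤ 8 ^ (1 : ℝ) := Real.rpow_le_rpow_of_exponent_le (by norm_num) hs1
        _ = 8 := Real.rpow_one _
    have h6 : 0 ≤ (2 ^ n * ‖z - x‖) ^ s := by positivity
    calc ‖F z - F x‖ ≤ (‖z - x‖ / ρ) ^ s * (mE U q F (cst K) n x.re).toReal := h4
      _ ≤ (8 * (2 ^ n * ‖z - x‖) ^ s) * (mE U q F (cst K) n x.re).toReal := by gcongr
      _ ≤ 32 * (mE U q F (cst K) n x.re).toReal * (2 ^ n * ‖z - x‖) ^ s := by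
          have := mul_nonneg hm0 h6
          nlinarith
  · have h1 := size_piece hU hq hF hfin hx hn
    have h2 := size_piece hU hq hF hfin hz hnz
    rw [hre] at h2
    have h3 : 1 ≤ 16 * (2 ^ n * ‖z - x‖) := by
      have : 8 * 2 ^ n * (ρ / 2) = 1 / 2 := by
        rw [← e]
        field_simp
      have h4 : 8 * 2 ^ n * (ρ / 2) < 8 * 2 ^ n * ‖z - x‖ := by gcongr
      nlinarith
    have h5 : 1 ≤ 16 * (2 ^ n * ‖z - x‖) ^ s := by
      calc (1 : ℝ) = 1 ^ s := (Real.one_rpow s).symm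
        _ ≤ (16 * (2 ^ n * ‖z - x‖)) ^ s := Real.rpow_le_rpow (by norm_num) h3 hs
        _ = 16 ^ s * (2 ^ n * ‖z - x‖) ^ s := Real.mul_rpow (by norm_num) (by positivity)
        _ ≤ 16 * (2 ^ n * ‖z - x‖) ^ s := by
            gcongr
            calc (16 : ℝ) ^ s ≤ 16 ^ (1 : ℝ) :=
                  Real.rpow_le_rpow_of_exponent_le (by norm_num) hs1
              _ = 16 := Real.rpow_one _
    calc ‖F z - F x‖ ≤ ‖F z‖ + ‖F x‖ := norm_sub_le _ _
      _ ≤ 2 * (mE U q F (cst K) n x.re).toReal * 1 := by linarith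
      _ ≤ 2 * (mE U q F (cst K) n x.re).toReal * (16 * (2 ^ n * ‖z - x‖) ^ s) := by gcongr
      _ = _ := by ring

theorem line_data (hU : Good U) (hq : 1 ≤ q) (hK : 0 ≤ K) (hs : 0 ≤ s) (hs1 : s ≤ 1)
    (hF : Regular q s K U F) (hfin : ∫⁻ z in U, ‖F z‖ₑ ^ q ≠ ∞) (b : Fin 3 → Bool) (x1 : ℝ) :
    LineData 1 32 s (fun y : ℝ => (piece U I b).indicator F (x1 + y * I))
      (fun y : ℝ => MM U q F (cst K) (x1, y))
      (fun n _ => sec (piece U I b ∩ layer U n) x1) (fun n => sec (layer U n) x1)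
      (fun n => (mE U q F (cst K) n x1).toReal) := by
  have hre : ∀ y : ℝ, ((x1 : ℂ) + y * I).re = x1 := fun y => by simp
  refine ⟨?_, ?_, ?_, ?_, ?_, ?_, ?_, ?_, ?_, ?_⟩
  · intro n k hnk
    simp only [Function.onFun]
    rw [Set.disjoint_left]
    intro y hy hy2
    exact (Set.disjoint_left.1 (layer_disj hnk)) hy hy2
  · intro n _
    exact sec_mono inter_subset_right x1
  · intro n _
    exact (hU.piece_ord (by simp) b x1).inter (hU.layer_ord n x1)
  · intro n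
    exact sec_meas (hU.layer_meas n) x1
  · intro n
    exact vol_le_of_dist _ _ fun u hu v hv _ => hU.layer_diam n x1 hu hv
  · intro n k hnk h0
    apply hU.layer_vol_ge hnk
    by_contra hc
    rw [Set.not_nonempty_iff_eq_empty] at hc
    rw [hc] at h0
    simp at h0
  · intro y hy
    apply indicator_of_notMem
    intro hc
    obtain ⟨n, hn⟩ := hU.layer_cover hc.1
    exact hy n 0 ⟨hc, hn⟩
  · rintro n _ y ⟨hy1, hy2⟩
    rw [indicator_of_mem hy1]
    have := size_piece hU hq hF hfin hy1 hy2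
    rwa [hre] at this
  · rintro n _ _ y ⟨hy1, hy2⟩ z ⟨hz1, hz2⟩
    rw [indicator_of_mem hy1, indicator_of_mem hz1]
    have := hold_piece hU hq hK hs hs1 hF hfin hy1 hy2 hz1 hz2 (by rw [hre, hre])
    have e : ‖((x1 : ℂ) + z * I) - (x1 + y * I)‖ = |z - y| := by
      have : ((x1 : ℂ) + z * I) - (x1 + y * I) = ((z - y : ℝ) : ℂ) * I := by push_cast; ring
      rw [this, norm_mul, Complex.norm_I, mul_one, Complex.norm_real, Real.norm_eq_abs]
    rwa [hre, e] at this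
  · intro n y hy
    exact MM_layer n hy

theorem est_piece (q s K : ℝ) (hq : 3 < q) (hs : 0 < s) (hs2 : 2 * s < 1)
    (hqs : 4 < q * (1 + 2 * s)) (hK : 0 ≤ K) : ∃ C : ℝ≥0, ∀ U : Set ℂ, Good U →
    ∀ F : ℂ → ℂ, Regular q s K U F → ∫⁻ z in U, ‖F z‖ₑ ^ q ≠ ∞ → ∀ b : Fin 3 → Bool,
    ∫⁻ ξ : (ℝ × ℝ) × ℝ, ‖Results.MP_5ab805_an.DirectionalRegularity.ext
      {p : ℝ × ℝ | (p.1 : ℂ) + p.2 * I ∈ U}
      (fun p : ℝ × ℝ => (piece U I b).indicator F (p.1 + p.2 * I)) ξ‖ₑ ^ q ≤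
      C * ∫⁻ z in U, ‖F z‖ₑ ^ q := by
  set κ : ℝ≥0∞ := ENNReal.ofReal (32 ^ 2 + 8 * (1 : ℕ)) * sumConst (1 - 2 * s) with hκ
  have hκt : κ ≠ ∞ := ENNReal.mul_ne_top ENNReal.ofReal_ne_top (sumConst_ne_top (by linarith))
  obtain ⟨C, hC⟩ := Results.MP_5ab805_an.DirectionalRegularity.result q s hq hs (by linarith) hqs
    κ.toNNReal
  have hcc : 5 * cst K ^ q ≠ ∞ := by
    apply ENNReal.mul_ne_top (by norm_num)
    exact ENNReal.rpow_ne_top_of_nonneg (by linarith) (cst_ne_top K)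
  refine ⟨C * (5 * cst K ^ q).toNNReal, ?_⟩
  intro U hU F hF hfin b
  have hFm : Measurable ((piece U I b).indicator F) := by
    classical
    have h1 : Measurable (U.indicator F) := by
      rw [← Set.piecewise_eq_indicator]
      exact hF.cont.measurable_piecewise continuousOn_const hU.meas
    have e : (piece U I b).indicator F = (piece U I b).indicator (U.indicator F) := by
      ext z
      by_cases hz : z ∈ piece U I b
      · rw [indicator_of_mem hz, indicator_of_mem hz, indicator_of_mem hz.1]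
      · rw [indicator_of_notMem hz, indicator_of_notMem hz]
    rw [e]
    exact h1.indicator (hU.piece_meas (by simp) b)
  have h := hC {p : ℝ × ℝ | (p.1 : ℂ) + p.2 * I ∈ U} ?_
    (fun p : ℝ × ℝ => (piece U I b).indicator F (p.1 + p.2 * I)) (MM U q F (cst K))
    (hFm.comp pt_meas) (hU.MM_meas hF.cont) ?_ ?_ ?_
  · refine h.trans ?_
    refine (mul_le_mul_right (MM_int hU hF.cont (by linarith)) _).trans ?_
    rw [ENNReal.coe_mul, ENNReal.coe_toNNReal hcc]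
    exact le_of_eq (by ring)
  · intro p hp
    have h1 := hU.norm_le hp
    have h2 : ‖(p.1 : ℂ) + p.2 * I‖ ^ 2 = p.1 ^ 2 + p.2 ^ 2 := by
      rw [← Complex.normSq_eq_norm_sq, Complex.normSq_add_mul_I]
    rw [← h2]
    gcongr
  · intro p
    by_cases hp : (p.1 : ℂ) + p.2 * I ∈ piece U I b
    · rw [indicator_of_mem hp]
      obtain ⟨n, hn⟩ := hU.layer_cover hp.1
      rw [MM_layer n hn]
      have := size_piece hU (by linarith) hF hfin hp hn
      simpa using this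
    · rw [indicator_of_notMem hp, norm_zero]
      exact ENNReal.toReal_nonneg
  · intro p hp
    exact MM_off hp
  · refine Filter.Eventually.of_forall fun x1 j h hh _ => ?_
    have D := line_data hU (by linarith) hK hs.le (by linarith) hF hfin b x1
    have h1 := D.estimate (by norm_num) hs hs2 j h hh
    rw [ENNReal.coe_toNNReal hκt]
    exact h1

end Pool.Agent.H26.HD
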