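import Mathlib
set_option autoImplicit false

/-!
# Exit times from a convex set of the plane
-/

namespace Pool.Agent.H26.HD

open MeasureTheory Set Metric Complex
open scoped ENNReal NNReal

/-- the exit time from `U` in the direction `v` -/
noncomputable def ex (U : Set ℂ) (v x : ℂ) : ℝ := sSup {t : ℝ | 0 ≤ t ∧ x + t * v ∈ U}

/-- open convex subsets of the disc of radius `1/2` -/
structure Good (U : Set ℂ) : Prop where
  op : IsOpen U
  conv : Convex ℝ U
  sub : U ⊆ closedBall 0 (1 / 2)

variable {U : Set ℂ} {v x y : ℂ}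

theorem Good.norm_le (hU : Good U) (hx : x ∈ U) : ‖x‖ ≤ 1 / 2 := by
  have := hU.sub hx
  simpa using this

theorem Good.bdd (hU : Good U) (hv : ‖v‖ = 1) (hx : x ∈ U) :
    BddAbove {t : ℝ | 0 ≤ t ∧ x + t * v ∈ U} := by
  refine ⟨1, ?_⟩
  rintro t ⟨ht, hm⟩
  have h1 := hU.norm_le hm
  have h2 := hU.norm_le hx
  have h3 : ‖(t : ℂ) * v‖ = t := by
    rw [norm_mul, hv, mul_one, Complex.norm_real, Real.norm_eq_abs, abs_of_nonneg ht]
  have h4 : ‖(t : ℂ) * v‖ ≤ ‖x + t * v‖ + ‖x‖ := by
    have : (t : ℂ) * v = (x + t * v) - x := by ring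
    rw [this]
    exact (norm_sub_le _ _).trans (by simp)
  linarith

/-- convexity, in the form used below -/
theorem Good.seg (hU : Good U) (hx : x ∈ U) (hy : y ∈ U) {a b : ℝ} (ha : 0 ≤ a) (hb : 0 ≤ b)
    (hab : a + b = 1) : (a : ℂ) * x + b * y ∈ U := by
  have := hU.conv hx hy ha hb hab
  simpa using this

theorem Good.between (hU : Good U) {r s t : ℝ} (h1 : x + r * v ∈ U) (h2 : x + t * v ∈ U)
    (hrs : r ≤ s) (hst : s ≤ t) : x + s * v ∈ U := by
  rcases eq_or_lt_of_le (hrs.trans hst) with h | h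
  · have : s = r := le_antisymm (hst.trans h.symm.le) hrs
    rw [this]; exact h1
  · have h0 : (0 : ℝ) < t - r := by linarith
    have := hU.seg h1 h2 (a := (t - s) / (t - r)) (b := (s - r) / (t - r))
      (div_nonneg (by linarith) h0.le) (div_nonneg (by linarith) h0.le)
      (by rw [← add_div, div_eq_one_iff_eq h0.ne']; ring)
    have e : ((((t - s) / (t - r) : ℝ) : ℂ) * (x + r * v) +
        (((s - r) / (t - r) : ℝ) : ℂ) * (x + t * v)) = x + s * v := by
      have h0' : ((t : ℂ) - r) ≠ 0 := by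
        have := h0.ne'
        exact_mod_cast this
      push_cast
      field_simp
      ring
    rwa [e] at this

theorem Good.ex_mem (hU : Good U) (hx : x ∈ U) {t : ℝ} (ht : 0 ≤ t) (h : t < ex U v x) :
    x + t * v ∈ U := by
  have hne : {t : ℝ | 0 ≤ t ∧ x + t * v ∈ U}.Nonempty := ⟨0, le_refl _, by simpa using hx⟩
  obtain ⟨r, ⟨hr0, hr⟩, htr⟩ := exists_lt_of_lt_csSup hne h
  exact hU.between (r := 0) (by simpa using hx) hr ht htr.le

theorem Good.ex_lt (hU : Good U) (hv : ‖v‖ = 1) (hx : x ∈ U) {t : ℝ} (ht : 0 ≤ t)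
    (h : x + t * v ∈ U) : t < ex U v x := by
  obtain ⟨ε, hε, hb⟩ := Metric.isOpen_iff.1 hU.op _ h
  have h1 : x + ((t + ε / 2 : ℝ) : ℂ) * v ∈ U := by
    apply hb
    rw [mem_ball, dist_eq_norm]
    have : x + ((t + ε / 2 : ℝ) : ℂ) * v - (x + t * v) = ((ε / 2 : ℝ) : ℂ) * v := by
      push_cast; ring
    rw [this, norm_mul, hv, mul_one, Complex.norm_real, Real.norm_eq_abs,
      abs_of_pos (by linarith)]
    linarith
  have h2 : t + ε / 2 ≤ ex U v x := le_csSup (hU.bdd hv hx) ⟨by linarith, h1⟩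
  linarith

theorem Good.ex_pos (hU : Good U) (hv : ‖v‖ = 1) (hx : x ∈ U) : 0 < ex U v x :=
  hU.ex_lt hv hx le_rfl (by simpa using hx)

theorem Good.ex_le_one (hU : Good U) (hv : ‖v‖ = 1) (hx : x ∈ U) : ex U v x ≤ 1 := by
  have hne : {t : ℝ | 0 ≤ t ∧ x + t * v ∈ U}.Nonempty := ⟨0, le_refl _, by simpa using hx⟩
  apply csSup_le hne
  rintro t ⟨ht, hm⟩
  have h1 := hU.norm_le hm
  have h2 := hU.norm_le hx
  have h3 : ‖(t : ℂ) * v‖ = t := by
    rw [norm_mul, hv, mul_one, Complex.norm_real, Real.norm_eq_abs, abs_of_nonneg ht]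
  have h4 : ‖(t : ℂ) * v‖ ≤ ‖x + t * v‖ + ‖x‖ := by
    have : (t : ℂ) * v = (x + t * v) - x := by ring
    rw [this]
    exact (norm_sub_le _ _).trans (by simp)
  linarith

theorem Good.ex_notMem (hU : Good U) (hv : ‖v‖ = 1) (hx : x ∈ U) : x + ex U v x * v ∉ U := by
  intro h
  exact lt_irrefl _ (hU.ex_lt hv hx (hU.ex_pos hv hx).le h)

theorem Good.ex_concave (hU : Good U) (hv : ‖v‖ = 1) : ConcaveOn ℝ U (ex U v) := by
  refine ⟨hU.conv, ?_⟩
  intro x hx y hy a b ha hb hab
  have hz : (a : ℂ) * x + b * y ∈ U := hU.seg hx hy ha hb hab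
  simp only [smul_eq_mul, Complex.real_smul]
  apply le_of_forall_pos_le_add
  intro ε hε
  set s := ex U v x
  set t := ex U v y
  have hs0 : 0 < s := hU.ex_pos hv hx
  have ht0 : 0 < t := hU.ex_pos hv hy
  -- points slightly before the exits
  set s' := max 0 (s - ε) with hs'
  set t' := max 0 (t - ε) with ht'
  have h1 : x + s' * v ∈ U := hU.ex_mem hx (le_max_left _ _) (max_lt hs0 (by linarith))
  have h2 : y + t' * v ∈ U := hU.ex_mem hy (le_max_left _ _) (max_lt ht0 (by linarith))
  have h3 := hU.seg h1 h2 ha hb hab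
  have e : (a : ℂ) * (x + s' * v) + b * (y + t' * v) =
      ((a : ℂ) * x + b * y) + ((a * s' + b * t' : ℝ) : ℂ) * v := by
    push_cast; ring
  rw [e] at h3
  have h4 : a * s' + b * t' < ex U v (a * x + b * y) := by
    apply hU.ex_lt hv hz _ h3
    have := le_max_left 0 (s - ε)
    have := le_max_left 0 (t - ε)
    positivity
  have h5 : s - ε ≤ s' := le_max_right _ _
  have h6 : t - ε ≤ t' := le_max_right _ _
  have h7 : a * (s - ε) + b * (t - ε) ≤ a * s' + b * t' := by gcongr
  have h8 : a * (s - ε) + b * (t - ε) = a * s + b * t - ε := by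
    have : a * ε + b * ε = ε := by rw [← add_mul, hab, one_mul]
    linarith
  linarith

theorem Good.ex_shift (hU : Good U) (hv : ‖v‖ = 1) (hx : x ∈ U) {r : ℝ} (h : x + r * v ∈ U) :
    ex U v (x + r * v) = ex U v x - r := by
  have key : ∀ (x : ℂ) (r : ℝ), x ∈ U → x + r * v ∈ U → 0 ≤ r →
      ex U v (x + r * v) = ex U v x - r := by
    intro x r hx h hr
    apply le_antisymm
    · have hne : {t : ℝ | 0 ≤ t ∧ (x + r * v) + t * v ∈ U}.Nonempty :=
        ⟨0, le_refl _, by simpa using h⟩
      apply csSup_le hne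
      rintro t ⟨ht, hm⟩
      have h1 : x + ((r + t : ℝ) : ℂ) * v ∈ U := by
        have e : x + ((r + t : ℝ) : ℂ) * v = x + r * v + t * v := by push_cast; ring
        rw [e]; exact hm
      have := hU.ex_lt hv hx (by linarith) h1
      linarith
    · by_contra hc
      push Not at hc
      have h1 := hU.ex_notMem hv h
      apply h1
      have e : x + r * v + ex U v (x + r * v) * v = x + ((r + ex U v (x + r * v) : ℝ) : ℂ) * v := by
        push_cast; ring
      rw [e]
      apply hU.ex_mem hx _ (by linarith)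
      have := (hU.ex_pos hv h).le
      linarith
  rcases le_total 0 r with hr | hr
  · exact key x r hx h hr
  · have h1 := key (x + r * v) (-r) h (by
      have : x + r * v + ((-r : ℝ) : ℂ) * v = x := by push_cast; ring
      rw [this]; exact hx) (by linarith)
    have h2 : x + r * v + ((-r : ℝ) : ℂ) * v = x := by push_cast; ring
    rw [h2] at h1
    linarith

theorem Good.ex_cont (hU : Good U) (hv : ‖v‖ = 1) : ContinuousOn (ex U v) U :=
  (hU.ex_concave hv).continuousOn hU.op

/-- the ball around a point all of whose exit times are at least `t` -/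
theorem Good.ball_sub (hU : Good U) (hx : x ∈ U) {t : ℝ}
    (h1 : ∀ r : ℝ, 0 ≤ r → r < t → x + r * I ∈ U) (h2 : ∀ r : ℝ, 0 ≤ r → r < t → x + r * (-I) ∈ U)
    (h3 : ∀ r : ℝ, 0 ≤ r → r < t → x + r * 1 ∈ U) (h4 : ∀ r : ℝ, 0 ≤ r → r < t → x + r * (-1) ∈ U) :
    ball x (t / 2) ⊆ U := by
  intro z hz
  rw [mem_ball, dist_eq_norm] at hz
  set w := z - x with hw
  have hre : |w.re| ≤ ‖w‖ := Complex.abs_re_le_norm w
  have him : |w.im| ≤ ‖w‖ := Complex.abs_im_le_norm w
  have ht : |w.re| + |w.im| < t := by linarith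
  have ht0 : 0 < t := lt_of_le_of_lt (by positivity) ht
  obtain ⟨r, hr1, hr2⟩ := exists_between ht
  have hr0 : 0 < r := lt_of_le_of_lt (by positivity) hr1
  -- horizontal and vertical points
  have hH : ∃ p ∈ U, ((|w.re| / r : ℝ) : ℂ) * (p - x) = w.re := by
    rcases le_total 0 w.re with h | h
    · refine ⟨x + r * 1, h3 r hr0.le hr2, ?_⟩
      rw [abs_of_nonneg h]
      have : (r : ℂ) ≠ 0 := by exact_mod_cast hr0.ne'
      push_cast
      field_simp
      ring
    · refine ⟨x + r * (-1), h4 r hr0.le hr2, ?_⟩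
      rw [abs_of_nonpos h]
      have : (r : ℂ) ≠ 0 := by exact_mod_cast hr0.ne'
      push_cast
      field_simp
      ring
  have hV : ∃ p ∈ U, ((|w.im| / r : ℝ) : ℂ) * (p - x) = w.im * I := by
    rcases le_total 0 w.im with h | h
    · refine ⟨x + r * I, h1 r hr0.le hr2, ?_⟩
      rw [abs_of_nonneg h]
      have : (r : ℂ) ≠ 0 := by exact_mod_cast hr0.ne'
      push_cast
      field_simp
      ring
    · refine ⟨x + r * (-I), h2 r hr0.le hr2, ?_⟩
      rw [abs_of_nonpos h]
      have : (r : ℂ) ≠ 0 := by exact_mod_cast hr0.ne'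
      push_cast
      field_simp
      ring
  obtain ⟨p, hp, hp2⟩ := hH
  obtain ⟨p', hp', hp2'⟩ := hV
  set a := |w.re| / r with ha
  set b := |w.im| / r with hb
  have ha0 : 0 ≤ a := by positivity
  have hb0 : 0 ≤ b := by positivity
  have hab : a + b ≤ 1 := by
    rw [ha, hb, ← add_div, div_le_one hr0]
    exact hr1.le
  have e : z = (1 - a - b) • x + (a • p + b • p') := by
    have h5 : z = x + w := by rw [hw]; ring
    have h6 : w = w.re + w.im * I := (Complex.re_add_im w).symm
    simp only [Complex.real_smul]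
    push_cast
    rw [h5]
    linear_combination h6 - hp2 - hp2'
  rw [e]
  -- a convex combination of three points
  have := hU.conv.sum_mem (t := Finset.univ) (w := ![1 - a - b, a, b]) (z := ![x, p, p'])
    (by
      intro i _
      fin_cases i
      · show 0 ≤ 1 - a - b
        linarith
      · exact ha0
      · exact hb0)
    (by
      simp only [Fin.sum_univ_three, Matrix.cons_val_zero, Matrix.cons_val_one, Matrix.cons_val]
      ring)
    (by
      intro i _
      fin_cases i
      · exact hx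
      · exact hp
      · exact hp')
  simpa [Fin.sum_univ_three, add_assoc] using this

end Pool.Agent.H26.HD
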