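import Pool.Agent.H26.HD.Est
set_option autoImplicit false

/-!
# Harmonic functions are regular
-/

namespace Pool.Agent.H26.HD

open MeasureTheory Set Metric Complex InnerProductSpace
open scoped ENNReal NNReal Real

variable {q s K : ℝ} {U : Set ℂ} {F f f0 : ℂ → ℂ} {x y : ℂ} {r : ℝ}

/-- the tent function -/
noncomputable def tent (r : ℝ) (z : ℂ) : ℝ := max (1 - ‖z‖ / r) 0

theorem tent_cont (r : ℝ) : Continuous (tent r) := by
  unfold tent
  fun_prop

theorem tent_nonneg (r : ℝ) (z : ℂ) : 0 ≤ tent r z := le_max_right _ _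

theorem tent_le_one (hr : 0 < r) (z : ℂ) : tent r z ≤ 1 := by
  apply max_le _ zero_le_one
  have : 0 ≤ ‖z‖ / r := by positivity
  linarith

theorem tent_zero (hr : 0 < r) {z : ℂ} (h : r ≤ ‖z‖) : tent r z = 0 := by
  apply max_eq_right
  have : 1 ≤ ‖z‖ / r := by rwa [one_le_div hr]
  linarith

theorem tent_lip (hr : 0 < r) (z w : ℂ) : |tent r z - tent r w| ≤ ‖z - w‖ / r := by
  unfold tent
  refine (abs_max_sub_max_le_abs _ _ _).trans ?_
  have : 1 - ‖z‖ / r - (1 - ‖w‖ / r) = (‖w‖ - ‖z‖) / r := by ring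
  rw [this, abs_div, abs_of_pos hr]
  gcongr
  rw [abs_sub_comm]
  exact abs_norm_sub_norm_le _ _

theorem tent_compact (hr : 0 < r) : HasCompactSupport (tent r) := by
  apply HasCompactSupport.intro (isCompact_closedBall (0 : ℂ) r)
  intro z hz
  apply tent_zero hr
  rw [mem_closedBall, dist_zero_right, not_le] at hz
  exact hz.le

theorem tent_int (hr : 0 < r) : Integrable (tent r) :=
  (tent_cont r).integrable_of_hasCompactSupport (tent_compact hr)

/-- lower bound for the integral of the tent function -/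
theorem tent_mass (hr : 0 < r) : r ^ 2 / 4 ≤ ∫ z, tent r z := by
  have h1 : ∫ z in closedBall (0 : ℂ) (r / 2), (1 / 2 : ℝ) ≤ ∫ z, tent r z := by
    calc ∫ z in closedBall (0 : ℂ) (r / 2), (1 / 2 : ℝ)
        ≤ ∫ z in closedBall (0 : ℂ) (r / 2), tent r z := by
          apply setIntegral_mono_on
          · exact integrableOn_const measure_closedBall_lt_top.ne
          · exact (tent_int hr).integrableOn
          · exact measurableSet_closedBall
          · intro z hz
            rw [mem_closedBall, dist_zero_right] at hz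
            refine le_trans ?_ (le_max_left _ _)
            have : ‖z‖ / r ≤ 1 / 2 := by
              rw [div_le_iff₀ hr]
              linarith
            linarith
      _ ≤ ∫ z, tent r z := setIntegral_le_integral (tent_int hr)
          (Filter.Eventually.of_forall fun z => tent_nonneg r z)
  refine le_trans ?_ h1
  rw [setIntegral_const, smul_eq_mul, Measure.real, Complex.volume_closedBall]
  rw [ENNReal.toReal_mul, ENNReal.toReal_pow, ENNReal.toReal_ofReal (by positivity)]
  have : (3 : ℝ) < π := Real.pi_gt_three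
  simp only [ENNReal.coe_toReal, NNReal.coe_real_pi]
  nlinarith [sq_nonneg r]

/-- the mean value property, with the weight `tent` -/
theorem mean_value (hr : 0 < r) (hf : HarmonicOnNhd f (closedBall x r)) (hm : Measurable f0)
    (hi : Integrable f0) (he : ∀ z ∈ closedBall x r, f0 z = f z) :
    (∫ z, tent r z) • f x = ∫ z, tent r (z - x) • f0 z := by
  have e1 : ∫ z, tent r (z - x) • f0 z = ∫ z, tent r z • f0 (x + z) := by
    rw [← integral_add_left_eq_self (fun z => tent r (z - x) • f0 z) x]
    congr 1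
    ext z
    rw [add_sub_cancel_left]
  rw [e1, ← Complex.integral_comp_polarCoord_symm (fun z => tent r z • f0 (x + z)),
    ← Complex.integral_comp_polarCoord_symm (fun z => tent r z)]
  rw [polarCoord_target, Measure.volume_eq_prod]
  have hmeas : Measurable (fun p : ℝ × ℝ => Complex.polarCoord.symm p) := by
    simp only [Complex.polarCoord_symm_apply]
    fun_prop
  -- integrability in polar coordinates
  have hI : Integrable (fun z => tent r z • f0 (x + z)) := by
    have h1 : Integrable (fun z => f0 (x + z)) := hi.comp_add_left x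
    apply h1.mono
    · exact (tent_cont r).aestronglyMeasurable.smul h1.aestronglyMeasurable
    · refine Filter.Eventually.of_forall fun z => ?_
      rw [norm_smul, Real.norm_eq_abs, abs_of_nonneg (tent_nonneg r z)]
      have := tent_le_one hr z
      have := norm_nonneg (f0 (x + z))
      nlinarith
  have hpol : ∀ {E : Type} [NormedAddCommGroup E] [NormedSpace ℝ E] (g : ℂ → E),
      StronglyMeasurable g → Integrable g →
      IntegrableOn (fun p : ℝ × ℝ => p.1 • g (Complex.polarCoord.symm p))
        (Ioi (0 : ℝ) ×ˢ Ioo (-π) π) (volume.prod volume) := by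
    intro E _ _ g hgm hg
    refine ⟨?_, ?_⟩
    · exact (measurable_fst.stronglyMeasurable.smul
        (hgm.comp_measurable hmeas)).aestronglyMeasurable
    · have h2 := Complex.lintegral_comp_polarCoord_symm (fun z => ‖g z‖ₑ)
      have h3 : ∫⁻ z, ‖g z‖ₑ < ∞ := hg.2
      rw [← h2, polarCoord_target, Measure.volume_eq_prod] at h3
      refine lt_of_le_of_lt (le_of_eq ?_) h3
      apply setLIntegral_congr_fun (measurableSet_Ioi.prod measurableSet_Ioo)
      intro p hp
      have hp1 : 0 < p.1 := hp.1
      simp only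
      rw [enorm_smul, smul_eq_mul, Real.enorm_eq_ofReal hp1.le]
  have hgm : StronglyMeasurable (fun z => tent r z • f0 (x + z)) :=
    ((tent_cont r).measurable.smul (hm.comp (by fun_prop))).stronglyMeasurable
  have hI1 := hpol _ hgm hI
  have hI2 := hpol _ (tent_cont r).stronglyMeasurable (tent_int hr)
  rw [setIntegral_prod _ hI1, setIntegral_prod _ hI2, ← integral_smul_const]
  apply setIntegral_congr_fun measurableSet_Ioi
  intro ρ hρ
  have hρ0 : 0 < ρ := hρ
  simp only
  have hn : ∀ θ : ℝ, ‖Complex.polarCoord.symm (ρ, θ)‖ = ρ := fun θ => by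
    rw [Complex.norm_polarCoord_symm, abs_of_pos hρ0]
  have ht : ∀ θ : ℝ, tent r (Complex.polarCoord.symm (ρ, θ)) = max (1 - ρ / r) 0 := fun θ => by
    rw [tent, hn]
  simp only [ht]
  rcases le_or_gt ρ r with hle | hlt
  · have e2 : ∀ θ : ℝ, f0 (x + Complex.polarCoord.symm (ρ, θ)) = f (circleMap x ρ θ) := by
      intro θ
      rw [he]
      · congr 1
        rw [Complex.polarCoord_symm_apply, circleMap, Complex.exp_mul_I]
        simp
      · rw [mem_closedBall, dist_eq_norm, add_sub_cancel_left, hn]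
        exact hle
    simp only [e2]
    have e3 : ∫ θ in Ioo (-π) π, f (circleMap x ρ θ) = (2 * π) • f x := by
      have h1 : Real.circleAverage f x ρ = f x := by
        apply InnerProductSpace.HarmonicOnNhd.circleAverage_eq
        intro z hz
        apply hf
        rw [abs_of_pos hρ0] at hz
        exact closedBall_subset_closedBall hle hz
      rw [← h1, Real.circleAverage_eq_integral_add (-π), smul_smul]
      rw [mul_inv_cancel₀ (by positivity), one_smul]
      rw [← integral_Ioc_eq_integral_Ioo, ← intervalIntegral.integral_of_le (by linarith [Real.pi_pos])]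
      rw [intervalIntegral.integral_comp_add_right (fun θ ↦ f (circleMap x ρ θ)), zero_add,
        show (2 * π + -π) = π by ring]
    rw [integral_smul, integral_smul, integral_smul, e3]
    rw [setIntegral_const, Measure.real, Real.volume_Ioo, ENNReal.toReal_ofReal (by linarith [Real.pi_pos])]
    simp only [smul_eq_mul, smul_smul]
    congr 1
    ring
  · have e4 : max (1 - ρ / r) 0 = 0 := by
      apply max_eq_right
      have : 1 ≤ ρ / r := by rw [one_le_div hr]; exact hlt.le
      linarith
    simp only [e4, zero_smul, smul_zero, integral_zero]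

/-- the mean of `|f|` -/
theorem mean_one (hq : 1 ≤ q) {ρ : ℝ} (hρ : 0 < ρ) (hf : ContinuousOn f (ball x ρ)) :
    (ENNReal.ofReal (ρ ^ 2))⁻¹ * ∫⁻ z in ball x ρ, ‖f z‖ₑ ≤ 4 * mean q f x ρ := by
  set a := ENNReal.ofReal (ρ ^ 2) with ha
  have ha0 : a ≠ 0 := by
    rw [ha]; simp only [ne_eq, ENNReal.ofReal_eq_zero, not_le]; positivity
  have hat : a ≠ ∞ := ENNReal.ofReal_ne_top
  have hm : AEStronglyMeasurable f (volume.restrict (ball x ρ)) :=
    hf.aestronglyMeasurable measurableSet_ball
  have h1 := eLpNorm_le_eLpNorm_mul_rpow_measure_univ (p := 1) (q := ENNReal.ofReal q)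
    (by rw [ENNReal.one_le_ofReal]; exact hq) hm
  rw [eLpNorm_one_eq_lintegral_enorm,
    eLpNorm_eq_lintegral_rpow_enorm_toReal (by simp; linarith) ENNReal.ofReal_ne_top,
    ENNReal.toReal_ofReal (by linarith), ENNReal.toReal_one, Measure.restrict_apply_univ,
    Complex.volume_ball] at h1
  have hv : ENNReal.ofReal ρ ^ 2 = a := by rw [ha, ENNReal.ofReal_pow hρ.le]
  rw [hv] at h1
  set X := ∫⁻ z in ball x ρ, ‖f z‖ₑ ^ q with hX
  unfold mean
  rw [← ha, ← hX]
  have hq0 : 0 ≤ 1 - 1 / q := by
    rw [sub_nonneg, div_le_one (by linarith)]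
    exact hq
  have hpi : (NNReal.pi : ℝ≥0∞) ^ (1 - 1 / q) ≤ 4 := by
    calc (NNReal.pi : ℝ≥0∞) ^ (1 - 1 / q) ≤ 4 ^ (1 - 1 / q) := by
          apply ENNReal.rpow_le_rpow _ hq0
          have : NNReal.pi ≤ 4 := by
            rw [← NNReal.coe_le_coe]
            exact Real.pi_le_four
          exact_mod_cast this
      _ ≤ 4 ^ (1 : ℝ) := by
          apply ENNReal.rpow_le_rpow_of_exponent_le (by norm_num)
          have : 0 < 1 / q := by positivity
          linarith
      _ = 4 := ENNReal.rpow_one _
  calc a⁻¹ * ∫⁻ z in ball x ρ, ‖f z‖ₑ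
      ≤ a⁻¹ * (X ^ (1 / q) * (a * NNReal.pi) ^ (1 / 1 - 1 / q)) := mul_le_mul_right h1 _
    _ = (a⁻¹ * a ^ (1 - 1 / q)) * X ^ (1 / q) * (NNReal.pi : ℝ≥0∞) ^ (1 - 1 / q) := by
        rw [div_one, ENNReal.mul_rpow_of_nonneg _ _ hq0]
        ring
    _ = (a⁻¹ * X) ^ (1 / q) * (NNReal.pi : ℝ≥0∞) ^ (1 - 1 / q) := by
        congr 1
        rw [ENNReal.mul_rpow_of_nonneg _ _ (by positivity)]
        congr 1
        rw [← ENNReal.rpow_neg_one, ← ENNReal.rpow_add _ _ ha0 hat, ← ENNReal.rpow_mul]
        congr 1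
        ring
    _ ≤ (a⁻¹ * X) ^ (1 / q) * 4 := mul_le_mul_right hpi _
    _ = _ := mul_comm _ _

theorem cut_meas {A : Set ℂ} (hA : MeasurableSet A) (hf : ContinuousOn f A) :
    Measurable (A.indicator f) := by
  classical
  rw [← Set.piecewise_eq_indicator]
  exact hf.measurable_piecewise continuousOn_const hA

theorem cut_int {A : Set ℂ} (hA : IsCompact A) (hf : ContinuousOn f A) :
    Integrable (A.indicator f) :=
  (integrable_indicator_iff hA.measurableSet).2 (hf.integrableOn_compact hA)

theorem harmonic_regular (hf : HarmonicOnNhd f U) (hq : 1 ≤ q) : Regular q 1 1024 U f := by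
  have hc : ContinuousOn f U := hf.continuousOn
  refine ⟨hc, ?_, ?_⟩
  · intro x ρ hρ hb
    set r := ρ / 2 with hr
    have hr0 : 0 < r := by positivity
    have hsub : closedBall x r ⊆ ball x ρ := closedBall_subset_ball (by linarith)
    have hcb : ContinuousOn f (closedBall x r) := hc.mono (hsub.trans hb)
    set f0 := (closedBall x r).indicator f with hf0
    have h1 := mean_value (f0 := f0) hr0 (fun z hz => hf z (hb (hsub hz)))
      (cut_meas measurableSet_closedBall hcb) (cut_int (isCompact_closedBall _ _) hcb)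
      (fun z hz => indicator_of_mem hz f)
    have h2 : ENNReal.ofReal (∫ z, tent r z) * ‖f x‖ₑ ≤ ∫⁻ z in ball x ρ, ‖f z‖ₑ := by
      have e : ENNReal.ofReal (∫ z, tent r z) * ‖f x‖ₑ = ‖(∫ z, tent r z) • f x‖ₑ := by
        rw [enorm_smul, Real.enorm_eq_ofReal]
        exact integral_nonneg fun z => tent_nonneg r z
      rw [e, h1]
      refine (enorm_integral_le_lintegral_enorm _).trans ?_
      rw [← lintegral_indicator measurableSet_ball]
      apply lintegral_mono
      intro z
      simp only [enorm_smul]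
      by_cases hz : z ∈ closedBall x r
      · rw [indicator_of_mem (hsub hz), hf0, indicator_of_mem hz]
        have : ‖tent r (z - x)‖ₑ ≤ 1 := by
          rw [Real.enorm_eq_ofReal (tent_nonneg _ _)]
          exact ENNReal.ofReal_le_one.2 (tent_le_one hr0 _)
        calc ‖tent r (z - x)‖ₑ * ‖f z‖ₑ ≤ 1 * ‖f z‖ₑ := by gcongr
          _ = _ := one_mul _
      · rw [hf0, indicator_of_notMem hz]
        simp
    have h3 : ENNReal.ofReal (ρ ^ 2) * ‖f x‖ₑ ≤ 16 * ∫⁻ z in ball x ρ, ‖f z‖ₑ := by
      have h4 := tent_mass hr0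
      calc ENNReal.ofReal (ρ ^ 2) * ‖f x‖ₑ = 16 * (ENNReal.ofReal (r ^ 2 / 4) * ‖f x‖ₑ) := by
            rw [← mul_assoc]
            congr 1
            rw [show (16 : ℝ≥0∞) = ENNReal.ofReal 16 by norm_num,
              ← ENNReal.ofReal_mul (by norm_num)]
            congr 1
            rw [hr]; ring
        _ ≤ 16 * (ENNReal.ofReal (∫ z, tent r z) * ‖f x‖ₑ) := by gcongr
        _ ≤ _ := mul_le_mul_right h2 _
    have ha0 : ENNReal.ofReal (ρ ^ 2) ≠ 0 := by
      simp only [ne_eq, ENNReal.ofReal_eq_zero, not_le]; positivity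
    have h5 := mean_one hq hρ (hc.mono hb)
    calc ‖f x‖ₑ = (ENNReal.ofReal (ρ ^ 2))⁻¹ * (ENNReal.ofReal (ρ ^ 2) * ‖f x‖ₑ) := by
          rw [← mul_assoc, ENNReal.inv_mul_cancel ha0 ENNReal.ofReal_ne_top, one_mul]
      _ ≤ (ENNReal.ofReal (ρ ^ 2))⁻¹ * (16 * ∫⁻ z in ball x ρ, ‖f z‖ₑ) :=
          mul_le_mul_right h3 _
      _ = 16 * ((ENNReal.ofReal (ρ ^ 2))⁻¹ * ∫⁻ z in ball x ρ, ‖f z‖ₑ) := by ring
      _ ≤ 16 * (4 * mean q f x ρ) := mul_le_mul_right h5 _
      _ ≤ ENNReal.ofReal 1024 * mean q f x ρ := by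
          rw [← mul_assoc]
          gcongr
          norm_num
  · intro x y ρ hρ hb hxy
    set r := ρ / 4 with hr
    have hr0 : 0 < r := by positivity
    set B := closedBall x (3 * ρ / 4) with hB
    have hsub : B ⊆ ball x ρ := closedBall_subset_ball (by linarith)
    have hBx : closedBall x r ⊆ B := closedBall_subset_closedBall (by linarith)
    have hBy : closedBall y r ⊆ B := by
      apply closedBall_subset_closedBall'
      rw [dist_eq_norm]
      linarith
    have hcb : ContinuousOn f B := hc.mono (hsub.trans hb)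
    set f0 := B.indicator f with hf0
    have hm0 : Measurable f0 := cut_meas measurableSet_closedBall hcb
    have hi0 : Integrable f0 := cut_int (isCompact_closedBall _ _) hcb
    have h1 := mean_value (f0 := f0) hr0 (fun z hz => hf z (hb (hsub (hBx hz)))) hm0 hi0
      (fun z hz => indicator_of_mem (hBx hz) f)
    have h1' := mean_value (f0 := f0) hr0 (fun z hz => hf z (hb (hsub (hBy hz)))) hm0 hi0
      (fun z hz => indicator_of_mem (hBy hz) f)
    have hint : ∀ w : ℂ, Integrable (fun z => tent r (z - w) • f0 z) := by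
      intro w
      apply hi0.mono
      · exact ((tent_cont r).comp (by fun_prop)).aestronglyMeasurable.smul
          hi0.aestronglyMeasurable
      · refine Filter.Eventually.of_forall fun z => ?_
        rw [norm_smul, Real.norm_eq_abs, abs_of_nonneg (tent_nonneg r _)]
        have := tent_le_one hr0 (z - w)
        have := norm_nonneg (f0 z)
        nlinarith
    have h2 : ENNReal.ofReal (∫ z, tent r z) * ‖f y - f x‖ₑ ≤
        ENNReal.ofReal (‖y - x‖ / r) * ∫⁻ z in ball x ρ, ‖f z‖ₑ := by
      have e : ENNReal.ofReal (∫ z, tent r z) * ‖f y - f x‖ₑ =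
          ‖(∫ z, tent r z) • (f y - f x)‖ₑ := by
        rw [enorm_smul, Real.enorm_eq_ofReal]
        exact integral_nonneg fun z => tent_nonneg r z
      rw [e, smul_sub, h1, h1', ← integral_sub (hint y) (hint x)]
      refine (enorm_integral_le_lintegral_enorm _).trans ?_
      rw [← lintegral_indicator measurableSet_ball, ← lintegral_const_mul' _ _
        ENNReal.ofReal_ne_top]
      apply lintegral_mono
      intro z
      simp only [← sub_smul, enorm_smul]
      by_cases hz : z ∈ B
      · rw [indicator_of_mem (hsub hz), hf0, indicator_of_mem hz]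
        have : ‖tent r (z - y) - tent r (z - x)‖ₑ ≤ ENNReal.ofReal (‖y - x‖ / r) := by
          rw [← ofReal_norm, Real.norm_eq_abs]
          apply ENNReal.ofReal_le_ofReal
          refine (tent_lip hr0 _ _).trans (le_of_eq ?_)
          congr 1
          rw [show z - y - (z - x) = -(y - x) by ring, norm_neg]
        gcongr
      · rw [hf0, indicator_of_notMem hz]
        simp
    have h3 : ENNReal.ofReal (ρ ^ 2) * ‖f y - f x‖ₑ ≤
        256 * (ENNReal.ofReal (‖y - x‖ / ρ) * ∫⁻ z in ball x ρ, ‖f z‖ₑ) := by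
      have h4 := tent_mass hr0
      calc ENNReal.ofReal (ρ ^ 2) * ‖f y - f x‖ₑ =
            64 * (ENNReal.ofReal (r ^ 2 / 4) * ‖f y - f x‖ₑ) := by
            rw [← mul_assoc]
            congr 1
            rw [show (64 : ℝ≥0∞) = ENNReal.ofReal 64 by norm_num,
              ← ENNReal.ofReal_mul (by norm_num)]
            congr 1
            rw [hr]; ring
        _ ≤ 64 * (ENNReal.ofReal (∫ z, tent r z) * ‖f y - f x‖ₑ) := by gcongr
        _ ≤ 64 * (ENNReal.ofReal (‖y - x‖ / r) * ∫⁻ z in ball x ρ, ‖f z‖ₑ) :=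
            mul_le_mul_right h2 _
        _ = _ := by
            rw [← mul_assoc, ← mul_assoc]
            congr 1
            rw [show (64 : ℝ≥0∞) = ENNReal.ofReal 64 by norm_num,
              show (256 : ℝ≥0∞) = ENNReal.ofReal 256 by norm_num,
              ← ENNReal.ofReal_mul (by norm_num), ← ENNReal.ofReal_mul (by norm_num)]
            congr 1
            rw [hr]
            field_simp
            ring
    have ha0 : ENNReal.ofReal (ρ ^ 2) ≠ 0 := by
      simp only [ne_eq, ENNReal.ofReal_eq_zero, not_le]; positivity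
    have h5 := mean_one hq hρ (hc.mono hb)
    calc ‖f y - f x‖ₑ = (ENNReal.ofReal (ρ ^ 2))⁻¹ * (ENNReal.ofReal (ρ ^ 2) * ‖f y - f x‖ₑ) := by
          rw [← mul_assoc, ENNReal.inv_mul_cancel ha0 ENNReal.ofReal_ne_top, one_mul]
      _ ≤ (ENNReal.ofReal (ρ ^ 2))⁻¹ *
          (256 * (ENNReal.ofReal (‖y - x‖ / ρ) * ∫⁻ z in ball x ρ, ‖f z‖ₑ)) :=
          mul_le_mul_right h3 _
      _ = 256 * ENNReal.ofReal (‖y - x‖ / ρ) *
          ((ENNReal.ofReal (ρ ^ 2))⁻¹ * ∫⁻ z in ball x ρ, ‖f z‖ₑ) := by ring
      _ ≤ 256 * ENNReal.ofReal (‖y - x‖ / ρ) * (4 * mean q f x ρ) := mul_le_mul_right h5 _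
      _ = ENNReal.ofReal (1024 * (‖y - x‖ / ρ) ^ (1 : ℝ)) * mean q f x ρ := by
          rw [Real.rpow_one, ENNReal.ofReal_mul (by norm_num),
            show (ENNReal.ofReal 1024) = 256 * 4 by norm_num]
          ring

/-- a smaller exponent -/
theorem Regular.mono_exp {s' : ℝ} (h : Regular q s K U F) (hK : 0 ≤ K) (hs : s' ≤ s)
    (hs0 : 0 < s') : Regular q s' K U F := by
  refine ⟨h.cont, h.size, ?_⟩
  intro x y ρ hρ hb hxy
  refine (h.hold x y ρ hρ hb hxy).trans ?_
  gcongr ENNReal.ofReal (K * ?_) * _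
  rcases eq_or_lt_of_le (norm_nonneg (y - x)) with h0 | h0
  · rw [← h0, zero_div, Real.zero_rpow (by linarith), Real.zero_rpow (by linarith)]
  · apply Real.rpow_le_rpow_of_exponent_ge (by positivity) _ hs
    rw [div_le_one hρ]
    linarith

end Pool.Agent.H26.HD
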