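import Pool.Agent.H26.HD.Sum
set_option autoImplicit false

/-!
# The estimate on one line
-/

namespace Pool.Agent.H26.HD

open MeasureTheory Set
open scoped ENNReal NNReal

theorem vol_le_of_dist (A : Set ℝ) (d : ℝ) (hA : ∀ u ∈ A, ∀ v ∈ A, u ≤ v → v - u ≤ d) :
    volume A ≤ ENNReal.ofReal d := by
  refine (Real.volume_le_diam _).trans ?_
  apply Metric.ediam_le
  intro y hy z hz
  rw [edist_dist, Real.dist_eq]
  apply ENNReal.ofReal_le_ofReal
  rcases le_total y z with h1 | h1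
  · rw [abs_sub_comm, abs_of_nonneg (by linarith)]
    exact hA y hy z hz h1
  · rw [abs_of_nonneg (by linarith)]
    exact hA z hz y hy h1

theorem crossing_out (J : Set ℝ) (hJ : J.OrdConnected) (h : ℝ) (hh : 0 < h) :
    volume {y : ℝ | y ∈ J ∧ y + h ∉ J} ≤ ENNReal.ofReal h := by
  apply vol_le_of_dist
  intro u hu v hv huv
  by_contra hc
  push Not at hc
  exact hu.2 (hJ.out hu.1 hv.1 ⟨by linarith, by linarith⟩)

theorem crossing_in (J : Set ℝ) (hJ : J.OrdConnected) (h : ℝ) (hh : 0 < h) :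
    volume {y : ℝ | y ∉ J ∧ y + h ∈ J} ≤ ENNReal.ofReal h := by
  apply vol_le_of_dist
  intro u hu v hv huv
  by_contra hc
  push Not at hc
  exact hv.1 (hJ.out hu.2 hv.2 ⟨by linarith, by linarith⟩)

theorem shift_vol (J : Set ℝ) (h : ℝ) : volume {y : ℝ | y + h ∈ J} = volume J := by
  have := measure_preimage_add_right (volume : Measure ℝ) h J
  exact this

/-- `min h p ≤ h^(2s) p^(1-2s)` -/
theorem le_interp {x h p : ℝ≥0∞} {s : ℝ} (hs : 0 ≤ s) (hs2 : 2 * s ≤ 1) (h1 : x ≤ h) (h2 : x ≤ p) :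
    x ≤ h ^ (2 * s) * p ^ (1 - 2 * s) := by
  calc x = x ^ (2 * s + (1 - 2 * s)) := by
        rw [show 2 * s + (1 - 2 * s) = 1 by ring, ENNReal.rpow_one]
    _ = x ^ (2 * s) * x ^ (1 - 2 * s) :=
        ENNReal.rpow_add_of_nonneg _ _ (by linarith) (by linarith)
    _ ≤ h ^ (2 * s) * p ^ (1 - 2 * s) := by
        gcongr

/-- the data on one line: the layers `P n`, the sets `J n r ⊆ P n`, the function `f`, vanishing off
the sets `J n r`, and the majorant `M`, equal to `m n` on `P n` -/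
structure LineData (N : ℕ) (K s : ℝ) (f : ℝ → ℂ) (M : ℝ → ℝ) (J : ℕ → Fin N → Set ℝ)
    (P : ℕ → Set ℝ) (m : ℕ → ℝ) : Prop where
  disj : Pairwise (Function.onFun Disjoint P)
  sub : ∀ n r, J n r ⊆ P n
  ord : ∀ n r, (J n r).OrdConnected
  meas : ∀ n, MeasurableSet (P n)
  vol_le : ∀ n, volume (P n) ≤ ENNReal.ofReal ((1 / 2 : ℝ) ^ (n + 1))
  vol_ge : ∀ n k, n < k → volume (P n) ≠ 0 →
    ENNReal.ofReal ((1 / 2 : ℝ) ^ (k + 1)) ≤ volume (P k)
  zero : ∀ y, (∀ n r, y ∉ J n r) → f y = 0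
  bound : ∀ n r, ∀ y ∈ J n r, ‖f y‖ ≤ m n
  hold : ∀ n r r', ∀ y ∈ J n r, ∀ z ∈ J n r', ‖f z - f y‖ ≤ K * m n * (2 ^ n * |z - y|) ^ s
  maj : ∀ n, ∀ y ∈ P n, M y = m n

section

variable {N : ℕ} {K s : ℝ} {f : ℝ → ℂ} {M : ℝ → ℝ} {J : ℕ → Fin N → Set ℝ}
    {P : ℕ → Set ℝ} {m : ℕ → ℝ}

/-- the set of the levels -/
def lev (m : ℕ → ℝ) (j : ℤ) : Set ℕ := {n | (2 : ℝ) ^ (j - 1) < m n ∧ m n ≤ 2 ^ j}

/-- the part of `f` -/
noncomputable def prt (f : ℝ → ℂ) (M : ℝ → ℝ) (j : ℤ) : ℝ → ℂ :=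
  {y | (2 : ℝ) ^ (j - 1) < M y ∧ M y ≤ 2 ^ j}.indicator f

/-- the bound of the differences -/
noncomputable def term (K s h : ℝ) (J : ℕ → Fin N → Set ℝ) (j : ℤ) (n : ℕ) (y : ℝ) : ℝ≥0∞ :=
  {y | y ∈ ⋃ r, J n r}.indicator
    (fun _ => ENNReal.ofReal ((K * 2 ^ j * (2 ^ n * h) ^ s) ^ 2)) y +
  ∑ r, {y | y ∈ J n r ∧ y + h ∉ J n r}.indicator (fun _ => ENNReal.ofReal (4 * (2 ^ j) ^ 2)) y +
  ∑ r, {y | y ∉ J n r ∧ y + h ∈ J n r}.indicator (fun _ => ENNReal.ofReal (4 * (2 ^ j) ^ 2)) y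

theorem LineData.eq_of_mem (D : LineData N K s f M J P m) {n k : ℕ} {y : ℝ} (hn : y ∈ P n)
    (hk : y ∈ P k) : n = k := by
  by_contra hc
  exact (Set.disjoint_left.1 (D.disj hc)) hn hk

theorem LineData.prt_zero (D : LineData N K s f M J P m) {j : ℤ} {y : ℝ}
    (h : ∀ n ∈ lev m j, ∀ r, y ∉ J n r) : prt f M j y = 0 := by
  unfold prt
  by_cases hy : y ∈ {y | (2 : ℝ) ^ (j - 1) < M y ∧ M y ≤ 2 ^ j}
  · rw [indicator_of_mem hy]
    apply D.zero
    intro n r hr
    have h1 := D.maj n y (D.sub n r hr)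
    apply h n _ r hr
    have h2 : (2 : ℝ) ^ (j - 1) < M y ∧ M y ≤ 2 ^ j := hy
    show (2 : ℝ) ^ (j - 1) < m n ∧ m n ≤ 2 ^ j
    rw [← h1]
    exact h2
  · exact indicator_of_notMem hy _

theorem LineData.prt_eq (D : LineData N K s f M J P m) {j : ℤ} {y : ℝ} {n : ℕ}
    (hn : n ∈ lev m j) {r : Fin N} (h : y ∈ J n r) : prt f M j y = f y := by
  unfold prt
  apply indicator_of_mem
  show (2 : ℝ) ^ (j - 1) < M y ∧ M y ≤ 2 ^ j
  rw [D.maj n y (D.sub n r h)]
  exact hn

theorem LineData.prt_norm_le (D : LineData N K s f M J P m) (j : ℤ) (y : ℝ) :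
    ‖prt f M j y‖ ≤ 2 ^ j := by
  by_cases h : ∃ n ∈ lev m j, ∃ r, y ∈ J n r
  · obtain ⟨n, hn, r, hr⟩ := h
    rw [D.prt_eq hn hr]
    exact (D.bound n r y hr).trans hn.2
  · rw [D.prt_zero (by push Not at h; exact h), norm_zero]
    positivity

theorem LineData.pointwise (D : LineData N K s f M J P m) (hK : 0 ≤ K) (j : ℤ) (h : ℝ)
    (hh : 0 < h) (y : ℝ) :
    ‖prt f M j (y + h) - prt f M j y‖ₑ ^ 2 ≤
      ∑' n, (lev m j).indicator (fun n => term K s h J j n y) n := by
  have hbig : ‖prt f M j (y + h) - prt f M j y‖ₑ ^ 2 ≤ ENNReal.ofReal (4 * (2 ^ j) ^ 2) := by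
    rw [← ofReal_norm, ← ENNReal.ofReal_pow (norm_nonneg _)]
    apply ENNReal.ofReal_le_ofReal
    have h1 : ‖prt f M j (y + h) - prt f M j y‖ ≤ 2 * 2 ^ j := by
      refine (norm_sub_le _ _).trans ?_
      have := D.prt_norm_le j (y + h)
      have := D.prt_norm_le j y
      linarith
    calc _ ≤ (2 * (2 : ℝ) ^ j) ^ 2 := by gcongr
      _ = _ := by ring
  by_cases h1 : ∃ n ∈ lev m j, ∃ r, y ∈ J n r
  · obtain ⟨n, hn, r, hr⟩ := h1
    refine le_trans ?_ (ENNReal.le_tsum n)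
    rw [indicator_of_mem hn]
    by_cases h2 : ∃ r', y + h ∈ J n r'
    · obtain ⟨r', hr'⟩ := h2
      rw [D.prt_eq hn hr, D.prt_eq hn hr']
      unfold term
      rw [add_assoc]
      refine le_trans ?_ le_self_add
      rw [indicator_of_mem (show y ∈ {y | y ∈ ⋃ r, J n r} from mem_iUnion.2 ⟨r, hr⟩),
        ← ofReal_norm, ← ENNReal.ofReal_pow (norm_nonneg _)]
      apply ENNReal.ofReal_le_ofReal
      have h3 := D.hold n r r' y hr (y + h) hr'
      rw [show y + h - y = h by ring, abs_of_pos hh] at h3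
      have h4 : m n ≤ 2 ^ j := hn.2
      have h5 : 0 ≤ (2 ^ n * h) ^ s := by positivity
      have h6 : K * m n * (2 ^ n * h) ^ s ≤ K * 2 ^ j * (2 ^ n * h) ^ s := by gcongr
      have h7 := h3.trans h6
      gcongr
    · push Not at h2
      refine hbig.trans ?_
      unfold term
      refine le_trans ?_ le_self_add
      refine le_trans ?_ le_add_self
      refine le_trans ?_ (Finset.single_le_sum (fun _ _ => zero_le) (Finset.mem_univ r))
      rw [indicator_of_mem (show y ∈ {y | y ∈ J n r ∧ y + h ∉ J n r} from ⟨hr, h2 r⟩)]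
  · push Not at h1
    by_cases h2 : ∃ n ∈ lev m j, ∃ r, y + h ∈ J n r
    · obtain ⟨n, hn, r, hr⟩ := h2
      refine le_trans ?_ (ENNReal.le_tsum n)
      rw [indicator_of_mem hn]
      refine hbig.trans ?_
      unfold term
      refine le_trans ?_ le_add_self
      refine le_trans ?_ (Finset.single_le_sum (fun _ _ => zero_le) (Finset.mem_univ r))
      rw [indicator_of_mem (show y ∈ {y | y ∉ J n r ∧ y + h ∈ J n r} from ⟨h1 n hn r, hr⟩)]
    · push Not at h2
      rw [D.prt_zero h1, D.prt_zero h2]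
      simp

theorem term_meas (D : LineData N K s f M J P m) (h : ℝ) (j : ℤ) (n : ℕ) :
    Measurable (term K s h J j n) := by
  have hJ : ∀ r, MeasurableSet (J n r) := fun r => (D.ord n r).measurableSet
  have hJ2 : ∀ r, MeasurableSet {y : ℝ | y + h ∈ J n r} := fun r =>
    (measurable_add_const h) (hJ r)
  unfold term
  refine Measurable.add (Measurable.add ?_ ?_) ?_
  · exact measurable_const.indicator (MeasurableSet.iUnion hJ)
  · exact Finset.measurable_sum _ fun r _ => measurable_const.indicator ((hJ r).inter (hJ2 r).compl)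
  · exact Finset.measurable_sum _ fun r _ => measurable_const.indicator ((hJ r).compl.inter (hJ2 r))

theorem term_int (D : LineData N K s f M J P m) (hK : 0 ≤ K) (hs : 0 < s) (hs2 : 2 * s ≤ 1)
    (h : ℝ) (hh : 0 < h) (j : ℤ) (n : ℕ) :
    ∫⁻ y, term K s h J j n y ≤
      ENNReal.ofReal ((K ^ 2 + 8 * N) * ((2 ^ j) ^ 2 * h ^ (2 * s))) *
        volume (P n) ^ (1 - 2 * s) := by
  have hJ : ∀ r, MeasurableSet (J n r) := fun r => (D.ord n r).measurableSet
  have hJ2 : ∀ r, MeasurableSet {y : ℝ | y + h ∈ J n r} := fun r =>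
    (measurable_add_const h) (hJ r)
  set p := volume (P n) with hp
  have hout : ∀ r, volume {y : ℝ | y ∈ J n r ∧ y + h ∉ J n r} ≤
      ENNReal.ofReal h ^ (2 * s) * p ^ (1 - 2 * s) := by
    intro r
    apply le_interp hs.le hs2 (crossing_out _ (D.ord n r) h hh)
    exact measure_mono fun y hy => D.sub n r hy.1
  have hin : ∀ r, volume {y : ℝ | y ∉ J n r ∧ y + h ∈ J n r} ≤
      ENNReal.ofReal h ^ (2 * s) * p ^ (1 - 2 * s) := by
    intro r
    apply le_interp hs.le hs2 (crossing_in _ (D.ord n r) h hh)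
    calc volume {y : ℝ | y ∉ J n r ∧ y + h ∈ J n r} ≤ volume {y : ℝ | y + h ∈ J n r} :=
          measure_mono fun y hy => hy.2
      _ = volume (J n r) := shift_vol _ _
      _ ≤ p := measure_mono (D.sub n r)
  have hmain : ENNReal.ofReal ((K * 2 ^ j * (2 ^ n * h) ^ s) ^ 2) * volume {y | y ∈ ⋃ r, J n r} ≤
      ENNReal.ofReal (K ^ 2 * ((2 ^ j) ^ 2 * h ^ (2 * s))) * p ^ (1 - 2 * s) := by
    have h1 : volume {y | y ∈ ⋃ r, J n r} ≤ p := measure_mono (iUnion_subset fun r => D.sub n r)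
    have h2 : p ≤ ENNReal.ofReal ((1 / 2 : ℝ) ^ (n + 1)) := D.vol_le n
    have h3 : volume {y | y ∈ ⋃ r, J n r} ≤
        ENNReal.ofReal ((1 / 2 : ℝ) ^ (n + 1)) ^ (2 * s) * p ^ (1 - 2 * s) :=
      le_interp hs.le hs2 (h1.trans h2) h1
    refine (mul_le_mul_right h3 _).trans ?_
    rw [← mul_assoc]
    apply mul_le_mul_left
    rw [ENNReal.ofReal_rpow_of_nonneg (by positivity) (by linarith),
      ← ENNReal.ofReal_mul (by positivity)]
    apply ENNReal.ofReal_le_ofReal
    have e1 : ((2 ^ n * h) ^ s) ^ 2 = (2 ^ n * h) ^ (2 * s) := by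
      rw [← Real.rpow_natCast, ← Real.rpow_mul (by positivity)]
      congr 1
      push_cast
      ring
    have e2 : (K * 2 ^ j * (2 ^ n * h) ^ s) ^ 2 = K ^ 2 * (2 ^ j) ^ 2 * (2 ^ n * h) ^ (2 * s) := by
      rw [mul_pow, mul_pow, e1]
    rw [e2, Real.mul_rpow (by positivity) hh.le]
    have e3 : ((2 : ℝ) ^ n) ^ (2 * s) * ((1 / 2 : ℝ) ^ (n + 1)) ^ (2 * s) ≤ 1 := by
      rw [← Real.mul_rpow (by positivity) (by positivity)]
      apply Real.rpow_le_one (by positivity) _ (by linarith)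
      rw [pow_succ, ← mul_assoc, ← mul_pow]
      norm_num
    calc K ^ 2 * (2 ^ j) ^ 2 * (((2 : ℝ) ^ n) ^ (2 * s) * h ^ (2 * s)) *
          ((1 / 2 : ℝ) ^ (n + 1)) ^ (2 * s)
        = K ^ 2 * ((2 ^ j) ^ 2 * h ^ (2 * s)) *
          (((2 : ℝ) ^ n) ^ (2 * s) * ((1 / 2 : ℝ) ^ (n + 1)) ^ (2 * s)) := by ring
      _ ≤ K ^ 2 * ((2 ^ j) ^ 2 * h ^ (2 * s)) * 1 := by gcongr
      _ = _ := mul_one _
  have hc : (0 : ℝ) ≤ 4 * (2 ^ j) ^ 2 := by positivity
  have hc2 : ENNReal.ofReal (4 * (2 ^ j) ^ 2) * (ENNReal.ofReal h ^ (2 * s) * p ^ (1 - 2 * s)) =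
      ENNReal.ofReal (4 * ((2 ^ j) ^ 2 * h ^ (2 * s))) * p ^ (1 - 2 * s) := by
    rw [← mul_assoc, ENNReal.ofReal_rpow_of_nonneg hh.le (by linarith),
      ← ENNReal.ofReal_mul (by positivity)]
    congr 2
    ring
  unfold term
  rw [lintegral_add_left, lintegral_add_left, lintegral_finsetSum, lintegral_finsetSum,
    lintegral_indicator_const]
  · have h2 : ∑ r, ∫⁻ y, {y | y ∈ J n r ∧ y + h ∉ J n r}.indicator
        (fun _ => ENNReal.ofReal (4 * (2 ^ j) ^ 2)) y ≤
        N * (ENNReal.ofReal (4 * ((2 ^ j) ^ 2 * h ^ (2 * s))) * p ^ (1 - 2 * s)) := by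
      refine (Finset.sum_le_card_nsmul _ _
        (ENNReal.ofReal (4 * ((2 ^ j) ^ 2 * h ^ (2 * s))) * p ^ (1 - 2 * s)) fun r _ => ?_).trans ?_
      · have hms : MeasurableSet {y : ℝ | y ∈ J n r ∧ y + h ∉ J n r} := (hJ r).inter (hJ2 r).compl
        rw [lintegral_indicator_const hms, ← hc2]
        gcongr
        exact hout r
      · simp
    have h3 : ∑ r, ∫⁻ y, {y | y ∉ J n r ∧ y + h ∈ J n r}.indicator
        (fun _ => ENNReal.ofReal (4 * (2 ^ j) ^ 2)) y ≤
        N * (ENNReal.ofReal (4 * ((2 ^ j) ^ 2 * h ^ (2 * s))) * p ^ (1 - 2 * s)) := by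
      refine (Finset.sum_le_card_nsmul _ _
        (ENNReal.ofReal (4 * ((2 ^ j) ^ 2 * h ^ (2 * s))) * p ^ (1 - 2 * s)) fun r _ => ?_).trans ?_
      · have hms : MeasurableSet {y : ℝ | y ∉ J n r ∧ y + h ∈ J n r} := (hJ r).compl.inter (hJ2 r)
        rw [lintegral_indicator_const hms, ← hc2]
        gcongr
        exact hin r
      · simp
    calc _ ≤ ENNReal.ofReal (K ^ 2 * ((2 ^ j) ^ 2 * h ^ (2 * s))) * p ^ (1 - 2 * s) +
          N * (ENNReal.ofReal (4 * ((2 ^ j) ^ 2 * h ^ (2 * s))) * p ^ (1 - 2 * s)) +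
          N * (ENNReal.ofReal (4 * ((2 ^ j) ^ 2 * h ^ (2 * s))) * p ^ (1 - 2 * s)) := by
          gcongr
      _ = (ENNReal.ofReal (K ^ 2 * ((2 ^ j) ^ 2 * h ^ (2 * s))) +
          N * ENNReal.ofReal (4 * ((2 ^ j) ^ 2 * h ^ (2 * s))) +
          N * ENNReal.ofReal (4 * ((2 ^ j) ^ 2 * h ^ (2 * s)))) * p ^ (1 - 2 * s) := by ring
      _ = _ := by
          congr 1
          rw [← ENNReal.ofReal_natCast, ← ENNReal.ofReal_mul (by positivity),
            ← ENNReal.ofReal_add (by positivity) (by positivity),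
            ← ENNReal.ofReal_add (by positivity) (by positivity)]
          congr 1
          ring
  · exact MeasurableSet.iUnion hJ
  · exact fun r _ => measurable_const.indicator ((hJ r).compl.inter (hJ2 r))
  · exact fun r _ => measurable_const.indicator ((hJ r).inter (hJ2 r).compl)
  · exact measurable_const.indicator (MeasurableSet.iUnion hJ)
  · exact (measurable_const.indicator (MeasurableSet.iUnion hJ)).add
      (Finset.measurable_sum _ fun r _ => measurable_const.indicator ((hJ r).inter (hJ2 r).compl))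

theorem LineData.estimate (D : LineData N K s f M J P m) (hK : 0 ≤ K) (hs : 0 < s)
    (hs2 : 2 * s < 1) (j : ℤ) (h : ℝ) (hh : 0 < h) :
    ∫⁻ y, ‖prt f M j (y + h) - prt f M j y‖ₑ ^ 2 ≤
      (ENNReal.ofReal (K ^ 2 + 8 * N) * sumConst (1 - 2 * s)) *
        ENNReal.ofReal ((2 ^ j) ^ 2 * h ^ (2 * s)) *
        volume {y | (2 : ℝ) ^ (j - 1) < M y ∧ M y ≤ 2 ^ j} ^ (1 - 2 * s) := by
  classical
  set c : ℝ≥0∞ := ENNReal.ofReal ((K ^ 2 + 8 * N) * ((2 ^ j) ^ 2 * h ^ (2 * s))) with hc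
  have hσ : 0 < 1 - 2 * s := by linarith
  calc ∫⁻ y, ‖prt f M j (y + h) - prt f M j y‖ₑ ^ 2
      ≤ ∫⁻ y, ∑' n, (lev m j).indicator (fun n => term K s h J j n y) n :=
        lintegral_mono (D.pointwise hK j h hh)
    _ = ∑' n, ∫⁻ y, (lev m j).indicator (fun n => term K s h J j n y) n := by
        rw [lintegral_tsum]
        intro n
        apply Measurable.aemeasurable
        by_cases hn : n ∈ lev m j
        · simp only [indicator_of_mem hn]
          exact term_meas D h j n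
        · simp only [indicator_of_notMem hn]
          exact measurable_const
    _ ≤ ∑' n, c * ((lev m j).indicator (fun n => volume (P n)) n) ^ (1 - 2 * s) := by
        apply ENNReal.tsum_le_tsum
        intro n
        by_cases hn : n ∈ lev m j
        · simp only [indicator_of_mem hn]
          exact term_int D hK hs hs2.le h hh j n
        · simp only [indicator_of_notMem hn, lintegral_zero]
          exact zero_le
    _ = c * ∑' n, ((lev m j).indicator (fun n => volume (P n)) n) ^ (1 - 2 * s) :=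
        ENNReal.tsum_mul_left
    _ ≤ c * (sumConst (1 - 2 * s) *
        (∑' n, (lev m j).indicator (fun n => volume (P n)) n) ^ (1 - 2 * s)) := by
        gcongr
        exact sum_lemma hσ (fun n => volume (P n)) D.vol_le D.vol_ge (lev m j)
    _ ≤ c * (sumConst (1 - 2 * s) *
        (volume {y | (2 : ℝ) ^ (j - 1) < M y ∧ M y ≤ 2 ^ j}) ^ (1 - 2 * s)) := by
        gcongr
        -- disjoint union
        have h1 : ∑' n, (lev m j).indicator (fun n => volume (P n)) n =
            volume (⋃ n, (if n ∈ lev m j then P n else ∅)) := by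
          rw [measure_iUnion]
          · congr 1
            ext n
            by_cases hn : n ∈ lev m j
            · simp [hn]
            · simp [hn]
          · intro a b hab
            simp only [Function.onFun]
            split_ifs
            · exact D.disj hab
            · exact disjoint_empty _
            · exact empty_disjoint _
            · exact disjoint_empty _
          · intro n
            split_ifs
            · exact D.meas n
            · exact MeasurableSet.empty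
        rw [h1]
        apply measure_mono
        intro y hy
        obtain ⟨n, hn⟩ := mem_iUnion.1 hy
        split_ifs at hn with hl
        · show (2 : ℝ) ^ (j - 1) < M y ∧ M y ≤ 2 ^ j
          rw [D.maj n y hn]
          exact hl
        · exact absurd hn (notMem_empty _)
    _ = _ := by
        rw [hc, ENNReal.ofReal_mul (by positivity)]
        ring

end

end Pool.Agent.H26.HD
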