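import Pool.Agent.H26.HD.Pieces
import Pool.Agent.H26.HD.Line
set_option autoImplicit false

/-!
# The majorant
-/

namespace Pool.Agent.H26.HD

open MeasureTheory Set Metric Complex
open scoped ENNReal NNReal

variable {U : Set ℂ} {F : ℂ → ℂ} {q : ℝ} {c : ℝ≥0∞}

/-- the points of `U` at distance about `2^(-n)` from the complement -/
def shell (U : Set ℂ) (n : ℕ) : Set ℂ :=
  {z | z ∈ U ∧ (1 / 2 : ℝ) ^ (n + 3) ≤ infDist z Uᶜ ∧ infDist z Uᶜ ≤ 2 * (1 / 2 : ℝ) ^ n}

/-- the integrand of `mass` -/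
noncomputable def ker (U : Set ℂ) (q : ℝ) (F : ℂ → ℂ) (n : ℕ) (p : ℝ × ℂ) : ℝ≥0∞ :=
  (shell U n).indicator (fun z => ‖F z‖ₑ ^ q) p.2 *
    {p : ℝ × ℂ | |p.2.re - p.1| ≤ (1 / 2 : ℝ) ^ n}.indicator (fun _ => 1) p

/-- the `q`-th power of the majorant on the `n`-th layer, over `x1` -/
noncomputable def mass (U : Set ℂ) (q : ℝ) (F : ℂ → ℂ) (n : ℕ) (x1 : ℝ) : ℝ≥0∞ :=
  4 ^ n * ∫⁻ z, ker U q F n (x1, z)

theorem ker_apply (U : Set ℂ) (q : ℝ) (F : ℂ → ℂ) (n : ℕ) (x1 : ℝ) (z : ℂ) :
    ker U q F n (x1, z) = (shell U n).indicator (fun z => ‖F z‖ₑ ^ q) z *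
      {p : ℝ × ℂ | |p.2.re - p.1| ≤ (1 / 2 : ℝ) ^ n}.indicator (fun _ => 1) (x1, z) := rfl

theorem shell_meas (hU : MeasurableSet U) (n : ℕ) : MeasurableSet (shell U n) := by
  have h1 : Measurable (fun z : ℂ => infDist z Uᶜ) := (continuous_infDist_pt _).measurable
  exact hU.inter ((measurableSet_le measurable_const h1).inter
    (measurableSet_le h1 measurable_const))

theorem shell_fun_meas (hU : MeasurableSet U) (hF : ContinuousOn F U) (n : ℕ) :
    Measurable ((shell U n).indicator (fun z => ‖F z‖ₑ ^ q)) := by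
  classical
  have h1 : Measurable (U.indicator F) := by
    rw [← Set.piecewise_eq_indicator]
    exact hF.measurable_piecewise continuousOn_const hU
  have e : (shell U n).indicator (fun z => ‖F z‖ₑ ^ q) =
      (shell U n).indicator (fun z => ‖U.indicator F z‖ₑ ^ q) := by
    ext z
    by_cases hz : z ∈ shell U n
    · rw [indicator_of_mem hz, indicator_of_mem hz, indicator_of_mem hz.1]
    · rw [indicator_of_notMem hz, indicator_of_notMem hz]
  rw [e]
  exact (h1.enorm.pow_const q).indicator (shell_meas hU n)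

theorem strip_meas (n : ℕ) : MeasurableSet {p : ℝ × ℂ | |p.2.re - p.1| ≤ (1 / 2 : ℝ) ^ n} := by
  apply measurableSet_le _ measurable_const
  fun_prop

theorem ker_meas (hU : MeasurableSet U) (hF : ContinuousOn F U) (n : ℕ) :
    Measurable (ker U q F n) := by
  unfold ker
  exact ((shell_fun_meas hU hF n).comp measurable_snd).mul
    (measurable_const.indicator (strip_meas n))

theorem mass_meas (hU : MeasurableSet U) (hF : ContinuousOn F U) (n : ℕ) :
    Measurable (mass U q F n) := by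
  unfold mass
  exact (Measurable.lintegral_prod_right' (ker_meas hU hF n)).const_mul _

theorem mass_le (n : ℕ) (x1 : ℝ) : mass U q F n x1 ≤ 4 ^ n * ∫⁻ z in U, ‖F z‖ₑ ^ q := by
  unfold mass
  refine mul_le_mul_right ?_ _
  calc ∫⁻ z, ker U q F n (x1, z) ≤ ∫⁻ z, U.indicator (fun z => ‖F z‖ₑ ^ q) z := by
        apply lintegral_mono
        intro z
        show ker U q F n (x1, z) ≤ _
        rw [ker_apply]
        by_cases hz : z ∈ shell U n
        · rw [indicator_of_mem hz, indicator_of_mem hz.1]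
          refine (mul_le_mul_right (indicator_le_self' (fun _ _ => zero_le) _ ) _).trans ?_
          simp
        · rw [indicator_of_notMem hz, zero_mul]
          exact zero_le
    _ ≤ ∫⁻ z in U, ‖F z‖ₑ ^ q := lintegral_indicator_le _ _

/-- the ball around a point of the layer is in the shell -/
theorem Good.ball_shell (hU : Good U) {b : Fin 3 → Bool} {n : ℕ} {x : ℂ}
    (hx : x ∈ piece U I b) (hn : x ∈ layer U n) :
    ball x ((1 / 2 : ℝ) ^ (n + 3)) ⊆ shell U n ∧
      ∀ z ∈ ball x ((1 / 2 : ℝ) ^ (n + 3)), |z.re - x.re| ≤ (1 / 2 : ℝ) ^ n := by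
  have hb := hU.piece_ball b hx
  obtain ⟨hxU, h1, h2⟩ := hn
  have e1 : (1 / 2 : ℝ) ^ (n + 1) = 1 / 2 * (1 / 2 : ℝ) ^ n := by rw [pow_succ]; ring
  have e3 : (1 / 2 : ℝ) ^ (n + 3) = 1 / 8 * (1 / 2 : ℝ) ^ n := by
    rw [pow_add]; ring
  have e0 : (0 : ℝ) < (1 / 2 : ℝ) ^ n := by positivity
  set e := ex U I x
  set t : ℝ := (1 / 2 : ℝ) ^ n with ht
  have hne : (Uᶜ : Set ℂ).Nonempty := ⟨x + e * I, hU.ex_notMem (by simp) hxU⟩
  constructor
  · intro z hz
    rw [mem_ball] at hz
    refine ⟨?_, ?_, ?_⟩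
    · apply hb
      rw [mem_ball]
      rw [e1] at h1
      rw [e3] at hz
      linarith
    · -- distance from the complement
      by_contra hc
      push Not at hc
      obtain ⟨w, hw, hw2⟩ := (infDist_lt_iff hne).1 hc
      apply hw
      apply hb
      rw [mem_ball, dist_comm]
      have h3 : dist x w ≤ dist z x + dist z w := by
        rw [dist_comm z x]
        exact dist_triangle _ _ _
      rw [e3] at hw2 hz
      rw [e1] at h1
      linarith
    · have h3 : infDist z Uᶜ ≤ dist z (x + e * I) :=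
        infDist_le_dist_of_mem (hU.ex_notMem (by simp) hxU)
      have h4 : dist z (x + e * I) ≤ dist z x + dist x (x + e * I) := dist_triangle _ _ _
      have h5 : dist x (x + e * I) = e := by
        rw [dist_eq_norm]
        have : x - (x + e * I) = -((e : ℂ) * I) := by ring
        rw [this, norm_neg, norm_mul, Complex.norm_I, mul_one, Complex.norm_real,
          Real.norm_eq_abs, abs_of_pos (hU.ex_pos (by simp) hxU)]
      rw [e3] at hz
      linarith
  · intro z hz
    rw [mem_ball, dist_eq_norm] at hz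
    have := Complex.abs_re_le_norm (z - x)
    rw [Complex.sub_re] at this
    rw [e3] at hz
    linarith

theorem Good.ball_le_mass (hU : Good U) {b : Fin 3 → Bool} {n : ℕ} {x : ℂ}
    (hx : x ∈ piece U I b) (hn : x ∈ layer U n) :
    4 ^ n * ∫⁻ z in ball x ((1 / 2 : ℝ) ^ (n + 3)), ‖F z‖ₑ ^ q ≤ mass U q F n x.re := by
  obtain ⟨h1, h2⟩ := hU.ball_shell hx hn
  unfold mass
  refine mul_le_mul_right ?_ _
  rw [← lintegral_indicator measurableSet_ball]
  apply lintegral_mono
  intro z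
  show _ ≤ ker U q F n (x.re, z)
  rw [ker_apply]
  by_cases hz : z ∈ ball x ((1 / 2 : ℝ) ^ (n + 3))
  · rw [indicator_of_mem hz, indicator_of_mem (h1 hz),
      indicator_of_mem (show (x.re, z) ∈ {p : ℝ × ℂ | |p.2.re - p.1| ≤ (1 / 2 : ℝ) ^ n} from
        h2 z hz), mul_one]
  · rw [indicator_of_notMem hz]
    exact zero_le

theorem strip_vol (z : ℂ) (n : ℕ) :
    ∫⁻ x1 : ℝ, {p : ℝ × ℂ | |p.2.re - p.1| ≤ (1 / 2 : ℝ) ^ n}.indicator (fun _ => (1 : ℝ≥0∞)) (x1, z)
      = ENNReal.ofReal (2 * (1 / 2 : ℝ) ^ n) := by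
  have e : (fun x1 : ℝ => {p : ℝ × ℂ | |p.2.re - p.1| ≤ (1 / 2 : ℝ) ^ n}.indicator
      (fun _ => (1 : ℝ≥0∞)) (x1, z)) =
      (Icc (z.re - (1 / 2 : ℝ) ^ n) (z.re + (1 / 2 : ℝ) ^ n)).indicator (fun _ => (1 : ℝ≥0∞)) := by
    ext x1
    by_cases h : |z.re - x1| ≤ (1 / 2 : ℝ) ^ n
    · rw [indicator_of_mem (show (x1, z) ∈ {p : ℝ × ℂ | |p.2.re - p.1| ≤ (1 / 2 : ℝ) ^ n} from h),
        indicator_of_mem]
      rw [abs_le] at h
      exact ⟨by linarith, by linarith⟩
    · rw [indicator_of_notMem (show (x1, z) ∉ {p : ℝ × ℂ | |p.2.re - p.1| ≤ (1 / 2 : ℝ) ^ n} from h),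
        indicator_of_notMem]
      intro hc
      apply h
      rw [abs_le]
      exact ⟨by linarith [hc.2], by linarith [hc.1]⟩
  rw [e, lintegral_indicator_const measurableSet_Icc, one_mul, Real.volume_Icc]
  congr 1
  ring

theorem mass_int (hU : MeasurableSet U) (hF : ContinuousOn F U) (n : ℕ) :
    ∫⁻ x1, mass U q F n x1 * ENNReal.ofReal ((1 / 2 : ℝ) ^ (n + 1)) =
      ∫⁻ z, (shell U n).indicator (fun z => ‖F z‖ₑ ^ q) z := by
  have h0 := ker_meas (q := q) hU hF n
  rw [lintegral_mul_const _ (mass_meas hU hF n)]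
  unfold mass
  rw [lintegral_const_mul _ (Measurable.lintegral_prod_right' h0)]
  have h1 : ∫⁻ x1, ∫⁻ z, ker U q F n (x1, z) =
      (∫⁻ z, (shell U n).indicator (fun z => ‖F z‖ₑ ^ q) z) *
        ENNReal.ofReal (2 * (1 / 2 : ℝ) ^ n) := by
    have hsw : ∫⁻ x1, ∫⁻ z, ker U q F n (x1, z) = ∫⁻ z, ∫⁻ x1, ker U q F n (x1, z) := by
      apply lintegral_lintegral_swap (f := fun (x1 : ℝ) (z : ℂ) => ker U q F n (x1, z))
      exact h0.aemeasurable
    rw [hsw, ← lintegral_mul_const _ (shell_fun_meas hU hF n)]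
    apply lintegral_congr
    intro z
    simp only [ker_apply]
    rw [lintegral_const_mul, strip_vol]
    exact (measurable_const.indicator (strip_meas n)).comp measurable_prodMk_right
  rw [h1]
  have h2 : (4 : ℝ≥0∞) ^ n = ENNReal.ofReal (4 ^ n) := by
    rw [ENNReal.ofReal_pow (by norm_num)]
    norm_num
  have h3 : ENNReal.ofReal (4 ^ n) * ENNReal.ofReal (2 * (1 / 2 : ℝ) ^ n) *
      ENNReal.ofReal ((1 / 2 : ℝ) ^ (n + 1)) = 1 := by
    rw [← ENNReal.ofReal_mul (by positivity), ← ENNReal.ofReal_mul (by positivity)]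
    have : (4 : ℝ) ^ n * (2 * (1 / 2 : ℝ) ^ n) * (1 / 2 : ℝ) ^ (n + 1) = 1 := by
      have e4 : (4 : ℝ) ^ n = 2 ^ n * 2 ^ n := by rw [← mul_pow]; norm_num
      have e5 : (2 : ℝ) ^ n * (1 / 2 : ℝ) ^ n = 1 := by rw [← mul_pow]; norm_num
      rw [e4, pow_succ]
      calc (2 : ℝ) ^ n * 2 ^ n * (2 * (1 / 2 : ℝ) ^ n) * ((1 / 2 : ℝ) ^ n * (1 / 2))
          = (2 ^ n * (1 / 2 : ℝ) ^ n) * (2 ^ n * (1 / 2 : ℝ) ^ n) := by ring
        _ = 1 := by rw [e5]; norm_num
    rw [this, ENNReal.ofReal_one]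
  calc 4 ^ n * ((∫⁻ z, (shell U n).indicator (fun z => ‖F z‖ₑ ^ q) z) *
        ENNReal.ofReal (2 * (1 / 2 : ℝ) ^ n)) * ENNReal.ofReal ((1 / 2 : ℝ) ^ (n + 1))
      = (4 ^ n * ENNReal.ofReal (2 * (1 / 2 : ℝ) ^ n) * ENNReal.ofReal ((1 / 2 : ℝ) ^ (n + 1))) *
        (∫⁻ z, (shell U n).indicator (fun z => ‖F z‖ₑ ^ q) z) := by ring
    _ = _ := by rw [h2, h3, one_mul]

/-- every point is in at most five shells -/
theorem shell_count (z : ℂ) (a : ℝ≥0∞) :
    ∑' n, (shell U n).indicator (fun _ => a) z ≤ 5 * U.indicator (fun _ => a) z := by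
  classical
  by_cases h : ∃ n, z ∈ shell U n
  · set n0 := Nat.find h with hn0
    have h0 : z ∈ shell U n0 := Nat.find_spec h
    have hmin : ∀ n, z ∈ shell U n → n0 ≤ n := fun n hn => Nat.find_min' h hn
    have hmax : ∀ n, z ∈ shell U n → n ≤ n0 + 4 := by
      intro n hn
      by_contra hc
      push Not at hc
      have h1 := h0.2.1
      have h2 := hn.2.2
      have h3 : (1 / 2 : ℝ) ^ n ≤ (1 / 2 : ℝ) ^ (n0 + 5) :=
        pow_le_pow_of_le_one (by norm_num) (by norm_num) hc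
      have e3 : (1 / 2 : ℝ) ^ (n0 + 3) = 4 * (1 / 2 : ℝ) ^ (n0 + 5) := by
        rw [pow_add, pow_add]; ring
      have e0 : (0 : ℝ) < (1 / 2 : ℝ) ^ (n0 + 5) := by positivity
      linarith
    rw [indicator_of_mem h0.1]
    rw [tsum_eq_sum (s := Finset.Icc n0 (n0 + 4))]
    · refine (Finset.sum_le_card_nsmul _ _ a fun n _ =>
        indicator_le_self' (fun _ _ => zero_le) _).trans ?_
      rw [Nat.card_Icc, show n0 + 4 + 1 - n0 = 5 by omega, nsmul_eq_mul]
      norm_num
    · intro n hn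
      apply indicator_of_notMem
      intro hc
      exact hn (Finset.mem_Icc.2 ⟨hmin n hc, hmax n hc⟩)
  · push Not at h
    have : ∑' n, (shell U n).indicator (fun _ => a) z = 0 := by
      simp [fun n => indicator_of_notMem (h n) (fun _ => a)]
    rw [this]
    exact zero_le

/-- the majorant on the `n`-th layer -/
noncomputable def mE (U : Set ℂ) (q : ℝ) (F : ℂ → ℂ) (c : ℝ≥0∞) (n : ℕ) (x1 : ℝ) : ℝ≥0∞ :=
  c * mass U q F n x1 ^ (1 / q)

/-- the majorant -/
noncomputable def MM (U : Set ℂ) (q : ℝ) (F : ℂ → ℂ) (c : ℝ≥0∞) (p : ℝ × ℝ) : ℝ :=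
  (∑' n, (layer U n).indicator (fun _ => mE U q F c n p.1) (p.1 + p.2 * I)).toReal

theorem mE_meas (hU : MeasurableSet U) (hF : ContinuousOn F U) (n : ℕ) :
    Measurable (mE U q F c n) := ((mass_meas hU hF n).pow_const _).const_mul _

theorem pt_meas : Measurable (fun p : ℝ × ℝ => (p.1 : ℂ) + p.2 * I) := by fun_prop

theorem Good.lay_meas (hU : Good U) (hF : ContinuousOn F U) (n : ℕ) :
    Measurable (fun p : ℝ × ℝ =>
      (layer U n).indicator (fun _ => mE U q F c n p.1) ((p.1 : ℂ) + p.2 * I)) := by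
  have e : (fun p : ℝ × ℝ =>
      (layer U n).indicator (fun _ => mE U q F c n p.1) ((p.1 : ℂ) + p.2 * I)) =
      {p : ℝ × ℝ | (p.1 : ℂ) + p.2 * I ∈ layer U n}.indicator (fun p => mE U q F c n p.1) := by
    ext p
    by_cases h : (p.1 : ℂ) + p.2 * I ∈ layer U n
    · rw [indicator_of_mem h,
        indicator_of_mem (show p ∈ {p : ℝ × ℝ | (p.1 : ℂ) + p.2 * I ∈ layer U n} from h)]
    · rw [indicator_of_notMem h,
        indicator_of_notMem (show p ∉ {p : ℝ × ℝ | (p.1 : ℂ) + p.2 * I ∈ layer U n} from h)]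
  rw [e]
  exact ((mE_meas hU.meas hF n).comp measurable_fst).indicator (pt_meas (hU.layer_meas n))

theorem Good.MM_meas (hU : Good U) (hF : ContinuousOn F U) : Measurable (MM U q F c) := by
  unfold MM
  exact (Measurable.tsum fun n => hU.lay_meas hF n).ennreal_toReal

theorem MM_layer (n : ℕ) {p : ℝ × ℝ} (h : (p.1 : ℂ) + p.2 * I ∈ layer U n) :
    MM U q F c p = (mE U q F c n p.1).toReal := by
  unfold MM
  congr 1
  rw [tsum_eq_single n]
  · rw [indicator_of_mem h]
  · intro k hk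
    apply indicator_of_notMem
    intro hc
    exact (Set.disjoint_left.1 (layer_disj hk)) hc h

theorem MM_off {p : ℝ × ℝ} (h : (p.1 : ℂ) + p.2 * I ∉ U) : MM U q F c p = 0 := by
  unfold MM
  have : ∀ n, (layer U n).indicator (fun _ => mE U q F c n p.1) ((p.1 : ℂ) + p.2 * I) = 0 :=
    fun n => indicator_of_notMem (fun hc => h hc.1) _
  simp [this]

theorem MM_int (hU : Good U) (hF : ContinuousOn F U) (hq : 0 < q) :
    ∫⁻ p : ℝ × ℝ, ENNReal.ofReal (MM U q F c p) ^ q ≤ 5 * c ^ q * ∫⁻ z in U, ‖F z‖ₑ ^ q := by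
  have h1 : ∀ p : ℝ × ℝ, ENNReal.ofReal (MM U q F c p) ^ q ≤
      ∑' n, ((layer U n).indicator (fun _ => mE U q F c n p.1) (p.1 + p.2 * I)) ^ q := by
    intro p
    by_cases h : ∃ n, (p.1 : ℂ) + p.2 * I ∈ layer U n
    · obtain ⟨n, hn⟩ := h
      refine le_trans ?_ (ENNReal.le_tsum n)
      rw [MM_layer n hn, indicator_of_mem hn]
      gcongr
      exact ENNReal.ofReal_toReal_le
    · have : (p.1 : ℂ) + p.2 * I ∉ U := fun hc => h (hU.layer_cover hc)
      rw [MM_off this, ENNReal.ofReal_zero, ENNReal.zero_rpow_of_pos hq]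
      exact zero_le
  calc ∫⁻ p : ℝ × ℝ, ENNReal.ofReal (MM U q F c p) ^ q
      ≤ ∫⁻ p : ℝ × ℝ, ∑' n, ((layer U n).indicator (fun _ => mE U q F c n p.1)
          ((p.1 : ℂ) + p.2 * I)) ^ q := lintegral_mono h1
    _ = ∑' n, ∫⁻ p : ℝ × ℝ, ((layer U n).indicator (fun _ => mE U q F c n p.1)
          ((p.1 : ℂ) + p.2 * I)) ^ q := by
        rw [lintegral_tsum]
        intro n
        exact ((hU.lay_meas hF n).pow_const q).aemeasurable
    _ ≤ ∑' n, c ^ q * ∫⁻ z, (shell U n).indicator (fun z => ‖F z‖ₑ ^ q) z := by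
        apply ENNReal.tsum_le_tsum
        intro n
        rw [Measure.volume_eq_prod, lintegral_prod _ ((hU.lay_meas hF n).pow_const q).aemeasurable,
          ← mass_int hU.meas hF n, ← lintegral_const_mul]
        · apply lintegral_mono
          intro x1
          show ∫⁻ y : ℝ, ((layer U n).indicator (fun _ => mE U q F c n x1)
            ((x1 : ℂ) + y * I)) ^ q ≤ _
          have e : (fun y : ℝ => ((layer U n).indicator (fun _ => mE U q F c n x1)
              ((x1 : ℂ) + y * I)) ^ q) =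
              (sec (layer U n) x1).indicator (fun _ => mE U q F c n x1 ^ q) := by
            ext y
            by_cases h : (x1 : ℂ) + y * I ∈ layer U n
            · rw [indicator_of_mem h, indicator_of_mem (show y ∈ sec (layer U n) x1 from h)]
            · rw [indicator_of_notMem h, indicator_of_notMem (show y ∉ sec (layer U n) x1 from h),
                ENNReal.zero_rpow_of_pos hq]
          rw [e, lintegral_indicator_const (sec_meas (hU.layer_meas n) x1)]
          have hv : volume (sec (layer U n) x1) ≤ ENNReal.ofReal ((1 / 2 : ℝ) ^ (n + 1)) :=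
            vol_le_of_dist _ _ fun u hu v hv _ => hU.layer_diam n x1 hu hv
          have hm : mE U q F c n x1 ^ q = c ^ q * mass U q F n x1 := by
            unfold mE
            rw [ENNReal.mul_rpow_of_nonneg _ _ hq.le, ← ENNReal.rpow_mul,
              one_div_mul_cancel hq.ne', ENNReal.rpow_one]
          rw [hm, mul_assoc]
          exact mul_le_mul_right (mul_le_mul_right hv _) _
        · exact (mass_meas hU.meas hF n).mul_const _
    _ = c ^ q * ∫⁻ z, ∑' n, (shell U n).indicator (fun z => ‖F z‖ₑ ^ q) z := by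
        rw [ENNReal.tsum_mul_left, lintegral_tsum]
        intro n
        exact (shell_fun_meas hU.meas hF n).aemeasurable
    _ ≤ c ^ q * (5 * ∫⁻ z in U, ‖F z‖ₑ ^ q) := by
        gcongr
        rw [← lintegral_indicator hU.meas, ← lintegral_const_mul' _ _ (by norm_num)]
        apply lintegral_mono
        intro z
        have := shell_count (U := U) z (‖F z‖ₑ ^ q)
        have e1 : ∀ n, (shell U n).indicator (fun z => ‖F z‖ₑ ^ q) z =
            (shell U n).indicator (fun _ => ‖F z‖ₑ ^ q) z := by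
          intro n
          by_cases h : z ∈ shell U n
          · rw [indicator_of_mem h, indicator_of_mem h]
          · rw [indicator_of_notMem h, indicator_of_notMem h]
        have e2 : U.indicator (fun z => ‖F z‖ₑ ^ q) z = U.indicator (fun _ => ‖F z‖ₑ ^ q) z := by
          by_cases h : z ∈ U
          · rw [indicator_of_mem h, indicator_of_mem h]
          · rw [indicator_of_notMem h, indicator_of_notMem h]
        simp only [e1, e2]
        exact this
    _ = _ := by ring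

end Pool.Agent.H26.HD
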