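import Pool.Agent.H26.HD.Geo
set_option autoImplicit false

/-!
# The pieces of a convex set
-/

namespace Pool.Agent.H26.HD

open MeasureTheory Set Metric Complex
open scoped ENNReal NNReal

variable {U : Set ℂ} {v w d x y : ℂ}

/-- a comparison, strict if `b` is true -/
def cmp (b : Bool) (s t : ℝ) : Prop := s ≤ t ∧ (b = true → s < t)

theorem cmp_true {s t : ℝ} : cmp true s t ↔ s < t := by
  unfold cmp
  constructor
  · intro h; exact h.2 rfl
  · intro h; exact ⟨h.le, fun _ => h⟩

theorem cmp_false {s t : ℝ} : cmp false s t ↔ s ≤ t := by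
  unfold cmp
  constructor
  · intro h; exact h.1
  · intro h; exact ⟨h, fun h => by simp at h⟩

/-- the other three directions, relative to the main one -/
noncomputable def oth : Fin 3 → ℂ := ![-1, -I, I]

/-- the points from which one leaves `U` in the direction `d` not later than in the three
other ones -/
def piece (U : Set ℂ) (d : ℂ) (b : Fin 3 → Bool) : Set ℂ :=
  {x | x ∈ U ∧ ∀ i, cmp (b i) (ex U d x) (ex U (d * oth i) x)}

theorem norm_oth (i : Fin 3) : ‖oth i‖ = 1 := by
  fin_cases i <;> simp [oth]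

theorem Good.line_conv (hU : Good U) (p d : ℂ) : Convex ℝ {y : ℝ | p + y * d ∈ U} := by
  apply Set.OrdConnected.convex
  constructor
  intro r hr t ht s hs
  exact hU.between hr ht hs.1 hs.2

theorem Good.line_conc (hU : Good U) (hw : ‖w‖ = 1) (hd : ‖d‖ = 1) (p : ℂ) :
    ConcaveOn ℝ {y : ℝ | p + y * d ∈ U}
      (fun y : ℝ => ex U w (p + y * d) - ex U d (p + y * d)) := by
  refine ⟨hU.line_conv p d, ?_⟩
  intro y hy z hz a b ha hb hab
  simp only [smul_eq_mul]
  set m : ℝ := a * y + b * z with hm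
  have e : (a : ℂ) * (p + y * d) + b * (p + z * d) = p + m * d := by
    have h1 : (a : ℂ) + b = 1 := by exact_mod_cast hab
    rw [hm]
    push_cast
    linear_combination p * h1
  have hmU : p + m * d ∈ U := by
    rw [← e]
    exact hU.seg hy hz ha hb hab
  have h1 := (hU.ex_concave hw).2 hy hz ha hb hab
  simp only [smul_eq_mul, Complex.real_smul] at h1
  rw [e] at h1
  have h2 : ex U d (p + m * d) = ex U d (p + y * d) - (m - y) := by
    have e2 : p + m * d = p + y * d + ((m - y : ℝ) : ℂ) * d := by push_cast; ring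
    rw [e2]
    apply hU.ex_shift hd hy
    rw [← e2]; exact hmU
  have h3 : ex U d (p + m * d) = ex U d (p + z * d) - (m - z) := by
    have e2 : p + m * d = p + z * d + ((m - z : ℝ) : ℂ) * d := by push_cast; ring
    rw [e2]
    apply hU.ex_shift hd hz
    rw [← e2]; exact hmU
  have h4 : ex U d (p + m * d) = a * ex U d (p + y * d) + b * ex U d (p + z * d) := by
    have h5 : ex U d (p + m * d) = a * ex U d (p + m * d) + b * ex U d (p + m * d) := by
      rw [← add_mul, hab, one_mul]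
    have h6 : a * ex U d (p + m * d) = a * ex U d (p + y * d) - a * (m - y) := by rw [h2]; ring
    have h7 : b * ex U d (p + m * d) = b * ex U d (p + z * d) - b * (m - z) := by rw [h3]; ring
    have h8 : a * (m - y) + b * (m - z) = 0 := by
      have : a * m + b * m = m := by rw [← add_mul, hab, one_mul]
      linarith
    linarith
  linarith

theorem Good.piece_ord (hU : Good U) (hd : ‖d‖ = 1) (b : Fin 3 → Bool) (p : ℂ) :
    {y : ℝ | p + y * d ∈ piece U d b}.OrdConnected := by
  apply Convex.ordConnected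
  have e : {y : ℝ | p + y * d ∈ piece U d b} = {y : ℝ | p + y * d ∈ U} ∩
      ⋂ i : Fin 3, {y : ℝ | p + y * d ∈ U ∧
        cmp (b i) (ex U d (p + y * d)) (ex U (d * oth i) (p + y * d))} := by
    ext y
    simp only [piece, mem_ofPred_eq, mem_inter_iff, mem_iInter]
    constructor
    · rintro ⟨h1, h2⟩; exact ⟨h1, fun i => ⟨h1, h2 i⟩⟩
    · rintro ⟨h1, h2⟩; exact ⟨h1, fun i => (h2 i).2⟩
  rw [e]
  apply (hU.line_conv p d).inter
  apply convex_iInter
  intro i
  have hc := hU.line_conc (w := d * oth i) (by rw [norm_mul, hd, norm_oth, mul_one]) hd p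
  cases hb : b i
  · have h1 := hc.convex_ge 0
    have e2 : {y : ℝ | p + y * d ∈ U ∧
        cmp false (ex U d (p + y * d)) (ex U (d * oth i) (p + y * d))} =
        {y ∈ {y : ℝ | p + y * d ∈ U} |
          0 ≤ ex U (d * oth i) (p + y * d) - ex U d (p + y * d)} := by
      ext y
      constructor
      · rintro ⟨h2, h3⟩
        exact ⟨h2, by rw [cmp_false] at h3; linarith⟩
      · rintro ⟨h2, h3⟩
        exact ⟨h2, by rw [cmp_false]; linarith⟩
    rw [e2]
    exact h1
  · have h1 := hc.convex_gt 0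
    have e2 : {y : ℝ | p + y * d ∈ U ∧
        cmp true (ex U d (p + y * d)) (ex U (d * oth i) (p + y * d))} =
        {y ∈ {y : ℝ | p + y * d ∈ U} |
          0 < ex U (d * oth i) (p + y * d) - ex U d (p + y * d)} := by
      ext y
      constructor
      · rintro ⟨h2, h3⟩
        exact ⟨h2, by rw [cmp_true] at h3; linarith⟩
      · rintro ⟨h2, h3⟩
        exact ⟨h2, by rw [cmp_true]; linarith⟩
    rw [e2]
    exact h1

/-- the exit time, `0` off `U` -/
noncomputable def exz (U : Set ℂ) (v : ℂ) : ℂ → ℝ := U.indicator (ex U v)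

theorem Good.meas (hU : Good U) : MeasurableSet U := hU.op.measurableSet

theorem Good.exz_meas (hU : Good U) (hv : ‖v‖ = 1) : Measurable (exz U v) := by
  classical
  unfold exz
  rw [← Set.piecewise_eq_indicator]
  exact (hU.ex_cont hv).measurable_piecewise continuousOn_const hU.meas

theorem Good.piece_meas (hU : Good U) (hd : ‖d‖ = 1) (b : Fin 3 → Bool) :
    MeasurableSet (piece U d b) := by
  have e : piece U d b = U ∩ ⋂ i : Fin 3, {x | cmp (b i) (exz U d x) (exz U (d * oth i) x)} := by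
    ext x
    simp only [piece, mem_inter_iff, mem_iInter]
    constructor
    · rintro ⟨h1, h2⟩
      refine ⟨h1, fun i => ?_⟩
      show cmp (b i) (exz U d x) (exz U (d * oth i) x)
      rw [exz, exz, indicator_of_mem h1, indicator_of_mem h1]
      exact h2 i
    · rintro ⟨h1, h2⟩
      refine ⟨h1, fun i => ?_⟩
      have h3 : cmp (b i) (exz U d x) (exz U (d * oth i) x) := h2 i
      rw [exz, exz, indicator_of_mem h1, indicator_of_mem h1] at h3
      exact h3
  rw [e]
  apply hU.meas.inter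
  apply MeasurableSet.iInter
  intro i
  have h1 := hU.exz_meas hd
  have h2 := hU.exz_meas (v := d * oth i) (by rw [norm_mul, hd, norm_oth, mul_one])
  cases hb : b i
  · simp only [cmp_false]
    exact measurableSet_le h1 h2
  · simp only [cmp_true]
    exact measurableSet_lt h1 h2

theorem piece_sub (b : Fin 3 → Bool) : piece U d b ⊆ U := fun _ h => h.1

theorem Good.piece_ball (hU : Good U) (b : Fin 3 → Bool) (hx : x ∈ piece U I b) :
    ball x (ex U I x / 2) ⊆ U := by
  obtain ⟨h1, h2⟩ := hx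
  have h3 := fun i => (h2 i).1
  have e0 : I * oth 0 = -I := by simp [oth]
  have e1 : I * oth 1 = 1 := by simp [oth]
  have e2 : I * oth 2 = -1 := by simp [oth]
  have c0 := h3 0
  have c1 := h3 1
  have c2 := h3 2
  rw [e0] at c0
  rw [e1] at c1
  rw [e2] at c2
  apply hU.ball_sub h1
  · intro r hr hr2; exact hU.ex_mem h1 hr hr2
  · intro r hr hr2; exact hU.ex_mem h1 hr (lt_of_lt_of_le hr2 c0)
  · intro r hr hr2; exact hU.ex_mem h1 hr (lt_of_lt_of_le hr2 c1)
  · intro r hr hr2; exact hU.ex_mem h1 hr (lt_of_lt_of_le hr2 c2)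

/-- the layers -/
def layer (U : Set ℂ) (n : ℕ) : Set ℂ :=
  {x | x ∈ U ∧ (1 / 2 : ℝ) ^ (n + 1) < ex U I x ∧ ex U I x ≤ (1 / 2 : ℝ) ^ n}

theorem Good.layer_meas (hU : Good U) (n : ℕ) : MeasurableSet (layer U n) := by
  have e : layer U n = U ∩ ({x | (1 / 2 : ℝ) ^ (n + 1) < exz U I x} ∩
      {x | exz U I x ≤ (1 / 2 : ℝ) ^ n}) := by
    ext x
    constructor
    · rintro ⟨h1, h2, h3⟩
      refine ⟨h1, ?_, ?_⟩
      · show _ < exz U I x
        rw [exz, indicator_of_mem h1]; exact h2
      · show exz U I x ≤ _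
        rw [exz, indicator_of_mem h1]; exact h3
    · rintro ⟨h1, h2, h3⟩
      have h2' : (1 / 2 : ℝ) ^ (n + 1) < exz U I x := h2
      have h3' : exz U I x ≤ (1 / 2 : ℝ) ^ n := h3
      rw [exz, indicator_of_mem h1] at h2' h3'
      exact ⟨h1, h2', h3'⟩
  rw [e]
  have h1 := hU.exz_meas (v := I) (by simp)
  exact hU.meas.inter ((measurableSet_lt measurable_const h1).inter
    (measurableSet_le h1 measurable_const))

theorem layer_sub (n : ℕ) : layer U n ⊆ U := fun _ h => h.1

theorem layer_disj : Pairwise (Function.onFun Disjoint (layer U)) := by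
  have key : ∀ n k : ℕ, n < k → Disjoint (layer U n) (layer U k) := by
    intro n k hnk
    rw [Set.disjoint_left]
    rintro x ⟨_, h1, _⟩ ⟨_, _, h2⟩
    have : (1 / 2 : ℝ) ^ k ≤ (1 / 2 : ℝ) ^ (n + 1) :=
      pow_le_pow_of_le_one (by norm_num) (by norm_num) hnk
    linarith
  intro n k hnk
  rcases lt_or_gt_of_ne hnk with h | h
  · exact key n k h
  · exact (key k n h).symm

theorem Good.layer_cover (hU : Good U) (hx : x ∈ U) : ∃ n, x ∈ layer U n := by
  have h0 := hU.ex_pos (v := I) (by simp) hx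
  have h1 := hU.ex_le_one (v := I) (by simp) hx
  obtain ⟨n, hn1, hn2⟩ := exists_nat_pow_near_of_lt_one h0 h1 (y := (1 / 2 : ℝ)) (by norm_num)
    (by norm_num)
  exact ⟨n, hx, hn1, hn2⟩

/-- the section by a vertical line -/
def sec (A : Set ℂ) (x1 : ℝ) : Set ℝ := {y : ℝ | (x1 : ℂ) + y * I ∈ A}

theorem sec_mono {A B : Set ℂ} (h : A ⊆ B) (x1 : ℝ) : sec A x1 ⊆ sec B x1 := fun _ hy => h hy

theorem sec_meas {A : Set ℂ} (h : MeasurableSet A) (x1 : ℝ) : MeasurableSet (sec A x1) := by
  have : Measurable (fun y : ℝ => (x1 : ℂ) + y * I) := by fun_prop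
  exact this h

theorem Good.ex_sec (hU : Good U) {x1 y z : ℝ} (hy : y ∈ sec U x1) (hz : z ∈ sec U x1) :
    ex U I (x1 + z * I) = ex U I (x1 + y * I) - (z - y) := by
  have e : (x1 : ℂ) + z * I = x1 + y * I + ((z - y : ℝ) : ℂ) * I := by push_cast; ring
  rw [e]
  apply hU.ex_shift (by simp) hy
  rw [← e]; exact hz

theorem Good.sec_ord (hU : Good U) (x1 : ℝ) : (sec U x1).OrdConnected :=
  (hU.line_conv x1 I).ordConnected

theorem Good.layer_ord (hU : Good U) (n : ℕ) (x1 : ℝ) : (sec (layer U n) x1).OrdConnected := by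
  constructor
  intro y hy z hz w hw
  have hwU : w ∈ sec U x1 := (hU.sec_ord x1).out hy.1 hz.1 hw
  have h1 := hU.ex_sec (show y ∈ sec U x1 from hy.1) hwU
  have h2 := hU.ex_sec (show z ∈ sec U x1 from hz.1) hwU
  refine ⟨hwU, ?_, ?_⟩
  · rw [h2]; have := hz.2.1; linarith [hw.2]
  · rw [h1]; have := hy.2.2; linarith [hw.1]

theorem Good.layer_diam (hU : Good U) (n : ℕ) (x1 : ℝ) {y z : ℝ} (hy : y ∈ sec (layer U n) x1)
    (hz : z ∈ sec (layer U n) x1) : z - y ≤ (1 / 2 : ℝ) ^ (n + 1) := by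
  have h1 := hU.ex_sec (show y ∈ sec U x1 from hy.1) (show z ∈ sec U x1 from hz.1)
  have h2 := hy.2.2
  have h3 := hz.2.1
  have h4 : (1 / 2 : ℝ) ^ n = 2 * (1 / 2 : ℝ) ^ (n + 1) := by rw [pow_succ]; ring
  linarith

theorem Good.layer_vol_ge (hU : Good U) {n k : ℕ} (hnk : n < k) (x1 : ℝ)
    (h : (sec (layer U n) x1).Nonempty) :
    ENNReal.ofReal ((1 / 2 : ℝ) ^ (k + 1)) ≤ volume (sec (layer U k) x1) := by
  obtain ⟨y, hy⟩ := h
  set e := ex U I (x1 + y * I) with he
  have h1 : (1 / 2 : ℝ) ^ (n + 1) < e := hy.2.1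
  have h2 : (1 / 2 : ℝ) ^ k ≤ (1 / 2 : ℝ) ^ (n + 1) :=
    pow_le_pow_of_le_one (by norm_num) (by norm_num) hnk
  have h4 : (1 / 2 : ℝ) ^ k = 2 * (1 / 2 : ℝ) ^ (k + 1) := by rw [pow_succ]; ring
  have h5 : (0 : ℝ) < (1 / 2 : ℝ) ^ (k + 1) := by positivity
  have hsub : Ico (y + e - (1 / 2 : ℝ) ^ k) (y + e - (1 / 2 : ℝ) ^ (k + 1)) ⊆
      sec (layer U k) x1 := by
    intro z hz
    have hz1 : 0 ≤ z - y := by linarith [hz.1]
    have hz2 : z - y < e := by linarith [hz.2]
    have hzU : z ∈ sec U x1 := by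
      have := hU.ex_mem (v := I) (show (x1 : ℂ) + y * I ∈ U from hy.1) hz1 hz2
      have e2 : (x1 : ℂ) + y * I + ((z - y : ℝ) : ℂ) * I = x1 + z * I := by push_cast; ring
      rw [e2] at this
      exact this
    have h6 := hU.ex_sec (show y ∈ sec U x1 from hy.1) hzU
    refine ⟨hzU, ?_, ?_⟩
    · rw [h6]; linarith [hz.2]
    · rw [h6]; linarith [hz.1]
  calc ENNReal.ofReal ((1 / 2 : ℝ) ^ (k + 1))
      = volume (Ico (y + e - (1 / 2 : ℝ) ^ k) (y + e - (1 / 2 : ℝ) ^ (k + 1))) := by
        rw [Real.volume_Ico]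
        congr 1
        linarith
    _ ≤ _ := measure_mono hsub

end Pool.Agent.H26.HD
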