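import Pool.Agent.H26.HD.Harm
import Pool.Graph.R_seed8.Helper240.ZFM.Q5b
set_option autoImplicit false

/-!
# Polynomial densities on comb domains are dense
-/

namespace Pool.Agent.H26.HD

open MeasureTheory Set Metric Complex Filter Topology
open scoped ENNReal NNReal

/-- open subsets of the disc containing its real diameter and, with each point, the vertical
segment from that point to the diameter -/
structure Comb (U : Set ℂ) : Prop where
  op : IsOpen U
  sub : U ⊆ ball 0 (1 / 2)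
  real : ∀ x : ℝ, |x| < 1 / 2 → (x : ℂ) ∈ U
  vert : ∀ z ∈ U, ∀ t ∈ Icc (0 : ℝ) 1, (z.re : ℂ) + ((t * z.im : ℝ) : ℂ) * I ∈ U

/-- a union of vertical segments -/
def KK (O : Set ℝ) : Set ℂ := {z | (z.re ∈ Icc (-(1 / 2) : ℝ) (1 / 2) ∧ z.re ∉ O) ∧
  z.im ∈ Icc (-(1 / 2) : ℝ) (1 / 2)}

variable {O : Set ℝ}

theorem KK_closed (hO : IsOpen O) : IsClosed (KK O) := by
  unfold KK
  apply IsClosed.inter (IsClosed.inter _ _) _
  · exact isClosed_Icc.preimage Complex.continuous_re
  · exact (hO.preimage Complex.continuous_re).isClosed_compl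
  · exact isClosed_Icc.preimage Complex.continuous_im

theorem KK_compact (hO : IsOpen O) : IsCompact (KK O) := by
  apply Metric.isCompact_of_isClosed_isBounded (KK_closed hO)
  apply (isBounded_iff_forall_norm_le).2 ⟨1, ?_⟩
  rintro z ⟨⟨h1, _⟩, h2⟩
  refine (Complex.norm_le_abs_re_add_abs_im z).trans ?_
  have := abs_le.2 h1
  have := abs_le.2 h2
  linarith

theorem line_conv (a : ℝ) : IsPreconnected {z : ℂ | z.re = a} := by
  apply Convex.isPreconnected
  intro x hx y hy s t hs ht hst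
  simp only [mem_ofPred_eq] at hx hy ⊢
  simp only [Complex.add_re, Complex.real_smul, Complex.mul_re, Complex.ofReal_re,
    Complex.ofReal_im, zero_mul, sub_zero, hx, hy]
  rw [← add_mul, hst, one_mul]

theorem up_conv : IsPreconnected {z : ℂ | 1 / 2 < z.im} :=
  (convex_halfSpace_im_gt _).isPreconnected

theorem dn_conv : IsPreconnected {z : ℂ | z.im < -(1 / 2)} :=
  (convex_halfSpace_im_lt _).isPreconnected

theorem T0_conn : IsPreconnected (({z : ℂ | z.re = 2} ∪ {z : ℂ | 1 / 2 < z.im}) ∪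
    {z : ℂ | z.im < -(1 / 2)}) := by
  apply IsPreconnected.union (2 - I) _ _ _ dn_conv
  · left; simp
  · simp only [mem_ofPred_eq, Complex.sub_im, Complex.im_ofNat, Complex.I_im]
    norm_num
  apply IsPreconnected.union (2 + I) _ _ (line_conv 2) up_conv
  · simp
  · simp only [mem_ofPred_eq, Complex.add_im, Complex.im_ofNat, Complex.I_im]
    norm_num

theorem KK_compl_conn (O : Set ℝ) : IsConnected (KK O)ᶜ := by
  have hsub : (({z : ℂ | z.re = 2} ∪ {z : ℂ | 1 / 2 < z.im}) ∪
    {z : ℂ | z.im < -(1 / 2)}) ⊆ (KK O)ᶜ := by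
    rintro z ((h | h) | h) ⟨⟨h1, _⟩, h2⟩
    · simp only [mem_ofPred_eq] at h
      rw [h] at h1
      norm_num at h1
    · simp only [mem_ofPred_eq] at h
      linarith [h2.2]
    · simp only [mem_ofPred_eq] at h
      linarith [h2.1]
  refine ⟨⟨2, hsub (by left; left; simp)⟩, ?_⟩
  apply isPreconnected_of_forall (2 : ℂ)
  intro y hy
  by_cases h0 : y ∈ (({z : ℂ | z.re = 2} ∪ {z : ℂ | 1 / 2 < z.im}) ∪
    {z : ℂ | z.im < -(1 / 2)})
  · exact ⟨_, hsub, by left; left; simp, h0, T0_conn⟩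
  · have h1 : y.im ∈ Icc (-(1 / 2) : ℝ) (1 / 2) := by
      constructor
      · by_contra h
        exact h0 (Or.inr (by simpa using h))
      · by_contra h
        exact h0 (Or.inl (Or.inr (by simpa using h)))
    have h2 : ¬ (y.re ∈ Icc (-(1 / 2) : ℝ) (1 / 2) ∧ y.re ∉ O) := fun h => hy ⟨h, h1⟩
    refine ⟨(({z : ℂ | z.re = 2} ∪ {z : ℂ | 1 / 2 < z.im}) ∪
      {z : ℂ | z.im < -(1 / 2)}) ∪ {z : ℂ | z.re = y.re}, ?_, Or.inl (by left; left; simp),
      Or.inr rfl, ?_⟩
    · apply union_subset hsub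
      rintro z hz ⟨h3, _⟩
      simp only [mem_ofPred_eq] at hz
      rw [hz] at h3
      exact h2 h3
    · apply IsPreconnected.union ((y.re : ℂ) + I) _ _ T0_conn (line_conv _)
      · left; right
        simp only [mem_ofPred_eq, Complex.add_im, Complex.ofReal_im, Complex.I_im]
        norm_num
      · simp

theorem KK_interior (hQ : ∀ r : ℚ, (r : ℝ) ∈ O) : interior (KK O) = ∅ := by
  rw [Set.eq_empty_iff_forall_notMem]
  intro z hz
  obtain ⟨ε, hε, hb⟩ := Metric.isOpen_iff.1 isOpen_interior z hz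
  obtain ⟨r, hr1, hr2⟩ := exists_rat_btwn (show z.re < z.re + ε by linarith)
  have h1 : ((r : ℝ) : ℂ) + (z.im : ℂ) * I ∈ ball z ε := by
    rw [mem_ball, dist_eq_norm]
    have : ((r : ℝ) : ℂ) + (z.im : ℂ) * I - z = (((r : ℝ) - z.re : ℝ) : ℂ) := by
      apply Complex.ext <;> simp
    rw [this, Complex.norm_real, Real.norm_eq_abs, abs_of_pos (by linarith)]
    linarith
  have h2 := interior_subset (hb h1)
  apply h2.1.2
  have : (((r : ℝ) : ℂ) + (z.im : ℂ) * I).re = r := by simp
  rw [this]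
  exact hQ r

/-- polynomial approximation on the comb -/
theorem merg (hO : IsOpen O) (hQ : ∀ r : ℚ, (r : ℝ) ∈ O) {g : ℂ → ℂ} (hg : Continuous g)
    {ε : ℝ} (hε : 0 < ε) : ∃ p : Polynomial ℂ, ∀ z ∈ KK O, ‖p.eval z - g z‖ < ε := by
  apply ZFM.J_q5b.mergelyan (KK_compact hO) (KK_compl_conn O) g hg.continuousOn _ ε hε
  rw [KK_interior hQ]
  exact differentiableOn_empty

/-- a small open set containing the rationals -/
theorem exists_O {η : ℝ} (hη : 0 < η) : ∃ O : Set ℝ, IsOpen O ∧ (∀ r : ℚ, (r : ℝ) ∈ O) ∧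
    volume O ≤ ENNReal.ofReal η := by
  have h0 : volume (range ((↑) : ℚ → ℝ)) = 0 := (countable_range _).measure_zero _
  obtain ⟨O, h1, h2, h3⟩ := (range ((↑) : ℚ → ℝ)).exists_isOpen_lt_of_lt (ENNReal.ofReal η)
    (μ := volume) (by rw [h0]; simpa using hη)
  exact ⟨O, h2, fun r => h1 ⟨r, rfl⟩, h3.le⟩

theorem vol_box (S T : Set ℝ) : volume {z : ℂ | z.re ∈ S ∧ z.im ∈ T} = volume S * volume T := by
  have : {z : ℂ | z.re ∈ S ∧ z.im ∈ T} = Complex.measurableEquivRealProd ⁻¹' (S ×ˢ T) := by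
    ext z
    simp [Complex.measurableEquivRealProd_apply]
  rw [this, Complex.volume_preserving_equiv_real_prod.measure_preimage_equiv,
    Measure.volume_eq_prod, Measure.prod_prod]

theorem abs_im_lt {z : ℂ} (hz : z ∈ ball (0 : ℂ) (1 / 2)) : |z.im| < 1 / 2 := by
  rw [mem_ball_zero_iff] at hz
  exact (Complex.abs_im_le_norm z).trans_lt hz

theorem abs_re_lt {z : ℂ} (hz : z ∈ ball (0 : ℂ) (1 / 2)) : |z.re| < 1 / 2 := by
  rw [mem_ball_zero_iff] at hz
  exact (Complex.abs_re_le_norm z).trans_lt hz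

theorem vol_re (S : Set ℝ) : volume (ball (0 : ℂ) (1 / 2) ∩ {z : ℂ | z.re ∈ S}) ≤ volume S := by
  calc volume (ball (0 : ℂ) (1 / 2) ∩ {z : ℂ | z.re ∈ S}) ≤
        volume {z : ℂ | z.re ∈ S ∧ z.im ∈ Icc (-(1 / 2) : ℝ) (1 / 2)} := by
        apply measure_mono
        rintro z ⟨h1, h2⟩
        exact ⟨h2, abs_le.1 (abs_im_lt h1).le⟩
    _ = volume S := by
        rw [vol_box, Real.volume_Icc]
        norm_num

theorem vol_im (T : Set ℝ) : volume (ball (0 : ℂ) (1 / 2) ∩ {z : ℂ | z.im ∈ T}) ≤ volume T := by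
  calc volume (ball (0 : ℂ) (1 / 2) ∩ {z : ℂ | z.im ∈ T}) ≤
        volume {z : ℂ | z.re ∈ Icc (-(1 / 2) : ℝ) (1 / 2) ∧ z.im ∈ T} := by
        apply measure_mono
        rintro z ⟨h1, h2⟩
        exact ⟨abs_le.1 (abs_re_lt h1).le, h2⟩
    _ = volume T := by
        rw [vol_box, Real.volume_Icc]
        norm_num

/-- the comb domain -/
def UU (O : Set ℝ) (δ : ℝ) : Set ℂ := ball (0 : ℂ) (1 / 2) ∩ ({z | z.re ∈ O} ∪ {z | |z.im| < δ})

theorem UU_comb (hO : IsOpen O) {δ : ℝ} (hδ : 0 < δ) : Comb (UU O δ) := by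
  refine ⟨?_, inter_subset_left, ?_, ?_⟩
  · apply isOpen_ball.inter
    apply (hO.preimage Complex.continuous_re).union
    exact isOpen_lt (by fun_prop) continuous_const
  · intro x hx
    refine ⟨?_, Or.inr ?_⟩
    · rw [mem_ball_zero_iff, Complex.norm_real]; exact hx
    · simpa using hδ
  · rintro z ⟨h1, h2⟩ t ht
    refine ⟨?_, ?_⟩
    · rw [mem_ball_zero_iff] at h1 ⊢
      refine lt_of_le_of_lt ?_ h1
      rw [← sq_le_sq₀ (norm_nonneg _) (norm_nonneg _), Complex.sq_norm, Complex.sq_norm,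
        Complex.normSq_apply, Complex.normSq_apply]
      simp only [Complex.add_re, Complex.ofReal_re, Complex.mul_re, Complex.I_re, mul_zero,
        Complex.ofReal_im, Complex.I_im, mul_one, sub_self, add_zero, Complex.add_im,
        Complex.mul_im, zero_add]
      have : (t * z.im) * (t * z.im) ≤ z.im * z.im := by
        have h3 : t * t ≤ 1 := by nlinarith [ht.1, ht.2]
        nlinarith [mul_self_nonneg z.im]
      linarith
    · rcases h2 with h2 | h2
      · left
        simpa using h2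
      · right
        simp only [mem_ofPred_eq, Complex.add_im, Complex.ofReal_im, Complex.mul_im,
          Complex.ofReal_re, Complex.I_im, mul_one, Complex.I_re, mul_zero, add_zero, zero_add]
        rw [abs_mul, abs_of_nonneg ht.1]
        calc t * |z.im| ≤ 1 * |z.im| := by gcongr; exact ht.2
          _ < δ := by rw [one_mul]; exact h2

/-- the disc -/
noncomputable def mB : Measure ℂ := volume.restrict (ball (0 : ℂ) (1 / 2))

instance : IsFiniteMeasure mB := by
  unfold mB
  exact isFiniteMeasure_restrict.2 measure_ball_lt_top.ne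

theorem mB_le : mB univ ≤ 1 := by
  unfold mB
  rw [Measure.restrict_apply_univ]
  have := vol_re univ
  calc volume (ball (0 : ℂ) (1 / 2)) ≤
        volume {z : ℂ | z.re ∈ Icc (-(1 / 2) : ℝ) (1 / 2) ∧ z.im ∈ Icc (-(1 / 2) : ℝ) (1 / 2)} := by
        apply measure_mono
        intro z h1
        exact ⟨abs_le.1 (abs_re_lt h1).le, abs_le.1 (abs_im_lt h1).le⟩
    _ = 1 := by
        rw [vol_box, Real.volume_Icc]
        norm_num

/-- density of polynomials on combs -/
theorem dens {q : ℝ≥0∞} (hq1 : 1 ≤ q) (hq : q ≠ ∞) {f : ℂ → ℂ} (hf : MemLp f q mB)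
    {ε : ℝ} (hε : 0 < ε) : ∃ U, Comb U ∧ ∃ p : Polynomial ℂ,
      eLpNorm (U.indicator (fun z => p.eval z) - f) q mB ≤ ENNReal.ofReal ε := by
  have hε4 : 0 < ε / 4 := by positivity
  obtain ⟨g, -, h1, hgc, hgm⟩ := hf.exists_hasCompactSupport_eLpNorm_sub_le hq
    (ε := ENNReal.ofReal (ε / 4)) (by simpa using hε)
  obtain ⟨δ1, hδ1, h2⟩ := hgm.eLpNorm_indicator_le hq1 hq hε4
  obtain ⟨O, hO, hQ, hOv⟩ := exists_O hδ1
  obtain ⟨p, hp⟩ := merg hO hQ hgc hε4
  have hpm : MemLp (fun z : ℂ => p.eval z) q mB := by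
    obtain ⟨C, hC⟩ := (isCompact_closedBall (0 : ℂ) (1 / 2)).exists_bound_of_continuousOn
      (f := fun z : ℂ => p.eval z) (by fun_prop)
    apply MemLp.of_bound (C := C)
    · exact (by fun_prop : Continuous (fun z : ℂ => p.eval z)).aestronglyMeasurable
    · unfold mB
      rw [ae_restrict_iff' measurableSet_ball]
      exact Eventually.of_forall fun z hz => hC z (ball_subset_closedBall hz)
  obtain ⟨δ2, hδ2, h3⟩ := hpm.eLpNorm_indicator_le hq1 hq hε4
  set A : Set ℝ := Icc (-(1 / 2) : ℝ) (1 / 2) \ O with hA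
  have hAf : volume A ≠ ∞ := by
    apply ne_top_of_le_ne_top _ (measure_mono (sdiff_subset : A ⊆ Icc (-(1 / 2) : ℝ) (1 / 2)))
    simp
  obtain ⟨O2, h4, h5, h6⟩ := A.exists_isOpen_lt_of_lt (μ := volume)
    (volume A + ENNReal.ofReal (δ2 / 2)) (by
      apply ENNReal.lt_add_right hAf
      simpa using hδ2)
  have hAm : MeasurableSet A := measurableSet_Icc.diff hO.measurableSet
  have h7 : volume (O2 \ A) ≤ ENNReal.ofReal (δ2 / 2) := by
    rw [measure_sdiff h4 hAm.nullMeasurableSet hAf]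
    rw [tsub_le_iff_left]
    exact h6.le
  set U : Set ℂ := UU O2 (δ2 / 4) with hU
  have hUc : Comb U := UU_comb h5 (by positivity)
  refine ⟨U, hUc, p, ?_⟩
  set K := KK O with hK
  have hKm : MeasurableSet K := (KK_closed hO).measurableSet
  have hKc := hKm.compl
  have e1 : ∀ᵐ z ∂mB, (U.indicator (fun z => p.eval z) - f) z =
      (K.indicator (fun z => p.eval z - g z) + ((U \ K).indicator (fun z => p.eval z)) +
      (-(Kᶜ.indicator g)) + (-(f - g))) z := by
    unfold mB
    rw [ae_restrict_iff' measurableSet_ball]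
    apply Eventually.of_forall
    intro z hz
    simp only [Pi.add_apply, Pi.sub_apply, Pi.neg_apply]
    by_cases hzK : z ∈ K
    · have hzU : z ∈ U := ⟨hz, Or.inl (h4 ⟨hzK.1.1, hzK.1.2⟩)⟩
      rw [indicator_of_mem hzU, indicator_of_mem hzK,
        indicator_of_notMem (show z ∉ U \ K from fun h => h.2 hzK),
        indicator_of_notMem (show z ∉ Kᶜ from fun h => h hzK)]
      ring
    · by_cases hzU : z ∈ U
      · rw [indicator_of_mem hzU, indicator_of_notMem hzK,
          indicator_of_mem (show z ∈ U \ K from ⟨hzU, hzK⟩),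
          indicator_of_mem (show z ∈ Kᶜ from hzK)]
        ring
      · rw [indicator_of_notMem hzU, indicator_of_notMem hzK,
          indicator_of_notMem (show z ∉ U \ K from fun h => hzU h.1),
          indicator_of_mem (show z ∈ Kᶜ from hzK)]
        ring
  rw [eLpNorm_congr_ae e1]
  have hUm : MeasurableSet U := hUc.op.measurableSet
  have m1 : AEStronglyMeasurable (K.indicator (fun z => p.eval z - g z)) mB :=
    ((by fun_prop : Continuous (fun z : ℂ => p.eval z - g z)).aestronglyMeasurable).indicator hKm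
  have m2 : AEStronglyMeasurable ((U \ K).indicator (fun z => p.eval z)) mB :=
    hpm.1.indicator (hUm.diff hKm)
  have m3 : AEStronglyMeasurable (-(Kᶜ.indicator g)) mB := (hgm.1.indicator hKc).neg
  have m4 : AEStronglyMeasurable (-(f - g)) mB := (hf.1.sub hgm.1).neg
  have b1 : eLpNorm (K.indicator (fun z => p.eval z - g z)) q mB ≤ ENNReal.ofReal (ε / 4) := by
    calc eLpNorm (K.indicator (fun z => p.eval z - g z)) q mB ≤
          (mB univ) ^ (q.toReal)⁻¹ * ENNReal.ofReal (ε / 4) := by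
          apply eLpNorm_le_of_ae_bound
          apply Eventually.of_forall
          intro z
          by_cases hz : z ∈ K
          · rw [indicator_of_mem hz]
            exact (hp z hz).le
          · rw [indicator_of_notMem hz, norm_zero]
            positivity
      _ ≤ 1 * ENNReal.ofReal (ε / 4) := by
          gcongr
          apply ENNReal.rpow_le_one mB_le
          positivity
      _ = _ := one_mul _
  have b2 : eLpNorm ((U \ K).indicator (fun z => p.eval z)) q mB ≤ ENNReal.ofReal (ε / 4) := by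
    apply h3 _ (hUm.diff hKm)
    unfold mB
    rw [Measure.restrict_apply (hUm.diff hKm)]
    calc volume ((U \ K) ∩ ball (0 : ℂ) (1 / 2)) ≤
          volume ((ball (0 : ℂ) (1 / 2) ∩ {z : ℂ | z.re ∈ O2 \ A}) ∪
            (ball (0 : ℂ) (1 / 2) ∩ {z : ℂ | z.im ∈ Ioo (-(δ2 / 4)) (δ2 / 4)})) := by
          apply measure_mono
          rintro z ⟨⟨⟨hz1, hz2⟩, hz3⟩, hz4⟩
          rcases hz2 with hz2 | hz2
          · left
            refine ⟨hz1, hz2, ?_⟩
            rintro ⟨hz5, hz6⟩
            exact hz3 ⟨⟨hz5, hz6⟩, abs_le.1 (abs_im_lt hz1).le⟩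
          · right
            exact ⟨hz1, abs_lt.1 hz2⟩
      _ ≤ volume (O2 \ A) + volume (Ioo (-(δ2 / 4)) (δ2 / 4)) :=
          (measure_union_le _ _).trans (add_le_add (vol_re _) (vol_im _))
      _ ≤ ENNReal.ofReal (δ2 / 2) + ENNReal.ofReal (δ2 / 2) := by
          gcongr
          rw [Real.volume_Ioo]
          apply ENNReal.ofReal_le_ofReal
          linarith
      _ = ENNReal.ofReal δ2 := by
          rw [← ENNReal.ofReal_add (by positivity) (by positivity)]
          congr 1
          ring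
  have b3 : eLpNorm (-(Kᶜ.indicator g)) q mB ≤ ENNReal.ofReal (ε / 4) := by
    rw [eLpNorm_neg]
    apply h2 _ hKc
    unfold mB
    rw [Measure.restrict_apply hKc]
    calc volume (Kᶜ ∩ ball (0 : ℂ) (1 / 2)) ≤
          volume (ball (0 : ℂ) (1 / 2) ∩ {z : ℂ | z.re ∈ O}) := by
          apply measure_mono
          rintro z ⟨hz1, hz2⟩
          refine ⟨hz2, ?_⟩
          by_contra h
          exact hz1 ⟨⟨abs_le.1 (abs_re_lt hz2).le, h⟩, abs_le.1 (abs_im_lt hz2).le⟩
      _ ≤ volume O := vol_re _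
      _ ≤ _ := hOv
  have b4 : eLpNorm (-(f - g)) q mB ≤ ENNReal.ofReal (ε / 4) := by
    rw [eLpNorm_neg]
    exact h1
  calc _ ≤ eLpNorm (K.indicator (fun z => p.eval z - g z) +
        ((U \ K).indicator (fun z => p.eval z)) + (-(Kᶜ.indicator g))) q mB +
        eLpNorm (-(f - g)) q mB := eLpNorm_add_le ((m1.add m2).add m3) m4 hq1
    _ ≤ (eLpNorm (K.indicator (fun z => p.eval z - g z)) q mB +
        eLpNorm ((U \ K).indicator (fun z => p.eval z)) q mB +
        eLpNorm (-(Kᶜ.indicator g)) q mB) + eLpNorm (-(f - g)) q mB := by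
        gcongr
        refine (eLpNorm_add_le (m1.add m2) m3 hq1).trans ?_
        gcongr
        exact eLpNorm_add_le m1 m2 hq1
    _ ≤ (ENNReal.ofReal (ε / 4) + ENNReal.ofReal (ε / 4) + ENNReal.ofReal (ε / 4)) +
        ENNReal.ofReal (ε / 4) := by gcongr
    _ = ENNReal.ofReal ε := by
        rw [← ENNReal.ofReal_add (by positivity) (by positivity),
          ← ENNReal.ofReal_add (by positivity) (by positivity),
          ← ENNReal.ofReal_add (by positivity) (by positivity)]
        congr 1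
        ring

end Pool.Agent.H26.HD
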