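import Pool.Agent.H26.HD.Est
set_option autoImplicit false

/-!
# Rotations, and the estimate for one convex set
-/

namespace Pool.Agent.H26.HD

open MeasureTheory Set Metric Complex
open scoped ENNReal NNReal

/-- the phase -/
noncomputable def ph (x : ℂ) (ξ : ℂ × ℝ) : ℝ :=
  x.re * ξ.1.re + x.im * ξ.1.im + (x.re ^ 2 + x.im ^ 2) * ξ.2

/-- the extension operator -/
noncomputable def ext (U : Set ℂ) (f : ℂ → ℂ) (ξ : ℂ × ℝ) : ℂ :=
  ∫ x in U, cexp (-(I * (ph x ξ : ℂ))) * f x

variable {q s K : ℝ} {U : Set ℂ} {F f g : ℂ → ℂ} {c : ℂ}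

theorem mp_mul (hc : ‖c‖ = 1) : MeasurePreserving (fun z : ℂ => c * z) volume volume := by
  have h := (rotation ⟨c, by simp [Submonoid.unitSphere, hc]⟩).measurePreserving
  exact h

theorem mul_emb (hc : ‖c‖ = 1) : MeasurableEmbedding (fun z : ℂ => c * z) :=
  (Homeomorph.mulLeft₀ c (by intro h; rw [h] at hc; simp at hc)).measurableEmbedding

theorem ph_mul (hc : ‖c‖ = 1) (y : ℂ) (w : ℂ) (t : ℝ) :
    ph (c * y) (w, t) = ph y (starRingEnd ℂ c * w, t) := by
  have h : c.re ^ 2 + c.im ^ 2 = 1 := by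
    have := Complex.sq_norm c
    rw [hc, Complex.normSq_apply] at this
    nlinarith
  unfold ph
  simp only [Complex.mul_re, Complex.mul_im, Complex.conj_re, Complex.conj_im]
  have : (c.re * y.re - c.im * y.im) ^ 2 + (c.re * y.im + c.im * y.re) ^ 2 =
      (c.re ^ 2 + c.im ^ 2) * (y.re ^ 2 + y.im ^ 2) := by ring
  rw [this, h]
  ring

theorem ext_mul (hc : ‖c‖ = 1) (U : Set ℂ) (f : ℂ → ℂ) (w : ℂ) (t : ℝ) :
    ext U f (w, t) = ext {y | c * y ∈ U} (fun y => f (c * y)) (starRingEnd ℂ c * w, t) := by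
  unfold ext
  have h := (mp_mul hc).setIntegral_preimage_emb (mul_emb hc)
    (fun x => cexp (-(I * (ph x (w, t) : ℂ))) * f x) U
  rw [← h]
  have e : (fun z : ℂ => c * z) ⁻¹' U = {y | c * y ∈ U} := rfl
  rw [e]
  congr 1
  ext y
  rw [ph_mul hc]

theorem ext_meas (U : Set ℂ) (hf : Measurable f) : Measurable (ext U f) := by
  apply StronglyMeasurable.measurable
  unfold ext
  apply StronglyMeasurable.integral_prod_right'
    (f := fun p : (ℂ × ℝ) × ℂ => cexp (-(I * (ph p.2 p.1 : ℂ))) * f p.2)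
  apply Measurable.stronglyMeasurable
  apply Measurable.mul _ (hf.comp measurable_snd)
  unfold ph
  fun_prop

/-- the integral of the `q`-th power -/
noncomputable def en (q : ℝ) (U : Set ℂ) (f : ℂ → ℂ) : ℝ≥0∞ := ∫⁻ ξ : ℂ × ℝ, ‖ext U f ξ‖ₑ ^ q

theorem en_mul (hc : ‖c‖ = 1) (q : ℝ) (U : Set ℂ) (hf : Measurable f) :
    en q U f = en q {y | c * y ∈ U} (fun y => f (c * y)) := by
  have hc' : ‖starRingEnd ℂ c‖ = 1 := by rw [RCLike.norm_conj, hc]
  have h1 : MeasurePreserving (fun ξ : ℂ × ℝ => (starRingEnd ℂ c * ξ.1, ξ.2)) volume volume := by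
    have := (mp_mul hc').prod (MeasurePreserving.id (volume : Measure ℝ))
    exact this
  have hf2 : Measurable (fun y => f (c * y)) := hf.comp (by fun_prop)
  unfold en
  rw [← h1.lintegral_comp ((ext_meas _ hf2).enorm.pow_const q)]
  apply lintegral_congr
  rintro ⟨w, t⟩
  rw [ext_mul hc]

theorem ext_congr (hU : MeasurableSet U) (h : ∀ x ∈ U, f x = g x) (ξ : ℂ × ℝ) :
    ext U f ξ = ext U g ξ := by
  unfold ext
  apply setIntegral_congr_fun hU
  intro x hx
  simp only [h x hx]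

theorem en_congr (hU : MeasurableSet U) (h : ∀ x ∈ U, f x = g x) (q : ℝ) :
    en q U f = en q U g := by
  unfold en
  simp only [ext_congr hU h]

/-- comparison with the operator on the product of lines -/
theorem en_prod (q : ℝ) (U : Set ℂ) (hf : Measurable f) :
    en q U f = ∫⁻ ξ : (ℝ × ℝ) × ℝ, ‖Results.MP_5ab805_an.DirectionalRegularity.ext
      {p : ℝ × ℝ | (p.1 : ℂ) + p.2 * I ∈ U} (fun p : ℝ × ℝ => f (p.1 + p.2 * I)) ξ‖ₑ ^ q := by
  have h0 : MeasurePreserving (fun p : ℝ × ℝ => (p.1 : ℂ) + p.2 * I) volume volume := by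
    have h := Complex.volume_preserving_equiv_real_prod.symm
    have e : (fun p : ℝ × ℝ => (p.1 : ℂ) + p.2 * I) = Complex.measurableEquivRealProd.symm := by
      ext p
      apply Complex.ext <;> simp [Complex.measurableEquivRealProd]
    rw [e]
    exact h
  have h1 : MeasurePreserving (fun ξ : (ℝ × ℝ) × ℝ => ((ξ.1.1 : ℂ) + ξ.1.2 * I, ξ.2))
      volume volume := by
    have := h0.prod (MeasurePreserving.id (volume : Measure ℝ))
    exact this
  have hemb : MeasurableEmbedding (fun p : ℝ × ℝ => (p.1 : ℂ) + p.2 * I) := by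
    have e : (fun p : ℝ × ℝ => (p.1 : ℂ) + p.2 * I) = Complex.measurableEquivRealProd.symm := by
      ext p
      apply Complex.ext <;> simp [Complex.measurableEquivRealProd]
    rw [e]
    exact MeasurableEquiv.measurableEmbedding _
  unfold en
  rw [← h1.lintegral_comp ((ext_meas _ hf).enorm.pow_const q)]
  apply lintegral_congr
  rintro ⟨⟨a, b⟩, t⟩
  congr 2
  unfold ext Results.MP_5ab805_an.DirectionalRegularity.ext
  rw [← h0.setIntegral_preimage_emb hemb]
  have e : (fun p : ℝ × ℝ => (p.1 : ℂ) + p.2 * I) ⁻¹' U =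
    {p : ℝ × ℝ | (p.1 : ℂ) + p.2 * I ∈ U} := rfl
  rw [e]
  congr 1
  ext p
  have e2 : ph ((p.1 : ℂ) + p.2 * I) ((a : ℂ) + b * I, t) =
      p.1 * a + p.2 * b + (p.1 ^ 2 + p.2 ^ 2) * t := by
    unfold ph
    simp
  rw [e2]

/-- rotation of the data -/
theorem Good.rot (hU : Good U) (hc : ‖c‖ = 1) : Good {y | c * y ∈ U} := by
  refine ⟨hU.op.preimage (by fun_prop), ?_, ?_⟩
  · intro x hx y hy a b ha hb hab
    have := hU.conv hx hy ha hb hab
    show c * (a • x + b • y) ∈ U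
    have e : c * (a • x + b • y) = a • (c * x) + b • (c * y) := by
      simp only [Complex.real_smul]; ring
    rw [e]
    exact this
  · intro y hy
    have := hU.norm_le hy
    rw [norm_mul, hc, one_mul] at this
    simpa using this

theorem mean_rot (hc : ‖c‖ = 1) (q : ℝ) (F : ℂ → ℂ) (y : ℂ) (ρ : ℝ) :
    mean q (fun z => F (c * z)) y ρ = mean q F (c * y) ρ := by
  unfold mean
  congr 2
  have h := (mp_mul hc).setLIntegral_comp_preimage_emb (mul_emb hc)
    (fun z => ‖F z‖ₑ ^ q) (ball (c * y) ρ)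
  rw [← h]
  congr 2
  ext z
  simp only [mem_preimage, mem_ball, dist_eq_norm]
  rw [← mul_sub, norm_mul, hc, one_mul]

theorem Regular.rot (h : Regular q s K U F) (hc : ‖c‖ = 1) :
    Regular q s K {y | c * y ∈ U} (fun y => F (c * y)) := by
  have hb : ∀ (x : ℂ) (ρ : ℝ), ball x ρ ⊆ {y | c * y ∈ U} → ball (c * x) ρ ⊆ U := by
    intro x ρ hb z hz
    have hc0 : c ≠ 0 := by intro h; rw [h] at hc; simp at hc
    have h1 : c⁻¹ * z ∈ ball x ρ := by
      rw [mem_ball, dist_eq_norm] at hz ⊢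
      have : z - c * x = c * (c⁻¹ * z - x) := by field_simp
      rw [this, norm_mul, hc, one_mul] at hz
      exact hz
    have h2 : c * (c⁻¹ * z) ∈ U := hb h1
    rwa [mul_inv_cancel_left₀ hc0] at h2
  refine ⟨?_, ?_, ?_⟩
  · exact h.cont.comp (by fun_prop) (fun y hy => hy)
  · intro x ρ hρ hx
    rw [mean_rot hc]
    exact h.size _ _ hρ (hb x ρ hx)
  · intro x y ρ hρ hx hy
    rw [mean_rot hc]
    have e : ‖c * y - c * x‖ = ‖y - x‖ := by rw [← mul_sub, norm_mul, hc, one_mul]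
    have := h.hold (c * x) (c * y) ρ hρ (hb x ρ hx) (by rw [e]; exact hy)
    rwa [e] at this

theorem int_rot (hc : ‖c‖ = 1) (q : ℝ) (U : Set ℂ) (F : ℂ → ℂ) :
    ∫⁻ z in {y | c * y ∈ U}, ‖F (c * z)‖ₑ ^ q = ∫⁻ z in U, ‖F z‖ₑ ^ q :=
  (mp_mul hc).setLIntegral_comp_preimage_emb (mul_emb hc) (fun z => ‖F z‖ₑ ^ q) U

theorem ex_rot (U : Set ℂ) (v y : ℂ) : ex U (c * v) (c * y) = ex {y | c * y ∈ U} v y := by
  unfold ex
  congr 1
  ext t
  have : c * y + t * (c * v) = c * (y + t * v) := by ring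
  rw [mem_ofPred_eq, mem_ofPred_eq, this]
  rfl

theorem piece_rot (U : Set ℂ) (b : Fin 3 → Bool) (y : ℂ) :
    c * y ∈ piece U (c * I) b ↔ y ∈ piece {y | c * y ∈ U} I b := by
  unfold piece
  simp only [mem_ofPred_eq, mul_assoc, ex_rot]

/-- the estimate for one piece, in all directions -/
theorem est_dir (q s K : ℝ) (hq : 3 < q) (hs : 0 < s) (hs2 : 2 * s < 1)
    (hqs : 4 < q * (1 + 2 * s)) (hK : 0 ≤ K) : ∃ C : ℝ≥0, ∀ U : Set ℂ, Good U →
    ∀ F : ℂ → ℂ, Regular q s K U F → ∫⁻ z in U, ‖F z‖ₑ ^ q ≠ ∞ → ∀ (b : Fin 3 → Bool) (c : ℂ),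
      ‖c‖ = 1 → en q U ((piece U (c * I) b).indicator F) ≤ C * ∫⁻ z in U, ‖F z‖ₑ ^ q := by
  obtain ⟨C, hC⟩ := est_piece q s K hq hs hs2 hqs hK
  refine ⟨C, ?_⟩
  intro U hU F hF hfin b c hc
  have hm : Measurable ((piece U (c * I) b).indicator F) := by
    classical
    have h1 : Measurable (U.indicator F) := by
      rw [← Set.piecewise_eq_indicator]
      exact hF.cont.measurable_piecewise continuousOn_const hU.meas
    have e : (piece U (c * I) b).indicator F = (piece U (c * I) b).indicator (U.indicator F) := by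
      ext z
      by_cases hz : z ∈ piece U (c * I) b
      · rw [indicator_of_mem hz, indicator_of_mem hz, indicator_of_mem hz.1]
      · rw [indicator_of_notMem hz, indicator_of_notMem hz]
    rw [e]
    exact h1.indicator (hU.piece_meas (by simp [hc]) b)
  have e : (fun y => (piece U (c * I) b).indicator F (c * y)) =
      (piece {y | c * y ∈ U} I b).indicator (fun y => F (c * y)) := by
    ext y
    by_cases hy : c * y ∈ piece U (c * I) b
    · rw [indicator_of_mem hy, indicator_of_mem ((piece_rot U b y).1 hy)]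
    · rw [indicator_of_notMem hy, indicator_of_notMem (fun h => hy ((piece_rot U b y).2 h))]
  rw [en_mul hc q U hm, e, en_prod, ← int_rot hc q U F]
  · exact hC _ (hU.rot hc) _ (hF.rot hc) (by rw [int_rot hc]; exact hfin) b
  · rw [← e]
    exact hm.comp (by fun_prop)

end Pool.Agent.H26.HD
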