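import Mathlib
set_option autoImplicit false

/-!
# A summation lemma for dyadic lengths
-/

namespace Pool.Agent.H26.HD

open MeasureTheory Set
open scoped ENNReal NNReal

/-- the constant `1 + 1/(1 - 2^(-σ))` -/
noncomputable def sumConst (σ : ℝ) : ℝ≥0∞ := 1 + (1 - ENNReal.ofReal ((1 / 2 : ℝ) ^ σ))⁻¹

theorem half_rpow_lt_one {σ : ℝ} (hσ : 0 < σ) : ENNReal.ofReal ((1 / 2 : ℝ) ^ σ) < 1 := by
  have h1 : (1 / 2 : ℝ) ^ σ < 1 := Real.rpow_lt_one (by norm_num) (by norm_num) hσ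
  have := (ENNReal.ofReal_lt_one (p := (1 / 2 : ℝ) ^ σ)).2 h1
  exact this

theorem sumConst_ne_top {σ : ℝ} (hσ : 0 < σ) : sumConst σ ≠ ∞ := by
  unfold sumConst
  apply ENNReal.add_ne_top.2 ⟨ENNReal.one_ne_top, ?_⟩
  apply ENNReal.inv_ne_top.2
  exact (tsub_pos_of_lt (half_rpow_lt_one hσ)).ne'

/-- geometric tail -/
theorem tail_bound {σ : ℝ} (hσ : 0 < σ) (a : ℕ → ℝ≥0∞) (n1 : ℕ) (L : ℝ≥0∞)
    (ha0 : ∀ n < n1, a n = 0) (ha : ∀ k, a (n1 + k) ≤ ENNReal.ofReal ((1 / 2 : ℝ) ^ k) * L) :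
    ∑' n, a n ^ σ ≤ (1 - ENNReal.ofReal ((1 / 2 : ℝ) ^ σ))⁻¹ * L ^ σ := by
  have h1 : ∑' n, a n ^ σ = ∑' k, a (n1 + k) ^ σ := by
    have hinj : Function.Injective (fun k : ℕ => n1 + k) := fun x y h => by simpa using h
    rw [← hinj.tsum_eq (f := fun n => a n ^ σ)]
    intro n hn
    have hn' : a n ^ σ ≠ 0 := hn
    have : n1 ≤ n := by
      by_contra hc
      push Not at hc
      apply hn'
      rw [ha0 n hc, ENNReal.zero_rpow_of_pos hσ]
    exact ⟨n - n1, by simp; omega⟩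
  rw [h1, ← ENNReal.tsum_geometric, ← ENNReal.tsum_mul_right]
  apply ENNReal.tsum_le_tsum
  intro k
  calc a (n1 + k) ^ σ ≤ (ENNReal.ofReal ((1 / 2 : ℝ) ^ k) * L) ^ σ :=
        ENNReal.rpow_le_rpow (ha k) hσ.le
    _ = ENNReal.ofReal ((1 / 2 : ℝ) ^ k) ^ σ * L ^ σ := ENNReal.mul_rpow_of_nonneg _ _ hσ.le
    _ = ENNReal.ofReal ((1 / 2 : ℝ) ^ σ) ^ k * L ^ σ := by
        congr 1
        rw [ENNReal.ofReal_rpow_of_nonneg (by positivity) hσ.le,
          ← ENNReal.ofReal_pow (by positivity)]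
        congr 1
        rw [← Real.rpow_natCast, ← Real.rpow_mul (by norm_num), mul_comm,
          Real.rpow_mul (by norm_num), Real.rpow_natCast]

theorem sum_lemma {σ : ℝ} (hσ : 0 < σ) (p : ℕ → ℝ≥0∞)
    (hp1 : ∀ n, p n ≤ ENNReal.ofReal ((1 / 2 : ℝ) ^ (n + 1)))
    (hp2 : ∀ n k, n < k → p n ≠ 0 → ENNReal.ofReal ((1 / 2 : ℝ) ^ (k + 1)) ≤ p k)
    (S : Set ℕ) :
    ∑' n, (S.indicator p n) ^ σ ≤ sumConst σ * (∑' n, S.indicator p n) ^ σ := by
  classical
  set a : ℕ → ℝ≥0∞ := S.indicator p with ha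
  set L : ℝ≥0∞ := ∑' n, a n with hL
  have haL : ∀ n, a n ≤ L := fun n => ENNReal.le_tsum n
  by_cases h0 : ∀ n, a n = 0
  · have : ∑' n, a n ^ σ = 0 := by
      simp [h0, ENNReal.zero_rpow_of_pos hσ]
    rw [this]
    exact zero_le
  push Not at h0
  set n0 := Nat.find h0 with hn0
  have hn0' : a n0 ≠ 0 := Nat.find_spec h0
  have hlt0 : ∀ n < n0, a n = 0 := fun n hn => by
    have := Nat.find_min h0 hn
    simpa using this
  -- the sequence without the term `n0`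
  set b : ℕ → ℝ≥0∞ := fun n => if n = n0 then 0 else a n with hb
  have hsplit : ∑' n, a n ^ σ ≤ a n0 ^ σ + ∑' n, b n ^ σ := by
    have h1 : ∀ n, a n ^ σ ≤ (if n = n0 then a n0 ^ σ else 0) + b n ^ σ := by
      intro n
      by_cases h : n = n0
      · subst h; simp
      · simp [hb, h]
    calc ∑' n, a n ^ σ ≤ ∑' n, ((if n = n0 then a n0 ^ σ else 0) + b n ^ σ) :=
          ENNReal.tsum_le_tsum h1
      _ = _ := by rw [ENNReal.tsum_add, tsum_ite_eq]
  have hB : ∑' n, b n ^ σ ≤ (1 - ENNReal.ofReal ((1 / 2 : ℝ) ^ σ))⁻¹ * L ^ σ := by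
    by_cases h1 : ∀ n, b n = 0
    · have : ∑' n, b n ^ σ = 0 := by
        simp [h1, ENNReal.zero_rpow_of_pos hσ]
      rw [this]
      exact zero_le
    push Not at h1
    set n1 := Nat.find h1 with hn1
    have hn1' : b n1 ≠ 0 := Nat.find_spec h1
    have hlt1 : ∀ n < n1, b n = 0 := fun n hn => by
      have := Nat.find_min h1 hn
      simpa using this
    have hne : n1 ≠ n0 := by
      intro h
      apply hn1'
      simp [hb, h]
    have hbn1 : a n1 ≠ 0 := by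
      intro h
      apply hn1'
      simp [hb, h]
    have hn01 : n0 < n1 := by
      rcases lt_trichotomy n0 n1 with h | h | h
      · exact h
      · exact absurd h.symm hne
      · exact absurd (hlt0 n1 h) hbn1
    apply tail_bound hσ b n1 L hlt1
    intro k
    have hS0 : n0 ∈ S := by
      by_contra hc
      exact hn0' (indicator_of_notMem hc p)
    have hS1 : n1 ∈ S := by
      by_contra hc
      exact hbn1 (indicator_of_notMem hc p)
    have hp0 : p n0 ≠ 0 := by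
      have := hn0'
      rwa [ha, indicator_of_mem hS0] at this
    have h2 : ENNReal.ofReal ((1 / 2 : ℝ) ^ (n1 + 1)) ≤ L := by
      calc _ ≤ p n1 := hp2 n0 n1 hn01 hp0
        _ = a n1 := by rw [ha, indicator_of_mem hS1]
        _ ≤ L := haL n1
    have h3 : b (n1 + k) ≤ p (n1 + k) := by
      simp only [hb]
      split_ifs
      · exact zero_le
      · rw [ha]
        exact indicator_le_self' (fun _ _ => zero_le) _
    calc b (n1 + k) ≤ p (n1 + k) := h3
      _ ≤ ENNReal.ofReal ((1 / 2 : ℝ) ^ (n1 + k + 1)) := hp1 _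
      _ = ENNReal.ofReal ((1 / 2 : ℝ) ^ k) * ENNReal.ofReal ((1 / 2 : ℝ) ^ (n1 + 1)) := by
          rw [← ENNReal.ofReal_mul (by positivity)]
          congr 1
          rw [← pow_add]
          congr 1
          omega
      _ ≤ ENNReal.ofReal ((1 / 2 : ℝ) ^ k) * L := by gcongr
  calc ∑' n, a n ^ σ ≤ a n0 ^ σ + ∑' n, b n ^ σ := hsplit
    _ ≤ L ^ σ + (1 - ENNReal.ofReal ((1 / 2 : ℝ) ^ σ))⁻¹ * L ^ σ := by
        gcongr
        exact haL n0
    _ = sumConst σ * L ^ σ := by rw [sumConst, add_mul, one_mul]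

end Pool.Agent.H26.HD
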